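import Mathlib
import Pool.Agent.W25.UN.Stm2
import Pool.Agent.W59.GB.Mult

/-! Project UB (helper25): the final theorem and its consequences (statements). -/

set_option autoImplicit false

namespace Pool.Agent.W25.UB

open Finset Filter Topology
open Pool.Agent.W25.UN (Fm uB wB)
open Pool.Agent.H410R2 (WW)
open Pool.Agent.W59.GB Pool.Agent.H947R3.GM

/-- all forms (and `n` itself) are coprime to `WW D` on the class `v` -/
def CopAt {k : ℕ} (α h : Fin k → ℤ) (D N v : ℕ) : Prop :=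
  ∀ j, ∀ n : ℤ, n ≡ v [ZMOD (WW D)] → IsCoprime (uB α j * n + wB h N j) ((WW D : ℕ) : ℤ)

open Classical in
/-- (V) the uniform coloured theorem with four classes, slopes `1` and `-1` -/
def ThmV : Prop := ∃ K : ℕ, 2 ≤ K ∧
  ∀ (α h : Fin (4 * K) → ℤ) (cl : Fin (4 * K) → Fin 4),
    (∀ g, (univ.filter (fun i => cl i = g)).card = K) → (∀ i, α i = 1 ∨ α i = -1) →
    (∀ i j, i ≠ j → ¬ (α i = α j ∧ h i = h j)) → ∃ D₀ : ℕ, ∀ D : ℕ, D₀ ≤ D →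
    ∀ η : ℝ, 0 < η → ∀ᶠ N : ℕ in atTop, ∀ v : ℕ, CopAt α h D N v →
      (N : ℝ) ^ (1 - η) ≤ (((Icc 1 N).filter (fun n : ℕ => n ≡ v [MOD (WW D)] ∧
        (N : ℝ) / 16 ≤ n ∧ (n : ℝ) ≤ N / 2 ∧
        2 ≤ (univ.filter (fun g : Fin 4 => ∃ i, cl i = g ∧
          (Fm α h N i n).toNat.Prime)).card)).card : ℝ)

/-- (C1a) four classes for the gaps between consecutive primes -/
def St_C1a : Prop := ∀ (N a : ℕ), 0 < N → 2 ∣ N → Squarefree N → a.Coprime N →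
  ∃ K : ℕ, 1 ≤ K ∧ ∀ H : Fin 4 → Fin K → ℕ, AdmN N H →
    ∃ g g' i i', g ≠ g' ∧ H g i < H g' i' ∧ H g' i' - H g i ∈ GapB N a

/-- (C1b) a third of the multiples of an even number -/
def St_C1b : Prop := ∀ (N : ℕ) (D : Set ℕ), 2 ∣ N →
  (∃ K : ℕ, 1 ≤ K ∧ ∀ H : Fin 4 → Fin K → ℕ, AdmN N H →
    ∃ g g' i i', g ≠ g' ∧ H g i < H g' i' ∧ H g' i' - H g i ∈ D) → ∀ ε : ℝ, 0 < ε →
  ∃ N₀ : ℕ, ∀ M ≥ N₀, ∀ u, (1 / 3 - ε) * (M : ℝ) ≤ (win D u M : ℝ)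

open Classical in
/-- (C2) the dichotomy at the scale `N`: for every large `N` either some `2 N + c` with `|c| ≤ C` is
a sum of two primes in at least `N ^ (1 - η)` ways, or in the window `(u, u + L]` all `k` but a
proportion `ε` are such that `2 k` is a difference of two primes up to `3 N` in at least
`N ^ (1 - η)` ways -/
def St_C2 : Prop := ∀ ε : ℝ, 0 < ε → ∃ L₀ : ℕ, ∀ L : ℕ, L₀ ≤ L → ∀ u : ℕ, ∃ C : ℕ,
  ∀ η : ℝ, 0 < η → ∀ᶠ N : ℕ in atTop,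
    (∃ c : ℤ, |c| ≤ C ∧ (N : ℝ) ^ (1 - η) ≤ (((Icc 1 (3 * N)).filter (fun p : ℕ =>
      p.Prime ∧ ∃ q : ℕ, q.Prime ∧ (p : ℤ) + q = 2 * N + c)).card : ℝ)) ∨
    (1 - ε) * (L : ℝ) ≤ (((Ioc u (u + L)).filter (fun k : ℕ => (N : ℝ) ^ (1 - η) ≤
      (((Icc 1 (3 * N)).filter (fun p : ℕ => p.Prime ∧ (p + 2 * k).Prime)).card : ℝ))).card : ℝ)

end Pool.Agent.W25.UB
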