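import Mathlib
import Pool.Agent.W25.UB.Stm4

/-! Project UB: a third of the multiples of an even number in every long window are gaps between
consecutive primes, from `St_C1a` and `St_C1b`. -/

set_option autoImplicit false

namespace Pool.Agent.W25.UB

open Finset Filter Topology
open Pool.Agent.W59.GB Pool.Agent.H947R3.GM

theorem third_of (h1 : St_C1a) (h2 : St_C1b) (m N a : ℕ) (hm : 0 < m) (hN2 : 2 ∣ N)
    (hNm : N ∣ m) (hsq : Squarefree N) (ha : Nat.Coprime a N) (ε : ℝ) (hε : 0 < ε) :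
    ∃ L : ℕ, ∀ M : ℕ, L ≤ M → ∀ u : ℕ,
      (1 / 3 - ε) * (M : ℝ) ≤
        ({k : ℕ | u < k ∧ k ≤ u + M ∧ ∀ η : ℝ, 0 < η → ∃ᶠ x : ℝ in atTop,
          x ^ (1 - η) ≤ ({n : ℕ | (Nat.nth Nat.Prime n : ℝ) ≤ x ∧
            Nat.nth Nat.Prime n ≡ a [MOD N] ∧
            Nat.nth Nat.Prime (n + 1) = Nat.nth Nat.Prime n + m * k}.ncard : ℝ)}.ncard : ℝ) := by
  classical
  obtain ⟨l, rfl⟩ := hNm
  have hN : 0 < N := Nat.pos_of_mul_pos_right hm
  have hl : 0 < l := Nat.pos_of_mul_pos_left hm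
  obtain ⟨K, hK, hH⟩ := h1 N a hN hN2 hsq ha
  have key : ∃ K : ℕ, 1 ≤ K ∧ ∀ H : Fin 4 → Fin K → ℕ, AdmN (N * l) H →
      ∃ g g' i i', g ≠ g' ∧ H g i < H g' i' ∧
        H g' i' - H g i ∈ {k : ℕ | l * k ∈ GapB N a} := by
    refine ⟨K, hK, fun H hadm => ?_⟩
    obtain ⟨hinj, hloc⟩ := hadm
    have hadm' : AdmN N (fun g i => l * H g i) := by
      refine ⟨?_, ?_⟩
      · intro x y hxy
        exact hinj (Nat.eq_of_mul_eq_mul_left hl hxy)
      · intro p hp hpN
        by_cases hpl : p ∣ l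
        · refine ⟨1, fun g i h => ?_⟩
          have h3 : (p : ℤ) ∣ ((l * H g i : ℕ) : ℤ) :=
            Int.natCast_dvd_natCast.2 (Dvd.dvd.mul_right hpl _)
          have h4 : (p : ℤ) ∣ 1 := (Int.dvd_add_left h3).1 h
          have h5 : p ∣ 1 := by exact_mod_cast h4
          exact hp.one_lt.ne' (Nat.dvd_one.1 h5)
        · have hpNl : ¬ p ∣ N * l := fun h => (hp.dvd_mul.1 h).elim hpN hpl
          obtain ⟨n, hn⟩ := hloc p hp hpNl
          refine ⟨l * n, fun g i h => ?_⟩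
          have h3 : (l : ℤ) * n + ((l * H g i : ℕ) : ℤ) = l * (n + H g i) := by
            push_cast
            ring
          rw [h3] at h
          rcases (Nat.prime_iff_prime_int.1 hp).dvd_mul.1 h with h4 | h4
          · exact hpl (by exact_mod_cast h4)
          · exact hn g i h4
    obtain ⟨g, g', i, i', hgg, hlt, hmem⟩ := hH _ hadm'
    refine ⟨g, g', i, i', hgg, Nat.lt_of_mul_lt_mul_left hlt, ?_⟩
    have e : l * (H g' i' - H g i) = l * H g' i' - l * H g i := Nat.mul_sub _ _ _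
    rw [Set.mem_ofPred_eq, e]
    exact hmem
  obtain ⟨M₀, h⟩ := h2 (N * l) {k : ℕ | l * k ∈ GapB N a} (hN2.mul_right l) key ε hε
  refine ⟨M₀, fun M hM u => (h M hM u).trans ?_⟩
  rw [win_eq, Nat.cast_le, ← Set.ncard_coe_finset]
  refine Set.ncard_le_ncard ?_ ((Set.finite_Ioc u (u + M)).subset ?_)
  · intro d hd
    rw [Finset.coe_filter, Set.mem_ofPred_eq, Finset.mem_Ioc] at hd
    refine ⟨hd.1.1, hd.1.2, fun η hη => ?_⟩
    have h3 := nthB (N := N) (a := a) (k := l * d) hd.2 η hη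
    have e : N * (l * d) = N * l * d := by ring
    rw [e] at h3
    exact h3
  · intro d hd
    exact ⟨hd.1, hd.2.1⟩

end Pool.Agent.W25.UB
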