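import Mathlib

/-! Project UB: the Bessel inequality over the second form. -/

set_option autoImplicit false

namespace Pool.Agent.W25.UB

open Finset

variable {I : Type} [DecidableEq I]

/-- expansion of the centred square -/
theorem tsum_centred (μ : ℤ → ℝ) (s : I → ℤ → ℝ) (J : Finset I) (m U0 L1 U2 Ud : ℝ) (hm : 0 ≤ m)
    (hU2 : 0 ≤ U2) (hsμ : Summable μ) (h0 : ∑' n, μ n ≤ U0)
    (hs1 : ∀ j ∈ J, Summable (fun n => μ n * s j n)) (h1 : ∀ j ∈ J, L1 ≤ ∑' n, μ n * s j n)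
    (hs2 : ∀ j ∈ J, Summable (fun n => μ n * s j n ^ 2))
    (h2 : ∀ j ∈ J, ∑' n, μ n * s j n ^ 2 ≤ Ud)
    (hs3 : ∀ j ∈ J, ∀ l ∈ J, j ≠ l → Summable (fun n => μ n * (s j n * s l n)))
    (h3 : ∀ j ∈ J, ∀ l ∈ J, j ≠ l → ∑' n, μ n * (s j n * s l n) ≤ U2) :
    Summable (fun n => μ n * (∑ j ∈ J, (s j n - m)) ^ 2) ∧
    ∑' n, μ n * (∑ j ∈ J, (s j n - m)) ^ 2 ≤
      J.card * Ud + (J.card : ℝ) ^ 2 * (U2 - 2 * m * L1 + m ^ 2 * U0) := by
  have hs4 : ∀ j ∈ J, ∀ l ∈ J, Summable (fun n => μ n * (s j n * s l n)) := by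
    intro j hj l hl
    by_cases h : j = l
    · subst h
      refine (hs2 j hj).congr fun n => ?_
      ring
    · exact hs3 j hj l hl h
  have hexp : ∀ n, μ n * (∑ j ∈ J, (s j n - m)) ^ 2 =
      ∑ j ∈ J, ∑ l ∈ J, μ n * (s j n * s l n) -
        2 * (J.card * m) * ∑ j ∈ J, μ n * s j n + (J.card * m) ^ 2 * μ n := by
    intro n
    have e1 : ∑ j ∈ J, (s j n - m) = ∑ j ∈ J, s j n - J.card * m := by
      rw [Finset.sum_sub_distrib, Finset.sum_const, nsmul_eq_mul]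
    have e2 : ∑ j ∈ J, ∑ l ∈ J, μ n * (s j n * s l n) = μ n * (∑ j ∈ J, s j n) ^ 2 := by
      rw [sq, Finset.sum_mul_sum, Finset.mul_sum]
      refine Finset.sum_congr rfl fun j _ => ?_
      rw [Finset.mul_sum]
    rw [e1, e2, ← Finset.mul_sum]
    ring
  have hsA : Summable (fun n => ∑ j ∈ J, ∑ l ∈ J, μ n * (s j n * s l n)) :=
    summable_sum fun j hj => summable_sum fun l hl => hs4 j hj l hl
  have hsB : Summable (fun n => 2 * (J.card * m) * ∑ j ∈ J, μ n * s j n) :=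
    (summable_sum fun j hj => hs1 j hj).mul_left _
  have hsC : Summable (fun n => (J.card * m) ^ 2 * μ n) := hsμ.mul_left _
  constructor
  · exact ((hsA.sub hsB).add hsC).congr fun n => (hexp n).symm
  · rw [tsum_congr hexp, (hsA.sub hsB).tsum_add hsC, hsA.tsum_sub hsB, tsum_mul_left,
      tsum_mul_left]
    have eA : ∑' n, ∑ j ∈ J, ∑ l ∈ J, μ n * (s j n * s l n) =
        ∑ j ∈ J, ∑ l ∈ J, ∑' n, μ n * (s j n * s l n) := by
      rw [Summable.tsum_finsetSum fun j hj => summable_sum fun l hl => hs4 j hj l hl]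
      refine Finset.sum_congr rfl fun j hj => ?_
      rw [Summable.tsum_finsetSum fun l hl => hs4 j hj l hl]
    have eB : ∑' n, ∑ j ∈ J, μ n * s j n = ∑ j ∈ J, ∑' n, μ n * s j n :=
      Summable.tsum_finsetSum fun j hj => hs1 j hj
    rw [eA, eB]
    have bA : ∑ j ∈ J, ∑ l ∈ J, ∑' n, μ n * (s j n * s l n) ≤
        J.card * Ud + (J.card : ℝ) ^ 2 * U2 := by
      have b1 : ∀ j ∈ J, ∑ l ∈ J, ∑' n, μ n * (s j n * s l n) ≤ Ud + J.card * U2 := by
        intro j hj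
        rw [← Finset.add_sum_erase J _ hj]
        have b2 : ∑' n, μ n * (s j n * s j n) ≤ Ud := by
          have e : (fun n => μ n * (s j n * s j n)) = fun n => μ n * s j n ^ 2 := by
            funext n; ring
          rw [e]
          exact h2 j hj
        have b3 : ∑ l ∈ J.erase j, ∑' n, μ n * (s j n * s l n) ≤ ∑ _l ∈ J.erase j, U2 :=
          Finset.sum_le_sum fun l hl => h3 j hj l (Finset.mem_of_mem_erase hl)
            (Finset.ne_of_mem_erase hl).symm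
        rw [Finset.sum_const, nsmul_eq_mul] at b3
        have b4 : ((J.erase j).card : ℝ) * U2 ≤ J.card * U2 := by
          apply mul_le_mul_of_nonneg_right _ hU2
          exact_mod_cast Finset.card_le_card (Finset.erase_subset j J)
        linarith
      calc ∑ j ∈ J, ∑ l ∈ J, ∑' n, μ n * (s j n * s l n) ≤ ∑ _j ∈ J, (Ud + J.card * U2) :=
            Finset.sum_le_sum b1
        _ = _ := by rw [Finset.sum_const, nsmul_eq_mul]; ring
    have bB : J.card * L1 ≤ ∑ j ∈ J, ∑' n, μ n * s j n := by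
      calc (J.card : ℝ) * L1 = ∑ _j ∈ J, L1 := by rw [Finset.sum_const, nsmul_eq_mul]
        _ ≤ _ := Finset.sum_le_sum h1
    have hc : 0 ≤ 2 * (J.card * m) := by positivity
    have bB' := mul_le_mul_of_nonneg_left bB hc
    have bC := mul_le_mul_of_nonneg_left h0 (sq_nonneg ((J.card : ℝ) * m))
    calc _ ≤ (J.card * Ud + (J.card : ℝ) ^ 2 * U2) - 2 * (J.card * m) * (J.card * L1) +
          (J.card * m) ^ 2 * U0 := by linarith
      _ = _ := by ring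

/-- the Bessel inequality -/
theorem bessel (S : Finset ℕ) (f : ℕ → ℝ) (hf : ∀ n ∈ S, 0 ≤ f n) (μ : ℤ → ℝ)
    (hμ : ∀ n, 0 ≤ μ n) (hfμ : ∀ n ∈ S, f n ≤ 2 * μ n) (s : I → ℤ → ℝ) (J : Finset I)
    (m V : ℝ) (hs : Summable (fun n => μ n * (∑ j ∈ J, (s j n - m)) ^ 2))
    (hV : ∑' n, μ n * (∑ j ∈ J, (s j n - m)) ^ 2 ≤ V) :
    ∑ n ∈ S, f n * ∑ j ∈ J, s j n ≤
      J.card * m * (∑ n ∈ S, f n) + Real.sqrt (2 * (∑ n ∈ S, f n) * V) := by
  set R : ℤ → ℝ := fun n => ∑ j ∈ J, (s j n - m) with hR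
  have e1 : ∀ n : ℕ, ∑ j ∈ J, s j n = R n + J.card * m := by
    intro n
    simp only [hR]
    rw [Finset.sum_sub_distrib, Finset.sum_const, nsmul_eq_mul]
    ring
  have e2 : ∑ n ∈ S, f n * ∑ j ∈ J, s j n =
      ∑ n ∈ S, f n * R n + J.card * m * ∑ n ∈ S, f n := by
    rw [Finset.mul_sum, ← Finset.sum_add_distrib]
    refine Finset.sum_congr rfl fun n _ => ?_
    rw [e1]
    ring
  rw [e2]
  have hF : 0 ≤ ∑ n ∈ S, f n := Finset.sum_nonneg hf
  have hcs : (∑ n ∈ S, f n * R n) ^ 2 ≤ (∑ n ∈ S, f n) * ∑ n ∈ S, f n * R n ^ 2 := by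
    have h := Finset.sum_mul_sq_le_sq_mul_sq S (fun n => Real.sqrt (f n))
      (fun n => Real.sqrt (f n) * R n)
    have h1 : ∑ n ∈ S, Real.sqrt (f n) * (Real.sqrt (f n) * R n) = ∑ n ∈ S, f n * R n :=
      Finset.sum_congr rfl fun n hn => by
        rw [← mul_assoc, Real.mul_self_sqrt (hf n hn)]
    have h2 : ∑ n ∈ S, Real.sqrt (f n) ^ 2 = ∑ n ∈ S, f n :=
      Finset.sum_congr rfl fun n hn => Real.sq_sqrt (hf n hn)
    have h3 : ∑ n ∈ S, (Real.sqrt (f n) * R n) ^ 2 = ∑ n ∈ S, f n * R n ^ 2 :=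
      Finset.sum_congr rfl fun n hn => by rw [mul_pow, Real.sq_sqrt (hf n hn)]
    rw [h1, h2, h3] at h
    exact h
  have hsum : ∑ n ∈ S, f n * R n ^ 2 ≤ 2 * V := by
    have h1 : ∑ n ∈ S, f n * R n ^ 2 ≤ ∑ n ∈ S, 2 * (μ n * R n ^ 2) := by
      refine Finset.sum_le_sum fun n hn => ?_
      have := mul_le_mul_of_nonneg_right (hfμ n hn) (sq_nonneg (R n))
      linarith
    have h2 : ∑ n ∈ S, μ (n : ℤ) * R n ^ 2 ≤ ∑' n, μ n * R n ^ 2 := by
      have h3 : ∑ n ∈ S.map ⟨fun n : ℕ => (n : ℤ), Nat.cast_injective⟩, μ n * R n ^ 2 ≤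
          ∑' n, μ n * R n ^ 2 :=
        hs.sum_le_tsum _ fun n _ => mul_nonneg (hμ n) (sq_nonneg _)
      rw [Finset.sum_map] at h3
      exact h3
    rw [← Finset.mul_sum] at h1
    linarith
  have hfin : ∑ n ∈ S, f n * R n ≤ Real.sqrt (2 * (∑ n ∈ S, f n) * V) := by
    apply Real.le_sqrt_of_sq_le
    calc (∑ n ∈ S, f n * R n) ^ 2 ≤ (∑ n ∈ S, f n) * ∑ n ∈ S, f n * R n ^ 2 := hcs
      _ ≤ (∑ n ∈ S, f n) * (2 * V) := mul_le_mul_of_nonneg_left hsum hF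
      _ = _ := by ring
  linarith

end Pool.Agent.W25.UB
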