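import Mathlib
import Pool.Agent.H732R3.CMQ
import Pool.Agent.W25.UB.Bes

/-! Project UB: the counting argument. -/

set_option autoImplicit false

namespace Pool.Agent.W25.UB

open Finset
open Pool.Agent.H732R3.CMQ

/-- second moment argument for one class, relative form -/
theorem class_rel {κ : Type} [DecidableEq κ] (S : Finset ℕ) (u : ℕ → ℝ) (hu : ∀ n ∈ S, 0 ≤ u n)
    (C : Finset κ) (pr : κ → ℕ → Prop) [∀ i n, Decidable (pr i n)]
    [∀ n, Decidable (∃ i ∈ C, pr i n)] (μ : ℝ) (hμ : 0 ≤ μ)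
    (hP : ∀ i ∈ C, ∑ j ∈ C.erase i, (∑ n ∈ S, if pr i n ∧ pr j n then u n else 0) ≤
      μ * ∑ n ∈ S, if pr i n then u n else 0) :
    ∑ i ∈ C, (∑ n ∈ S, if pr i n then u n else 0) ≤
      (1 + μ) * ∑ n ∈ S, if ∃ i ∈ C, pr i n then u n else 0 := by
  classical
  set X : ℕ → ℝ := fun n => ∑ i ∈ C, if pr i n then (1 : ℝ) else 0 with hX
  set q : ℝ := ∑ n ∈ S, if ∃ i ∈ C, pr i n then u n else 0 with hq
  set s : ℝ := ∑ n ∈ S, u n * X n with hs
  have hX0 : ∀ n, 0 ≤ X n := fun n => Finset.sum_nonneg fun i _ => by split_ifs <;> norm_num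
  have hq0 : 0 ≤ q := Finset.sum_nonneg fun n hn => by
    split_ifs
    · exact hu n hn
    · exact le_rfl
  have hCS : s ^ 2 ≤ q * ∑ n ∈ S, u n * X n ^ 2 := by
    rw [hs, hq]
    apply Finset.sum_sq_le_sum_mul_sum_of_sq_le_mul
    · intro n hn
      split_ifs
      · exact hu n hn
      · exact le_rfl
    · intro n hn
      exact mul_nonneg (hu n hn) (sq_nonneg _)
    · intro n hn
      apply le_of_eq
      split_ifs with h
      · ring
      · have : X n = 0 := by
          simp only [hX]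
          apply Finset.sum_eq_zero
          intro i hi
          rw [if_neg]
          exact fun h' => h ⟨i, hi, h'⟩
        rw [this]
        ring
  have hs1 : s = ∑ i ∈ C, ∑ n ∈ S, if pr i n then u n else 0 := by
    rw [hs, Finset.sum_comm]
    refine Finset.sum_congr rfl fun n _ => ?_
    simp only [hX]
    rw [Finset.mul_sum]
    refine Finset.sum_congr rfl fun i _ => ?_
    split_ifs <;> simp
  have hs0 : 0 ≤ s := Finset.sum_nonneg fun n hn => mul_nonneg (hu n hn) (hX0 n)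
  have hsq : ∑ n ∈ S, u n * X n ^ 2 ≤ (1 + μ) * s := by
    have e1 : ∑ n ∈ S, u n * X n ^ 2 =
        ∑ i ∈ C, ∑ j ∈ C, ∑ n ∈ S, if pr i n ∧ pr j n then u n else 0 := by
      have h1 : ∀ n, u n * X n ^ 2 = ∑ i ∈ C, ∑ j ∈ C, if pr i n ∧ pr j n then u n else 0 := by
        intro n
        simp only [hX]
        rw [sq, Finset.sum_mul_sum, Finset.mul_sum]
        refine Finset.sum_congr rfl fun i _ => ?_
        rw [Finset.mul_sum]
        refine Finset.sum_congr rfl fun j _ => ?_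
        by_cases h1 : pr i n <;> by_cases h2 : pr j n <;> simp [h1, h2]
      rw [Finset.sum_congr rfl fun n _ => h1 n, Finset.sum_comm]
      refine Finset.sum_congr rfl fun i _ => ?_
      rw [Finset.sum_comm]
    rw [e1]
    have e2 : ∀ i ∈ C, ∑ j ∈ C, (∑ n ∈ S, if pr i n ∧ pr j n then u n else 0) ≤
        (1 + μ) * ∑ n ∈ S, if pr i n then u n else 0 := by
      intro i hi
      rw [← Finset.add_sum_erase _ _ hi, add_mul, one_mul]
      apply add_le_add
      · apply le_of_eq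
        refine Finset.sum_congr rfl fun n _ => ?_
        simp
      · exact hP i hi
    refine (Finset.sum_le_sum e2).trans ?_
    rw [← Finset.mul_sum, ← hs1]
  rw [← hs1]
  have h1 : s * s ≤ (1 + μ) * q * s := by
    have h2 := hCS.trans (mul_le_mul_of_nonneg_left hsq hq0)
    nlinarith
  rcases hs0.eq_or_lt with h0 | h0
  · rw [← h0]
    positivity
  · exact le_of_mul_le_mul_right h1 h0

/-- the counting argument with four classes -/
theorem count4 {k K : ℕ} (cl : Fin k → Fin 4) (hcl : ∀ g, (univ.filter (fun i => cl i = g)).card = K)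
    (S : Finset ℕ) (u : ℕ → ℝ) (hu : ∀ n ∈ S, 0 ≤ u n) (pr : Fin k → ℕ → Prop)
    [∀ i n, Decidable (pr i n)] (E : Finset ℕ) (Z ρ β Aₖ μ ε : ℝ) (hZ : 0 < Z) (hμ : 0 ≤ μ)
    (hS : ∑ n ∈ S, u n ≤ Z * Aₖ)
    (hF : ∀ i, Z * (ρ * β) ≤ ∑ n ∈ S, if pr i n then u n else 0)
    (hP : ∀ g : Fin 4, ∀ i ∈ univ.filter (fun i => cl i = g),
      ∑ j ∈ (univ.filter (fun i => cl i = g)).erase i,
        (∑ n ∈ S, if pr i n ∧ pr j n then u n else 0) ≤
      μ * ∑ n ∈ S, if pr i n then u n else 0)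
    (hE : ∀ n ∈ S, n ∉ E → (univ.filter (fun g : Fin 4 => ∃ i, cl i = g ∧ pr i n)).card ≤ 1)
    (hsm : 4 * ∑ n ∈ S.filter (fun n => n ∈ E), u n ≤ Z * (ε * Aₖ)) :
    4 * (K * (ρ * β)) ≤ (1 + μ) * ((1 + ε) * Aₖ) := by
  classical
  have h1 := count_exc cl S u hu pr 1 E hE
  have h2 : ∀ g : Fin 4, K * (Z * (ρ * β)) ≤
      (1 + μ) * ∑ n ∈ S, if ∃ i ∈ univ.filter (fun i => cl i = g), pr i n then u n else 0 := by
    intro g
    refine le_trans ?_ (class_rel S u hu (univ.filter (fun i => cl i = g)) pr μ hμ (hP g))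
    have h3 := Finset.card_nsmul_le_sum (univ.filter (fun i => cl i = g))
      (fun i => ∑ n ∈ S, if pr i n then u n else 0) (Z * (ρ * β)) (fun i _ => hF i)
    rw [hcl g, nsmul_eq_mul] at h3
    exact h3
  have h3 : 4 * (K * (Z * (ρ * β))) ≤ (1 + μ) * ∑ g : Fin 4,
      (∑ n ∈ S, if ∃ i ∈ univ.filter (fun i => cl i = g), pr i n then u n else 0) := by
    rw [Finset.mul_sum]
    have h4 := Finset.card_nsmul_le_sum (univ : Finset (Fin 4)) (fun g => (1 + μ) * ∑ n ∈ S,
      if ∃ i ∈ univ.filter (fun i => cl i = g), pr i n then u n else 0) (K * (Z * (ρ * β)))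
      (fun g _ => h2 g)
    rw [Finset.card_univ, Fintype.card_fin, nsmul_eq_mul] at h4
    exact_mod_cast h4
  have h4 : (∑ g : Fin 4,
      (∑ n ∈ S, if ∃ i ∈ univ.filter (fun i => cl i = g), pr i n then u n else 0)) ≤
      Z * ((1 + ε) * Aₖ) := by
    refine h1.trans ?_
    push_cast
    have : Z * ((1 + ε) * Aₖ) = Z * Aₖ + Z * (ε * Aₖ) := by ring
    rw [this]
    have h5 : (1 : ℝ) * ∑ n ∈ S, u n = ∑ n ∈ S, u n := one_mul _
    linarith
  have h5 := mul_le_mul_of_nonneg_left h4 (by linarith : (0 : ℝ) ≤ 1 + μ)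
  have h6 : Z * (4 * (K * (ρ * β))) ≤ Z * ((1 + μ) * ((1 + ε) * Aₖ)) := by
    calc Z * (4 * (K * (ρ * β))) = 4 * (K * (Z * (ρ * β))) := by ring
      _ ≤ _ := h3.trans h5
      _ = _ := by ring
  exact le_of_mul_le_mul_left h6 hZ

end Pool.Agent.W25.UB
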