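import Mathlib
import Pool.Agent.W25.UB.Cnt

/-! Project UB: the counting argument, any number of classes. -/

set_option autoImplicit false

namespace Pool.Agent.W25.UB

open Finset
open Pool.Agent.H732R3.CMQ

/-- the counting argument with `T` classes -/
theorem countT {k K T : ℕ} (M : ℕ) (cl : Fin k → Fin T) (hcl : ∀ g, (univ.filter (fun i => cl i = g)).card = K)
    (S : Finset ℕ) (u : ℕ → ℝ) (hu : ∀ n ∈ S, 0 ≤ u n) (pr : Fin k → ℕ → Prop)
    [∀ i n, Decidable (pr i n)] (E : Finset ℕ) (Z ρ β Aₖ μ ε : ℝ) (hZ : 0 < Z) (hμ : 0 ≤ μ)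
    (hS : ∑ n ∈ S, u n ≤ Z * Aₖ)
    (hF : ∀ i, Z * (ρ * β) ≤ ∑ n ∈ S, if pr i n then u n else 0)
    (hP : ∀ g : Fin T, ∀ i ∈ univ.filter (fun i => cl i = g),
      ∑ j ∈ (univ.filter (fun i => cl i = g)).erase i,
        (∑ n ∈ S, if pr i n ∧ pr j n then u n else 0) ≤
      μ * ∑ n ∈ S, if pr i n then u n else 0)
    (hE : ∀ n ∈ S, n ∉ E → (univ.filter (fun g : Fin T => ∃ i, cl i = g ∧ pr i n)).card ≤ M)
    (hsm : T * ∑ n ∈ S.filter (fun n => n ∈ E), u n ≤ Z * (ε * Aₖ)) :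
    T * (K * (ρ * β)) ≤ (1 + μ) * ((M + ε) * Aₖ) := by
  classical
  have h1 := count_exc cl S u hu pr M E hE
  have h2 : ∀ g : Fin T, K * (Z * (ρ * β)) ≤
      (1 + μ) * ∑ n ∈ S, if ∃ i ∈ univ.filter (fun i => cl i = g), pr i n then u n else 0 := by
    intro g
    refine le_trans ?_ (class_rel S u hu (univ.filter (fun i => cl i = g)) pr μ hμ (hP g))
    have h3 := Finset.card_nsmul_le_sum (univ.filter (fun i => cl i = g))
      (fun i => ∑ n ∈ S, if pr i n then u n else 0) (Z * (ρ * β)) (fun i _ => hF i)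
    rw [hcl g, nsmul_eq_mul] at h3
    exact h3
  have h3 : T * (K * (Z * (ρ * β))) ≤ (1 + μ) * ∑ g : Fin T,
      (∑ n ∈ S, if ∃ i ∈ univ.filter (fun i => cl i = g), pr i n then u n else 0) := by
    rw [Finset.mul_sum]
    have h4 := Finset.card_nsmul_le_sum (univ : Finset (Fin T)) (fun g => (1 + μ) * ∑ n ∈ S,
      if ∃ i ∈ univ.filter (fun i => cl i = g), pr i n then u n else 0) (K * (Z * (ρ * β)))
      (fun g _ => h2 g)
    rw [Finset.card_univ, Fintype.card_fin, nsmul_eq_mul] at h4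
    exact_mod_cast h4
  have h4 : (∑ g : Fin T,
      (∑ n ∈ S, if ∃ i ∈ univ.filter (fun i => cl i = g), pr i n then u n else 0)) ≤
      Z * ((M + ε) * Aₖ) := by
    refine h1.trans ?_
    have : Z * ((M + ε) * Aₖ) = M * (Z * Aₖ) + Z * (ε * Aₖ) := by ring
    rw [this]
    have h5 : (M : ℝ) * ∑ n ∈ S, u n ≤ M * (Z * Aₖ) :=
      mul_le_mul_of_nonneg_left hS (Nat.cast_nonneg _)
    linarith
  have h5 := mul_le_mul_of_nonneg_left h4 (by linarith : (0 : ℝ) ≤ 1 + μ)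
  have h6 : Z * (T * (K * (ρ * β))) ≤ Z * ((1 + μ) * ((M + ε) * Aₖ)) := by
    calc Z * (T * (K * (ρ * β))) = T * (K * (Z * (ρ * β))) := by ring
      _ ≤ _ := h3.trans h5
      _ = _ := by ring
  exact le_of_mul_le_mul_left h6 hZ

end Pool.Agent.W25.UB
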