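import Mathlib
import Pool.Agent.W25.UN.Stm2
import Pool.Agent.W23.PL.Defs

/-! Project UB (helper25): coloured Maynard-Tao for the forms `N ± n + h`, uniformly in `N`, with the
pair factor below 4.  Statements of the independent parts. -/

set_option autoImplicit false

namespace Pool.Agent.W25.UB

open Finset Filter Topology
open Pool.Agent.W25.UN
open Pool.Agent.H362R2.CM (IP prP yP)
open Pool.Agent.H410R2 (SS BD mulc cw)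

/-! ### expandable functions on the integers -/

/-- finite combination of indicators of residue classes modulo odd squarefree `q ≤ R`, all of whose
prime factors satisfy `S`; `m` is the mean value -/
def Ex (S : ℕ → Prop) (Y R : ℝ) (Φ : ℤ → ℝ) (m : ℝ) : Prop :=
  ∃ (s : Finset (ℕ × ℤ)) (φ : ℕ × ℤ → ℝ),
    (∀ n : ℤ, Φ n = ∑ x ∈ s, φ x * (if (x.1 : ℤ) ∣ n - x.2 then 1 else 0)) ∧
    ∑ x ∈ s, |φ x| ≤ Y ∧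
    (∀ x ∈ s, 1 ≤ x.1 ∧ (x.1 : ℝ) ≤ R ∧ Odd x.1 ∧ Squarefree x.1 ∧
      ∀ p : ℕ, p.Prime → p ∣ x.1 → S p) ∧
    m = ∑ x ∈ s, φ x / x.1

/-- (EXM) calculus of expandable functions -/
def St_EXM : Prop :=
  (∀ (S S' : ℕ → Prop) (Y Y' R R' : ℝ) (Φ Φ' : ℤ → ℝ) (m m' : ℝ), Ex S Y R Φ m →
    Ex S' Y' R' Φ' m' → (∀ p, S p → ¬ S' p) → 0 ≤ R → 0 ≤ R' →
    Ex (fun p => S p ∨ S' p) (Y * Y') (R * R') (fun n => Φ n * Φ' n) (m * m')) ∧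
  (∀ (S : ℕ → Prop) (I : Type) (T : Finset I) (a Y : I → ℝ) (R : ℝ) (Φ : I → ℤ → ℝ) (m : I → ℝ),
    (∀ i ∈ T, Ex S (Y i) R (Φ i) (m i)) →
    Ex S (∑ i ∈ T, |a i| * Y i) R (fun n => ∑ i ∈ T, a i * Φ i n) (∑ i ∈ T, a i * m i)) ∧
  (∀ (S S' : ℕ → Prop) (Y Y' R R' : ℝ) (Φ : ℤ → ℝ) (m : ℝ), Ex S Y R Φ m → (∀ p, S p → S' p) →
    Y ≤ Y' → R ≤ R' → Ex S' Y' R' Φ m) ∧
  (∀ (S : ℕ → Prop) (q : ℕ) (b : ℤ), 1 ≤ q → Odd q → Squarefree q →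
    (∀ p : ℕ, p.Prime → p ∣ q → S p) →
    Ex S 1 q (fun n => if (q : ℤ) ∣ n - b then 1 else 0) (1 / q)) ∧
  (∀ (S S' : ℕ → Prop) (Y Y' R R' : ℝ) (Φ : ℤ → ℝ) (m m' : ℝ), Ex S Y R Φ m → Ex S' Y' R' Φ m' →
    m = m') ∧
  (∀ (S : ℕ → Prop) (Y R : ℝ) (Φ : ℤ → ℝ) (m : ℝ), Ex S Y R Φ m → (∀ n, 0 ≤ Φ n) → 0 ≤ m)

/-- (GAU) Gaussian sums of expandable functions -/
def St_GAU : Prop := ∀ ε : ℝ, 0 < ε → ∃ X₀ : ℕ, ∀ X : ℕ, X₀ ≤ X → ∀ (S : ℕ → Prop) (Y R : ℝ)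
  (Φ : ℤ → ℝ) (m : ℝ), Ex S Y R Φ m → R ≤ (X : ℝ) ^ (1 - ε) →
  Summable (fun n : ℤ => Pool.Agent.H442R2.KF.Wt X n * Φ n) ∧
  |∑' n : ℤ, Pool.Agent.H442R2.KF.Wt X n * Φ n - X * m| ≤ Y / (X : ℝ) ^ 4

/-- divisor sum -/
noncomputable def ds (c : ℕ → ℝ) (Z : ℕ) (m : ℤ) : ℝ :=
  ∑ d ∈ Icc 1 Z, c d * (if (d : ℤ) ∣ m then 1 else 0)

/-- coefficients on rough numbers up to `Z`, with `1` allowed, prime factors outside `Cl` -/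
structure RC (Cl : ℕ → Prop) (y : ℝ) (Z : ℕ) (c : ℕ → ℝ) : Prop where
  bd : ∀ d, |c d| ≤ 1
  supp : ∀ d, c d ≠ 0 → 1 ≤ d ∧ d ≤ Z ∧ ∀ p : ℕ, p.Prime → p ∣ d → y < (p : ℝ) ∧ ¬ Cl p

/-- (R2) product of two rough divisor sums beyond the level one half -/
def St_R2 : Prop := ∃ ε₀ η : ℝ, 0 < ε₀ ∧ ε₀ ≤ 1 / 100 ∧ 0 < η ∧ η ≤ 1 / 100 ∧
  ∀ ε₁ : ℝ, 0 < ε₁ → ε₁ ≤ 1 → ∃ η₁ C : ℝ, 0 < η₁ ∧ 0 < C ∧ ∀ (X Z : ℕ), 2 ≤ X →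
    (Z : ℝ) ≤ (X : ℝ) ^ (1 / 2 + ε₀ / 4) → ∀ (S Cl : ℕ → Prop) (Y R y : ℝ) (Φ : ℤ → ℝ) (m : ℝ),
    (X : ℝ) ^ ε₁ ≤ y → (∀ p, S p → (p : ℝ) ≤ y) → Ex S Y R Φ m → R ≤ (X : ℝ) ^ (ε₀ / 10) →
    Y ≤ (X : ℝ) ^ η → |m| ≤ 1 → ∀ (a a' : ℤ), |(a : ℝ)| ≤ X - (X : ℝ) ^ (1 / 2 : ℝ) →
    |(a' : ℝ)| ≤ X - (X : ℝ) ^ (1 / 2 : ℝ) → a ≠ a' →
    (∀ p : ℕ, p.Prime → y < (p : ℝ) → (p : ℤ) ∣ a - a' → Cl p) →
    ∀ c c' : ℕ → ℝ, RC Cl y Z c → RC Cl y Z c' →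
    |∑' n : ℤ, Pool.Agent.H442R2.KF.Wt X n * (Φ n * (ds c Z (n - a) * ds c' Z (n - a'))) -
      X * (m * ((∑ d ∈ Icc 1 Z, c d / d) * (∑ d ∈ Icc 1 Z, c' d / d)))| ≤
      C * (X : ℝ) ^ (1 - η₁)

/-! ### presieve -/

/-- (BPS) Brun's pure sieve for the presieve, as an expandable majorant -/
def St_BPS : Prop := ∀ (k B C : ℕ) (η : ℝ), 0 < η → ∃ N₀ : ℕ, ∀ N : ℕ, N₀ ≤ N →
  ∀ (u w : Option (Fin k) → ℤ) (D D' : ℕ), 2 * (k + 1) ≤ D → D ≤ D' →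
  (D' : ℝ) ≤ (Real.log N) ^ B → (∀ p : ℕ, p.Prime → D < p → ∀ j, ¬ (p : ℤ) ∣ u j) →
  ∃ (Tr : ℤ → ℝ) (t : ℝ), Ex (fun p => D < p ∧ p ≤ D') ((N : ℝ) ^ η) ((N : ℝ) ^ η) Tr t ∧
    (∀ n, 0 ≤ Tr n) ∧
    (∀ n : ℤ, (∀ p : ℕ, p.Prime → D < p → p ≤ D' → ∀ j, ¬ (p : ℤ) ∣ u j * n + w j) → 1 ≤ Tr n) ∧
    |t - ∏ p ∈ (Icc (D + 1) D').filter Nat.Prime, (1 - ((Om u w p).card : ℝ) / p)| ≤
      1 / (Real.log N) ^ C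

/-- (FLC) the fundamental lemma on the primes of `P1` outside a small set -/
def St_FLC : Prop := ∀ η₀ δ : ℝ, 0 < η₀ → 0 < δ → ∃ εs : ℝ, 0 < εs ∧ ∀ ε₁ : ℝ, 0 < ε₁ → ε₁ ≤ εs →
  ∀ B : ℕ, 6 ≤ B → ∃ N₀ : ℕ, ∀ N : ℕ, N₀ ≤ N → ∀ D : ℕ, D = ⌊(N : ℝ) ^ η₀⌋₊ →
  ∀ Cl : Finset ℕ, (Cl.card : ℝ) ≤ (Real.log N) ^ 2 →
  ∃ th dl : ℕ → ℝ,
    Pool.Agent.W23.PL.DW (Pool.Agent.W23.PL.P1 N B ε₁ \ Cl) D (Real.log N) th ∧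
    Pool.Agent.W23.PL.DW (Pool.Agent.W23.PL.P1 N B ε₁ \ Cl) D (Real.log N) dl ∧
    (∀ m : ℤ, Pool.Agent.W23.PL.xx (Pool.Agent.W23.PL.P1 N B ε₁ \ Cl) m ≤
        Pool.Agent.W23.PL.Ev th D m ∧
      Pool.Agent.W23.PL.Ev th D m - Pool.Agent.W23.PL.xx (Pool.Agent.W23.PL.P1 N B ε₁ \ Cl) m ≤
        Pool.Agent.W23.PL.Ev dl D m) ∧
    |Pool.Agent.W23.PL.hat th D - Pool.Agent.W23.PL.VV (Pool.Agent.W23.PL.P1 N B ε₁ \ Cl)| ≤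
      δ * Pool.Agent.W23.PL.VV (Pool.Agent.W23.PL.P1 N B ε₁ \ Cl) ∧
    |Pool.Agent.W23.PL.hat dl D| ≤ δ * Pool.Agent.W23.PL.VV (Pool.Agent.W23.PL.P1 N B ε₁ \ Cl)

/-! ### the sieve weights on the integers -/

section
variable {k : ℕ}

/-- local basis function, integer argument -/
noncomputable def hz (u w : Option (Fin k) → ℤ) (p : ℕ) (n : ℤ) : Option (Option (Fin k)) → ℝ
  | none => 1
  | some j => (if (p : ℤ) ∣ u j * n + w j then (p : ℝ) else 0) - 1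

/-- sieve weight, integer argument -/
noncomputable def FZ (u w : Option (Fin k) → ℤ) (P : Finset ℕ)
    (c : (IP P → Option (Option (Fin k))) → ℝ) (n : ℤ) : ℝ :=
  ∑ σ, c σ * ∏ t : IP P, hz u w (prP P t) n (σ t)

/-- the value of the local basis functions at a root of another form -/
noncomputable def sg : Option (Option (Fin k)) → ℝ
  | none => 1
  | some _ => -1

/-- the model form when the primes dividing `m` divide another form -/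
noncomputable def Q1g (P : Finset ℕ) (c : (IP P → Option (Option (Fin k))) → ℝ) (m : ℕ) : ℝ :=
  ∑ σ, ∑ τ, c σ * c τ * ∏ t : IP P, (if prP P t ∣ m then sg (σ t) * sg (τ t) else
    g1 (prP P t) (σ t) (τ t))

/-- good primes for the system -/
def Gd (u w : Option (Fin k) → ℤ) (p : ℕ) : Prop :=
  p.Prime ∧ 2 < p ∧ (∀ j, ¬ (p : ℤ) ∣ u j) ∧ ∀ j l, j ≠ l → ¬ (p : ℤ) ∣ u j * w l - u l * w j

end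

/-- (FT1) square of a sieve weight at multiples of `e` and `e'` -/
def St_FT1 : Prop := ∀ (k : ℕ) (u w : Option (Fin k) → ℤ) (P : Finset ℕ)
  (c : (IP P → Option (Option (Fin k))) → ℝ) (j j' : Option (Fin k)) (e e' : ℕ) (Rc : ℝ)
  (S : ℕ → Prop), j ≠ j' → (∀ p ∈ P, Gd u w p ∧ S p) → Squarefree e → Squarefree e' →
  (∀ p : ℕ, p.Prime → p ∣ e * e' → Gd u w p ∧ S p) →
  (∀ σ, c σ ≠ 0 → Pool.Agent.H410R2.lgt (prP P) σ ≤ Rc) →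
  (e ≠ 1 → ∀ σ, c σ ≠ 0 → ∀ t, σ t ≠ some j) → (e' ≠ 1 → ∀ σ, c σ ≠ 0 → ∀ t, σ t ≠ some j') →
  (¬ Nat.Coprime e e' → ∀ n : ℤ, ¬ ((e : ℤ) ∣ u j * n + w j ∧ (e' : ℤ) ∣ u j' * n + w j')) ∧
  (Nat.Coprime e e' → Ex S ((∑ σ, |c σ| * mulc (prP P) (fun p => (p : ℝ) + 1) σ) ^ 2)
    (Real.exp (2 * Rc) * (e * e'))
    (fun n => FZ u w P c n ^ 2 * ((if (e : ℤ) ∣ u j * n + w j then 1 else 0) *
      (if (e' : ℤ) ∣ u j' * n + w j' then 1 else 0)))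
    (1 / ((e : ℝ) * e') * Q1g P c (e * e')))

/-- (FT2) the interaction is small -/
def St_FT2 : Prop := ∀ (k : ℕ) (P : Finset ℕ) (c : (IP P → Option (Option (Fin k))) → ℝ) (m : ℕ)
  (Cc : ℝ), (∀ p ∈ P, p.Prime ∧ 2 < p) → 0 ≤ Cc →
  (∀ σ, |c σ| ≤ Cc * mulc (prP P) (fun p => 1 / ((p : ℝ) - 1)) σ) →
  |Q1g P c m - Q1f (prP P) c| ≤ Cc ^ 2 *
    ((∑ p ∈ P.filter (fun p => p ∣ m), 9 * ((k : ℝ) + 2) ^ 2 / ((p : ℝ) - 1)) *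
      ∏ p ∈ P, (1 + 9 * ((k : ℝ) + 2) ^ 2 / ((p : ℝ) - 1)))

/-- (FT3) square of a sieve weight times two upper bound sieves -/
def St_FT3 : Prop := ∀ k : ℕ, ∃ E : ℕ, ∃ N₀ : ℕ, ∀ N : ℕ, N₀ ≤ N → ∀ (u w : Option (Fin k) → ℤ)
  (P Pt : Finset ℕ) (c : (IP P → Option (Option (Fin k))) → ℝ) (j j' : Option (Fin k))
  (Rc Cc D' : ℝ) (D : ℕ) (th th' : ℕ → ℝ), j ≠ j' → 2 ≤ D' →
  (∀ p ∈ P ∪ Pt, Gd u w p ∧ D' ≤ p ∧ p ≤ N) → 1 ≤ Cc → D ≤ N →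
  (∀ σ, |c σ| ≤ Cc * mulc (prP P) (fun p => 1 / ((p : ℝ) - 1)) σ) →
  (∀ σ, c σ ≠ 0 → Pool.Agent.H410R2.lgt (prP P) σ ≤ Rc) →
  Pool.Agent.W23.PL.DW Pt D (Real.log N) th → Pool.Agent.W23.PL.DW Pt D (Real.log N) th' →
  ((∀ e, e ≠ 1 → th e = 0) ∨ ∀ σ, c σ ≠ 0 → ∀ t, σ t ≠ some j) →
  ((∀ e, e ≠ 1 → th' e = 0) ∨ ∀ σ, c σ ≠ 0 → ∀ t, σ t ≠ some j') →
  ∃ m : ℝ, Ex (fun p => p ∈ P ∪ Pt) (Cc ^ 2 * Real.exp (2 * Rc) * D ^ 2 * (Real.log N) ^ E)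
      (Real.exp (2 * Rc) * D ^ 2)
      (fun n => FZ u w P c n ^ 2 * (Pool.Agent.W23.PL.Ev th D (u j * n + w j) *
        Pool.Agent.W23.PL.Ev th' D (u j' * n + w j'))) m ∧
    |m - Pool.Agent.W23.PL.hat th D * Pool.Agent.W23.PL.hat th' D * Q1f (prP P) c| ≤
      Cc ^ 2 * (Real.log N) ^ E / D'

/-! ### rough Selberg weights -/

open Classical in
/-- squarefree numbers up to `z` composed of primes of `P` -/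
noncomputable def sq (P : Finset ℕ) (z : ℕ) : Finset ℕ :=
  (Icc 1 z).filter (fun d => Squarefree d ∧ ∀ p : ℕ, p.Prime → p ∣ d → p ∈ P)

/-- `∑ 1/φ(d)` -/
noncomputable def GG (P : Finset ℕ) (z : ℕ) : ℝ := ∑ d ∈ sq P z, 1 / (Nat.totient d : ℝ)

/-- (SEL) Selberg weights on the primes of `P` -/
def St_SEL : Prop := ∀ (P : Finset ℕ) (z : ℕ), 1 ≤ z → (∀ p ∈ P, p.Prime) → ∃ c : ℕ → ℝ,
  (∀ m : ℤ, 0 ≤ ds c (z ^ 2) m) ∧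
  (∀ m : ℤ, (∀ p ∈ P, ¬ (p : ℤ) ∣ m) → ds c (z ^ 2) m = 1) ∧
  (∀ m : ℤ, ds c (z ^ 2) m ≤ ((sq P z).filter (fun d : ℕ => (d : ℤ) ∣ m)).card ^ 2) ∧
  (∀ d, |c d| ≤ 3 ^ d.primeFactors.card) ∧ (∀ d, c d ≠ 0 → d ∈ sq P (z ^ 2)) ∧
  ∑ d ∈ Icc 1 (z ^ 2), c d / d = 1 / GG P z

/-- (VG) comparison of the two sieves -/
def St_VG : Prop := ∀ (P P' : Finset ℕ) (z : ℕ), 1 ≤ z → (∀ p ∈ P ∪ P', p.Prime) → Disjoint P P' →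
  Pool.Agent.W23.PL.VV P' / GG P z ≤
    1 / SS (P ∪ P') Pool.Agent.H410R2.h0 1 (Real.log z) (fun _ => 1) ∧
  0 < SS (P ∪ P') Pool.Agent.H410R2.h0 1 (Real.log z) (fun _ => 1)

end Pool.Agent.W25.UB
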