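import Mathlib
import Pool.Agent.W25.UB.Stm

/-! Project UB (helper25): the fundamental lemma with a small error. -/

set_option autoImplicit false

namespace Pool.Agent.W25.UB

open Finset Filter Topology

/-- (FLC2) the fundamental lemma on the primes of `P1` outside a small set, error `ε₁ ^ 3` -/
def St_FLC2 : Prop := ∀ η₀ : ℝ, 0 < η₀ → ∃ εs : ℝ, 0 < εs ∧ ∀ ε₁ : ℝ, 0 < ε₁ → ε₁ ≤ εs →
  ∀ B : ℕ, 6 ≤ B → ∃ N₀ : ℕ, ∀ N : ℕ, N₀ ≤ N → ∀ D : ℕ, D = ⌊(N : ℝ) ^ η₀⌋₊ →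
  ∀ Cl : Finset ℕ, (Cl.card : ℝ) ≤ (Real.log N) ^ 2 →
  ∃ th dl : ℕ → ℝ,
    Pool.Agent.W23.PL.DW (Pool.Agent.W23.PL.P1 N B ε₁ \ Cl) D (Real.log N) th ∧
    Pool.Agent.W23.PL.DW (Pool.Agent.W23.PL.P1 N B ε₁ \ Cl) D (Real.log N) dl ∧
    (∀ m : ℤ, Pool.Agent.W23.PL.xx (Pool.Agent.W23.PL.P1 N B ε₁ \ Cl) m ≤
        Pool.Agent.W23.PL.Ev th D m ∧
      Pool.Agent.W23.PL.Ev th D m - Pool.Agent.W23.PL.xx (Pool.Agent.W23.PL.P1 N B ε₁ \ Cl) m ≤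
        Pool.Agent.W23.PL.Ev dl D m) ∧
    |Pool.Agent.W23.PL.hat th D - Pool.Agent.W23.PL.VV (Pool.Agent.W23.PL.P1 N B ε₁ \ Cl)| ≤
      ε₁ ^ 3 * Pool.Agent.W23.PL.VV (Pool.Agent.W23.PL.P1 N B ε₁ \ Cl) ∧
    |Pool.Agent.W23.PL.hat dl D| ≤ ε₁ ^ 3 * Pool.Agent.W23.PL.VV (Pool.Agent.W23.PL.P1 N B ε₁ \ Cl)

end Pool.Agent.W25.UB
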