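import Mathlib
import Pool.Agent.W25.UB.StmF
import Pool.Agent.W25.UN.Three

/-! Project UB (helper25): second wave of statements. -/

set_option autoImplicit false

namespace Pool.Agent.W25.UB

open Finset Filter Topology
open Pool.Agent.H410R2 hiding GP GP_prof GP_cut_some GP_cut_none GP_lip gg_pos gg_le_one gg_anti ee_bound ee_nonneg gg_lip LB_gg LB_ee Sums exists_sums yx wx wxi Br sum_GP_none sum_GP_some sum_GP_some_ee sum_GP_some_one sum_GPr_none sum_GPr_some S1_final QI_final S2_final w_abs_le wmax gg ee I1 I2 IE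
open Pool.Agent.H361R2.GM
open Pool.Agent.H362R2.CM
open Pool.Agent.W25.UN

/-- end of the presieve: the primes above it are the primes `≥ (log X)^B` -/
noncomputable def DB (X B : ℕ) : ℕ := ⌈(Real.log X) ^ B⌉₊ - 1

/-- the sieving primes of the weights -/
noncomputable def PB {k : ℕ} (α h : Fin k → ℤ) (N B : ℕ) (ρ₁ : ℝ) : Finset ℕ :=
  (Icc (DB (2 * N) B + 1) ⌊Real.exp (ρ₁ * Real.log N)⌋₊).filter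
    (fun p => p.Prime ∧ p ∉ CL (uB α) (wB h N))

/-! ### one-dimensional sums -/

noncomputable def hB (a : ℕ) (p : ℕ) : ℝ := 1 / ((p : ℝ) - 1) * ((p : ℝ) / ((p : ℝ) - 1)) ^ a
noncomputable def gB (a : ℕ) (p : ℕ) : ℝ :=
  (p : ℝ) / ((p : ℝ) - 1) ^ 2 * ((p : ℝ) / ((p : ℝ) - 1)) ^ (2 * a)

/-- one-dimensional asymptotics -/
structure SumsN (Q : SPar) (D' : ℕ) (ε : ℝ) (K : ℕ) (L : ℝ) (P : Finset ℕ) : Prop where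
  u1 : ∀ a ≤ 3, SS P (gB a) 1 (L / 48) (fun t => (1 - t) ^ 2) ≤ BD D' * (L / 48) * (1 / 3 + ε)
  u2 : ∀ a ≤ 3, SS P (gB a) Q.c L (fun t => Q.gg t ^ 2) ≤ BD D' * L * (Q.I2 + ε)
  u3 : ∀ a ≤ 3, SS P (gB a) 1 L (fun _ => 1) ≤ BD D' * L * (1 + ε)
  u4 : ∀ a ≤ 3, SS P (hB a) Q.c L Q.gg ≤ BD D' * L * (Q.I1 + ε)
  u5 : SS P h0 1 L (fun _ => 1) ≤ BD D' * L * (1 + ε)
  l1 : BD D' * (L / 48) * (1 / 3 - ε) ≤ SS P (hb K) 1 (L / 48) (fun t => (1 - t) ^ 2)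
  l2 : BD D' * L * (Q.I2 - ε) ≤ SS P (hb K) Q.c L (fun t => Q.gg t ^ 2)
  l3 : BD D' * L * (1 - ε) ≤ SS P (hb K) 1 L (fun _ => 1)
  l4 : BD D' * L * (Q.I1 - ε) ≤ SS P h0 Q.c L Q.gg
  l5 : BD D' * L * (1 - ε) ≤ SS P h0 1 L (fun _ => 1)
  e1 : SS P (hb K) 1 (L / 48) (fun t => (1 - t) ^ 2) ≤ BD D' * (L / 48) * (1 / 3 + ε)
  e2 : SS P (hb K) Q.c L (fun t => Q.gg t ^ 2 * Q.ee t) ≤ BD D' * L * (Q.IE + ε)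
  e3 : SS P (hb K) 1 L (fun _ => 1) ≤ BD D' * L * (1 + ε)

/-- (SUM) all one-dimensional sums -/
def St_SUM : Prop := ∀ (Q : SPar) (K : ℕ) (ε ρ ρ₁ C' : ℝ) (B : ℕ), 0 < ε → 0 < ρ → ρ < ρ₁ →
  3 ≤ B → ∀ᶠ N : ℕ in atTop, ∀ (Cl P : Finset ℕ), (Cl.card : ℝ) ≤ C' * Real.log N →
    (∀ p ∈ P, p.Prime ∧ DB (2 * N) B < p) →
    ((∀ p : ℕ, p.Prime → DB (2 * N) B < p → (p : ℝ) ≤ Real.exp (ρ₁ * Real.log N) → p ∉ Cl →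
        p ∈ P) →
      SumsN Q (DB (2 * N) B) ε K (ρ * Real.log N) P ∧
      Sums Q (DB (2 * N) B) ε K (ρ * Real.log N) (ρ * Real.log N / 48) P) ∧
    (∀ z : ℕ, (N : ℝ) ^ (1 / 8 : ℝ) ≤ z → z ≤ 2 * N →
      (∀ p : ℕ, p.Prime → DB (2 * N) B < p → p ≤ z → p ∉ Cl → p ∈ P) →
      BD (DB (2 * N) B) * Real.log z * (1 - ε) ≤ SS P h0 1 (Real.log z) (fun _ => 1))

/-! ### modified weights -/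

/-- (NWE) the modified weights have the same sieve weight where the form is free of sieve primes -/
def St_NWE : Prop := ∀ (k : ℕ) (u w : Option (Fin k) → ℤ) (P : Finset ℕ),
  (∀ p ∈ P, 2 ≤ p) →
  (∀ (j : Option (Fin k)) (Λ : ℝ) (y : (IP P → Option (Option (Fin k))) → ℝ) (n : ℤ), 0 ≤ Λ →
    (∀ p ∈ P, ¬ (p : ℤ) ∣ u j * n + w j) →
    FZ u w P (cw (prP P) (ymod j (prP P) (uj j (prP P) Λ) y)) n = FZ u w P (cw (prP P) y) n) ∧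
  (∀ (Q : SPar) (L : ℝ) (n : ℕ), wZ Q u w P L n = FZ u w P (cw (prP P) (yP Q k P L)) n)

section
variable {k : ℕ}

/-- Selberg weights in the coordinate `i` -/
noncomputable def zA (Q : SPar) (k : ℕ) (P : Finset ℕ) (L : ℝ) (i : Fin k) :
    (IP P → Option (Option (Fin k))) → ℝ := zP Q k P L L i

/-- and the coordinate `j` removed -/
noncomputable def zB (Q : SPar) (k : ℕ) (P : Finset ℕ) (L : ℝ) (i j : Fin k) :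
    (IP P → Option (Option (Fin k))) → ℝ :=
  ymod (some j) (prP P) (uj (some j) (prP P) 0) (zA Q k P L i)

/-- and the coordinate `l` removed -/
noncomputable def zC (Q : SPar) (k : ℕ) (P : Finset ℕ) (L : ℝ) (i j l : Fin k) :
    (IP P → Option (Option (Fin k))) → ℝ :=
  ymod (some l) (prP P) (uj (some l) (prP P) 0) (zB Q k P L i j)

end

/-- (NWU) supports, sizes, upper bounds -/
def St_NWU : Prop := ∀ (k : ℕ) (Q : SPar) (P : Finset ℕ) (L : ℝ) (i j l : Fin k), i ≠ j → i ≠ l →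
  j ≠ l → 0 < L → (∀ p ∈ P, p.Prime) →
  (∀ σ, zA Q k P L i σ ≠ 0 → lgt (prP P) σ ≤ 3 * L) ∧
  (∀ σ, zB Q k P L i j σ ≠ 0 → lgt (prP P) σ ≤ 3 * L ∧ ∀ t, σ t ≠ some (some j)) ∧
  (∀ σ, zC Q k P L i j l σ ≠ 0 → lgt (prP P) σ ≤ 3 * L ∧ (∀ t, σ t ≠ some (some j)) ∧
    ∀ t, σ t ≠ some (some l)) ∧
  (∀ σ, |zA Q k P L i σ| ≤ (∏ t : IP P, (1 + 4 / (prP P t : ℝ))) ^ 6 ∧
    |zB Q k P L i j σ| ≤ (∏ t : IP P, (1 + 4 / (prP P t : ℝ))) ^ 6 ∧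
    |zC Q k P L i j l σ| ≤ (∏ t : IP P, (1 + 4 / (prP P t : ℝ))) ^ 6) ∧
  ∀ (D' : ℕ) (ε b : ℝ) (Lf : Option (Fin k) → ℕ → ℕ),
    SieveData (IP P) (Option (Fin k)) (prP P) Lf 1 → 0 < ε → ε < 1 / 3 → 0 < Q.I1 → 0 < Q.I2 →
    0 < BD D' → b = BD D' * L → SumsN Q D' ε (k + 1) L P →
    (0 ≤ Q1f (prP P) (cw (prP P) (zA Q k P L i)) ∧
      Q1f (prP P) (cw (prP P) (zA Q k P L i)) ≤
      (b * (Q.I1 + ε)) ^ 2 / (b * (1 - ε)) ^ 2 * (b * (1 + ε)) * (b / 48 * (1 / 3 + ε)) *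
        (b * (Q.I2 + ε)) ^ (k - 1)) ∧
    (0 ≤ Q1f (prP P) (cw (prP P) (zB Q k P L i j)) ∧
      Q1f (prP P) (cw (prP P) (zB Q k P L i j)) ≤
      (b * (Q.I1 + ε)) ^ 4 / (b * (1 - ε)) ^ 2 * (b * (1 + ε)) * (b / 48 * (1 / 3 + ε)) *
        (b * (Q.I2 + ε)) ^ (k - 2)) ∧
    (0 ≤ Q1f (prP P) (cw (prP P) (zC Q k P L i j l)) ∧
      Q1f (prP P) (cw (prP P) (zC Q k P L i j l)) ≤
      (b * (Q.I1 + ε)) ^ 6 / (b * (1 - ε)) ^ 2 * (b * (1 + ε)) * (b / 48 * (1 / 3 + ε)) *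
        (b * (Q.I2 + ε)) ^ (k - 3))

/-- the bracket of the lower bound -/
noncomputable def Br2 (Q : SPar) (k : ℕ) (ε : ℝ) : ℝ :=
  (1 - ε) * ((1 / 3 - ε) * (Q.I2 - ε) ^ (k - 2)) -
    Real.exp (-(Q.lam * (1 - 2 * Q.c))) * ((1 / 3 + ε) * (Q.IE + ε) ^ (k - 2))

/-- (NWL) lower bound -/
def St_NWL : Prop := ∀ (k : ℕ) (Q : SPar) (ε : ℝ), 0 < ε → ε < 1 / 3 → ε < Q.I1 → ε < Q.I2 →
  0 < Br2 Q k ε → ∃ L₀ : ℝ, ∀ (L b : ℝ) (D' : ℕ) (P : Finset ℕ) (i j : Fin k)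
    (Lf : Option (Fin k) → ℕ → ℕ), SieveData (IP P) (Option (Fin k)) (prP P) Lf 1 →
    L₀ ≤ L → L ^ 2 ≤ (D' : ℝ) → (∀ p ∈ P, p.Prime ∧ D' < p) → 0 < BD D' → b = BD D' * L →
    SumsN Q D' ε (k + 1) L P → i ≠ j →
    (1 - ε) ^ 4 * (b * (Q.I1 - ε)) ^ 4 / (b * (1 + ε)) ^ 2 * (b * (1 - ε)) *
      (b / 48 * b ^ (k - 2) * Br2 Q k ε) ≤ Q1f (prP P) (cw (prP P) (zB Q k P L i j))

/-! ### the master formula -/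

/-- (R2) at fixed `ε₀, η` -/
def R2At (ε₀ η : ℝ) : Prop :=
  ∀ ε₁ : ℝ, 0 < ε₁ → ε₁ ≤ 1 → ∃ η₁ C : ℝ, 0 < η₁ ∧ 0 < C ∧ ∀ (X Z : ℕ), 2 ≤ X →
    (Z : ℝ) ≤ (X : ℝ) ^ (1 / 2 + ε₀ / 4) → ∀ (S Cl : ℕ → Prop) (Y R y : ℝ) (Φ : ℤ → ℝ) (m : ℝ),
    (X : ℝ) ^ ε₁ ≤ y → (∀ p, S p → (p : ℝ) ≤ y) → Ex S Y R Φ m → R ≤ (X : ℝ) ^ (ε₀ / 10) →
    Y ≤ (X : ℝ) ^ η → |m| ≤ 1 → ∀ (a a' : ℤ), |(a : ℝ)| ≤ X - (X : ℝ) ^ (1 / 2 : ℝ) →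
    |(a' : ℝ)| ≤ X - (X : ℝ) ^ (1 / 2 : ℝ) → a ≠ a' →
    (∀ p : ℕ, p.Prime → y < (p : ℝ) → (p : ℤ) ∣ a - a' → Cl p) →
    ∀ c c' : ℕ → ℝ, RC Cl y Z c → RC Cl y Z c' →
    |∑' n : ℤ, Pool.Agent.H442R2.KF.Wt X n * (Φ n * (ds c Z (n - a) * ds c' Z (n - a'))) -
      X * (m * ((∑ d ∈ Icc 1 Z, c d / d) * (∑ d ∈ Icc 1 Z, c' d / d)))| ≤
      C * (X : ℝ) ^ (1 - η₁)

/-- coefficients bounded by `M` on rough numbers -/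
structure RCM (Cl : Finset ℕ) (y : ℝ) (Z : ℕ) (M : ℝ) (c : ℕ → ℝ) : Prop where
  bd : ∀ d, |c d| ≤ M
  supp : ∀ d, c d ≠ 0 → 1 ≤ d ∧ d ≤ Z ∧ ∀ p : ℕ, p.Prime → p ∣ d → y < (p : ℝ) ∧ p ∉ Cl

section
variable {k : ℕ}

/-- the form with index `j`, integer argument -/
def Lf (α h : Fin k → ℤ) (N : ℕ) (j : Option (Fin k)) (n : ℤ) : ℤ := uB α j * n + wB h N j

/-- the weighted function of the master formula -/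
noncomputable def Ms (α h : Fin k → ℤ) (N D v D₁ Z : ℕ) (P : Finset ℕ) (Tr : ℤ → ℝ)
    (c : (IP P → Option (Option (Fin k))) → ℝ) (j j' : Fin k) (th th' b b' : ℕ → ℝ) (n : ℤ) : ℝ :=
  ((if ((WW D / 2 : ℕ) : ℤ) ∣ n - v then 1 else 0) * Tr n) *
    (FZ (uB α) (wB h N) P c n ^ 2 *
      (Pool.Agent.W23.PL.Ev th D₁ (Lf α h N (some j) n) *
        Pool.Agent.W23.PL.Ev th' D₁ (Lf α h N (some j') n))) *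
    (ds b Z (Lf α h N (some j) n) * ds b' Z (Lf α h N (some j') n))

/-- the main term of the master formula -/
noncomputable def Mm (D D₁ Z : ℕ) (P : Finset ℕ) (t : ℝ)
    (c : (IP P → Option (Option (Fin k))) → ℝ) (th th' b b' : ℕ → ℝ) : ℝ :=
  t / (WW D / 2 : ℕ) * (Pool.Agent.W23.PL.hat th D₁ * Pool.Agent.W23.PL.hat th' D₁ *
    Q1f (prP P) c) * ((∑ d ∈ Icc 1 Z, b d / d) * (∑ d ∈ Icc 1 Z, b' d / d))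

/-- the master formula at `N` -/
def MasAt (α h : Fin k → ℤ) (ε₀ ε₁ r M : ℝ) (A E₁ D N v D₁ : ℕ) (P Pt : Finset ℕ)
    (Tr : ℤ → ℝ) (t : ℝ) : Prop :=
  ∀ (X Z : ℕ) (c : (IP P → Option (Option (Fin k))) → ℝ) (j j' : Fin k) (th th' b b' : ℕ → ℝ),
    (X = 2 * N ∨ X = 4 * N) → (Z : ℝ) ≤ (X : ℝ) ^ (1 / 2 + ε₀ / 4) → j ≠ j' →
    (∀ σ, |c σ| ≤ (Real.log N) ^ E₁ * mulc (prP P) (fun p => 1 / ((p : ℝ) - 1)) σ) →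
    (∀ σ, c σ ≠ 0 → lgt (prP P) σ ≤ r * Real.log N) →
    Pool.Agent.W23.PL.DW Pt D₁ (Real.log (2 * N : ℕ)) th →
    Pool.Agent.W23.PL.DW Pt D₁ (Real.log (2 * N : ℕ)) th' →
    ((∀ e, e ≠ 1 → th e = 0) ∨ ∀ σ, c σ ≠ 0 → ∀ t, σ t ≠ some (some j)) →
    ((∀ e, e ≠ 1 → th' e = 0) ∨ ∀ σ, c σ ≠ 0 → ∀ t, σ t ≠ some (some j')) →
    RCM (CL (uB α) (wB h N)) (((2 * N : ℕ) : ℝ) ^ ε₁) Z M b →
    RCM (CL (uB α) (wB h N)) (((2 * N : ℕ) : ℝ) ^ ε₁) Z M b' →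
    Summable (fun n : ℤ => Pool.Agent.H442R2.KF.Wt X n *
      Ms α h N D v D₁ Z P Tr c j j' th th' b b' n) ∧
    |∑' n : ℤ, Pool.Agent.H442R2.KF.Wt X n * Ms α h N D v D₁ Z P Tr c j j' th th' b b' n -
      X * Mm D D₁ Z P t c th th' b b'| ≤ X / (Real.log N) ^ A

end

/-- (MAS) the master formula -/
def St_MAS : Prop := ∀ (ε₀ η : ℝ), 0 < ε₀ → ε₀ ≤ 1 / 100 → 0 < η → η ≤ 1 / 100 → R2At ε₀ η →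
  ∀ k : ℕ, ∃ E : ℕ, ∀ (ε₁ η₀ r M : ℝ) (A E₁ B D : ℕ) (α h : Fin k → ℤ), 0 < ε₁ → ε₁ ≤ 1 →
  0 < η₀ → 0 < r → 16 * r ≤ ε₀ / 10 → 16 * r ≤ η → 16 * η₀ ≤ ε₀ / 10 → 16 * η₀ ≤ η → 1 ≤ M →
  E + 2 * E₁ + A ≤ B → 2 * (k + 1) ≤ D → (∀ i, α i = 1 ∨ α i = -1) →
  (∀ i j, i ≠ j → ¬ (α i = α j ∧ h i = h j)) → ∀ᶠ N : ℕ in atTop,
  ∀ (v D₁ : ℕ) (P Pt : Finset ℕ) (Tr : ℤ → ℝ) (t : ℝ), D₁ = ⌊((2 * N : ℕ) : ℝ) ^ η₀⌋₊ →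
    (∀ p ∈ P ∪ Pt, Gd (uB α) (wB h N) p ∧ DB (2 * N) B < p ∧ (p : ℝ) ≤ ((2 * N : ℕ) : ℝ) ^ ε₁) →
    Ex (fun p => D < p ∧ p ≤ DB (2 * N) B) ((N : ℝ) ^ η₀) ((N : ℝ) ^ η₀) Tr t → |t| ≤ 2 →
    MasAt α h ε₀ ε₁ r M A E₁ D N v D₁ P Pt Tr t

/-! ### pointwise facts -/

/-- (RCB) the Selberg squares are bounded -/
def St_RCB : Prop := ∀ ε₁ : ℝ, 0 < ε₁ → ε₁ ≤ 1 → ∃ C1 : ℝ, 1 ≤ C1 ∧ ∀ᶠ N : ℕ in atTop,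
  ∀ (P : Finset ℕ) (z : ℕ), (∀ p ∈ P, p.Prime ∧ ((2 * N : ℕ) : ℝ) ^ ε₁ < (p : ℝ)) →
    ∀ a n : ℤ, |(a : ℝ)| ≤ 2 * N → n ≠ a →
      Pool.Agent.H442R2.KF.Wt (2 * N) n *
        (((sq P z).filter (fun d : ℕ => (d : ℤ) ∣ n - a)).card : ℝ) ^ 2 ≤
      C1 * Pool.Agent.H442R2.KF.Wt (4 * N) n

/-- (VLN) sizes -/
def St_VLN : Prop := ∀ (k B D : ℕ) (ε₁ ρ : ℝ), 1 ≤ B → 2 * (k + 1) ≤ D → 0 < ε₁ → ε₁ ≤ 1 →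
  0 < ρ → ∀ (α h : Fin k → ℤ), (∀ i, α i = 1 ∨ α i = -1) → ∀ᶠ N : ℕ in atTop,
    D ≤ DB (2 * N) B ∧ (Real.log (2 * N : ℕ)) ^ B - 1 ≤ (DB (2 * N) B : ℝ) ∧
    (DB (2 * N) B : ℝ) ≤ (Real.log (2 * N : ℕ)) ^ B ∧
    1 / Real.log N ≤ Pool.Agent.W25.UN.VV α h N D (DB (2 * N) B) ∧
    Pool.Agent.W25.UN.VV α h N D (DB (2 * N) B) ≤ 1 ∧
    1 ≤ BD (DB (2 * N) B) * (ρ * Real.log N) ∧
    (∀ Cl : Finset ℕ, (∀ p ∈ Pool.Agent.W23.PL.P1 (2 * N) B ε₁ \ Cl, p.Prime ∧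
        DB (2 * N) B < p ∧ (p : ℝ) < ((2 * N : ℕ) : ℝ) ^ ε₁) ∧
      (∀ p : ℕ, p.Prime → DB (2 * N) B < p → (p : ℝ) < ((2 * N : ℕ) : ℝ) ^ ε₁ → p ∉ Cl →
        p ∈ Pool.Agent.W23.PL.P1 (2 * N) B ε₁ \ Cl) ∧
      1 / (Real.log N) ^ 2 ≤ Pool.Agent.W23.PL.VV (Pool.Agent.W23.PL.P1 (2 * N) B ε₁ \ Cl) ∧
      Pool.Agent.W23.PL.VV (Pool.Agent.W23.PL.P1 (2 * N) B ε₁ \ Cl) ≤ 1) ∧
    (∀ (P : Finset ℕ) (z : ℕ), 1 ≤ z → (∀ p ∈ P, p.Prime ∧ p ≤ 2 * N) →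
      1 ≤ GG P z ∧ GG P z ≤ (Real.log N) ^ 2)

/-! ### the two sums of stage A with the new parameters -/

/-- (TWa) first sum for narrow tents with centres between `N / 8` and `N / 4` -/
def St_TWa : Prop := ∀ (k : ℕ) (Q : SPar) (ρ ρ₁ ε : ℝ) (B : ℕ), 2 ≤ k → 0 < ρ → ρ ≤ 1 / 16 →
  49 / 48 * ρ < ρ₁ → ρ₁ ≤ 1 / 4 → 0 < ε → ε < 1 / 3 → ε < Q.I1 → ε < Q.I2 → 3 ≤ B →
  ∀ (α h : Fin k → ℤ), (∀ i, α i = 1 ∨ α i = -1) → (∀ i j, i ≠ j → ¬ (α i = α j ∧ h i = h j)) →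
  ∃ D₀ : ℕ, ∀ D : ℕ, D₀ ≤ D → ∀ c₀ : ℝ, 1 / 8 ≤ c₀ → c₀ ≤ 1 / 4 → ∀ᶠ N : ℕ in atTop, ∀ v : ℕ,
    (∀ j, ∀ n : ℤ, n ≡ v [ZMOD (WW D)] → IsCoprime (uB α j * n + wB h N j) ((WW D : ℕ) : ℤ)) →
    ∀ Z : ℝ, Z = ZZ k (Pool.Agent.W25.UN.VV α h N D (DB (2 * N) B)) (ε / 400 * (c₀ * N)) (WW D)
        (BD (DB (2 * N) B)) (ρ * Real.log N) →
    ∑ n ∈ Ns α h D (DB (2 * N) B) N v N, lt (c₀ * N) (ε / 400 * (c₀ * N)) n *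
        (wZ Q (uB α) (wB h N) (PB α h N B ρ₁) (ρ * Real.log N) n) ^ 2 ≤ Z * Ac Q k ε

/-- (TWb) prime sums for narrow tents with centres between `N / 8` and `N / 4` -/
def St_TWb : Prop := ∀ (k : ℕ) (Q : SPar) (ρ ρ₁ ε : ℝ) (B : ℕ), 2 ≤ k → 0 < ρ → ρ ≤ 1 / 16 →
  49 / 48 * ρ < ρ₁ → ρ₁ ≤ 1 / 4 → 0 < ε → ε < 1 / 3 → ε < Q.I1 → ε < Q.I2 → 0 < Br Q k ε → 3 ≤ B →
  ∀ (α h : Fin k → ℤ), (∀ i, α i = 1 ∨ α i = -1) → (∀ i j, i ≠ j → ¬ (α i = α j ∧ h i = h j)) →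
  ∃ D₀ : ℕ, ∀ D : ℕ, D₀ ≤ D → ∀ c₀ : ℝ, 1 / 8 ≤ c₀ → c₀ ≤ 1 / 4 → ∀ᶠ N : ℕ in atTop, ∀ v : ℕ,
    (∀ j, ∀ n : ℤ, n ≡ v [ZMOD (WW D)] → IsCoprime (uB α j * n + wB h N j) ((WW D : ℕ) : ℤ)) →
    ∀ Z : ℝ, Z = ZZ k (Pool.Agent.W25.UN.VV α h N D (DB (2 * N) B)) (ε / 400 * (c₀ * N)) (WW D)
        (BD (DB (2 * N) B)) (ρ * Real.log N) →
    ∀ i : Fin k, Z * (ρ * βc Q k ε) ≤ ∑ n ∈ Ns α h D (DB (2 * N) B) N v N,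
      (if (Fm α h N i n).toNat.Prime then lt (c₀ * N) (ε / 400 * (c₀ * N)) n *
        (wZ Q (uB α) (wB h N) (PB α h N B ρ₁) (ρ * Real.log N) n) ^ 2 else 0)

end Pool.Agent.W25.UB
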