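import Mathlib
import Pool.Agent.W25.UB.Stm2

/-! Project UB (helper25): third wave of statements, the moments. -/

set_option autoImplicit false

namespace Pool.Agent.W25.UB

open Finset Filter Topology
open Pool.Agent.H410R2 hiding GP GP_prof GP_cut_some GP_cut_none GP_lip gg_pos gg_le_one gg_anti ee_bound ee_nonneg gg_lip LB_gg LB_ee Sums exists_sums yx wx wxi Br sum_GP_none sum_GP_some sum_GP_some_ee sum_GP_some_one sum_GPr_none sum_GPr_some S1_final QI_final S2_final w_abs_le wmax gg ee I1 I2 IE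
open Pool.Agent.H361R2.GM
open Pool.Agent.H362R2.CM
open Pool.Agent.W25.UN

section
variable {k : ℕ}

/-- the primes of the fundamental lemma -/
noncomputable def Pt (α h : Fin k → ℤ) (N B : ℕ) (ε₁ : ℝ) : Finset ℕ :=
  Pool.Agent.W23.PL.P1 (2 * N) B ε₁ \ CL (uB α) (wB h N)

/-- the primes of the rough Selberg weights -/
noncomputable def Pb (α h : Fin k → ℤ) (N z : ℕ) (ε₁ : ℝ) : Finset ℕ :=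
  (Icc 1 z).filter (fun p => p.Prime ∧ ((2 * N : ℕ) : ℝ) ^ ε₁ < (p : ℝ) ∧
    p ∉ CL (uB α) (wB h N))

/-- `V / G`, the density of the rough primes -/
noncomputable def vG (α h : Fin k → ℤ) (N B z : ℕ) (ε₁ : ℝ) : ℝ :=
  Pool.Agent.W23.PL.VV (Pt α h N B ε₁) / GG (Pb α h N z ε₁) z

/-- `b = BD D' L` -/
noncomputable def bb (N B : ℕ) (ρ : ℝ) : ℝ := BD (DB (2 * N) B) * (ρ * Real.log N)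

/-- the main size -/
noncomputable def MM (α h : Fin k → ℤ) (D N B : ℕ) (ρ : ℝ) : ℝ :=
  ((2 * N : ℕ) : ℝ) * (Pool.Agent.W25.UN.VV α h N D (DB (2 * N) B) / ((WW D / 2 : ℕ) : ℝ) *
    (bb N B ρ / 48 * bb N B ρ ^ k))

/-- the majorant weight of the form `i` -/
noncomputable def mu (Q : SPar) (α h : Fin k → ℤ) (ρ ρ₁ : ℝ) (D B N v : ℕ) (Tr : ℤ → ℝ)
    (i : Fin k) (n : ℤ) : ℝ :=
  Pool.Agent.H442R2.KF.Wt (2 * N) n *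
    (((if ((WW D / 2 : ℕ) : ℤ) ∣ n - v then 1 else 0) * Tr n) *
      FZ (uB α) (wB h N) (PB α h N B ρ₁)
        (cw (prP (PB α h N B ρ₁)) (zA Q k (PB α h N B ρ₁) (ρ * Real.log N) i)) n ^ 2)

/-- the majorant of the indicator of the primes in the form `j` -/
noncomputable def sj (α h : Fin k → ℤ) (ε₁ : ℝ) (B N z : ℕ) (b : ℕ → ℝ) (j : Fin k) (n : ℤ) : ℝ :=
  Pool.Agent.W23.PL.xx (Pt α h N B ε₁) (Lf α h N (some j) n) *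
    ds b (z ^ 2) (Lf α h N (some j) n)

/-- all the data at `N` -/
structure Dat (Q : SPar) (α h : Fin k → ℤ) (ε₀ ε₁ ρ ρ₁ ε M C1 : ℝ) (A E₁ D B N v D₁ z : ℕ)
    (Tr : ℤ → ℝ) (t : ℝ) (th dl b : ℕ → ℝ) : Prop where
  k3 : 3 ≤ k
  α1 : ∀ i, α i = 1 ∨ α i = -1
  N8 : 8 ≤ N
  l1 : 1 ≤ Real.log N
  ρ0 : 0 < ρ
  ε0 : 0 < ε
  ε3 : ε < 1 / 3
  e10 : 0 < ε₁
  e11 : ε₁ ≤ 1 / 2
  M1 : 1 ≤ M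
  C11 : 1 ≤ C1
  W2 : 1 ≤ WW D / 2
  /-- the sieving primes of the weights are among the primes of the fundamental lemma -/
  sub : PB α h N B ρ₁ ⊆ Pt α h N B ε₁
  ne : (Pt α h N B ε₁).Nonempty
  gd : ∀ p ∈ PB α h N B ρ₁ ∪ Pt α h N B ε₁, Gd (uB α) (wB h N) p ∧ DB (2 * N) B < p ∧
    (p : ℝ) ≤ ((2 * N : ℕ) : ℝ) ^ ε₁
  sd : SieveData (IP (PB α h N B ρ₁)) (Option (Fin k)) (prP (PB α h N B ρ₁))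
    (LZ (uB α) (wB h N)) 1
  sums : SumsN Q (DB (2 * N) B) ε (k + 1) (ρ * Real.log N) (PB α h N B ρ₁)
  low : 0 < Br2 Q k ε → ∀ i j : Fin k, i ≠ j →
    (1 - ε) ^ 4 * (bb N B ρ * (Q.I1 - ε)) ^ 4 / (bb N B ρ * (1 + ε)) ^ 2 *
      (bb N B ρ * (1 - ε)) * (bb N B ρ / 48 * bb N B ρ ^ (k - 2) * Br2 Q k ε) ≤
      Q1f (prP (PB α h N B ρ₁)) (cw (prP (PB α h N B ρ₁))
        (zB Q k (PB α h N B ρ₁) (ρ * Real.log N) i j))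
  bd0 : 0 < BD (DB (2 * N) B)
  b1 : 1 ≤ bb N B ρ
  Tr0 : ∀ n, 0 ≤ Tr n
  Tr1 : ∀ n : ℤ, (∀ p : ℕ, p.Prime → D < p → p ≤ DB (2 * N) B → ∀ j,
    ¬ (p : ℤ) ∣ uB α j * n + wB h N j) → 1 ≤ Tr n
  Vp : 0 < Pool.Agent.W25.UN.VV α h N D (DB (2 * N) B)
  t1 : |t - Pool.Agent.W25.UN.VV α h N D (DB (2 * N) B)| ≤
    ε * Pool.Agent.W25.UN.VV α h N D (DB (2 * N) B)
  V0 : 0 < Pool.Agent.W23.PL.VV (Pt α h N B ε₁)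
  V1 : Pool.Agent.W23.PL.VV (Pt α h N B ε₁) ≤ 1
  G1 : 1 ≤ GG (Pb α h N z ε₁) z
  /-- the density is at most the expected one -/
  vg : vG α h N B z ε₁ * bb N B ρ * ((1 / 4 + ε₀ / 8) * (1 - ε)) ≤ ρ
  dth : Pool.Agent.W23.PL.DW (Pt α h N B ε₁) D₁ (Real.log (2 * N : ℕ)) th
  ddl : Pool.Agent.W23.PL.DW (Pt α h N B ε₁) D₁ (Real.log (2 * N : ℕ)) dl
  fl : ∀ m : ℤ, Pool.Agent.W23.PL.xx (Pt α h N B ε₁) m ≤ Pool.Agent.W23.PL.Ev th D₁ m ∧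
    Pool.Agent.W23.PL.Ev th D₁ m - Pool.Agent.W23.PL.xx (Pt α h N B ε₁) m ≤
      Pool.Agent.W23.PL.Ev dl D₁ m
  hth : |Pool.Agent.W23.PL.hat th D₁ - Pool.Agent.W23.PL.VV (Pt α h N B ε₁)| ≤
    ε₁ ^ 3 * Pool.Agent.W23.PL.VV (Pt α h N B ε₁)
  hdl : |Pool.Agent.W23.PL.hat dl D₁| ≤ ε₁ ^ 3 * Pool.Agent.W23.PL.VV (Pt α h N B ε₁)
  D1 : 1 ≤ D₁
  z1 : 1 ≤ z
  z2 : ((z ^ 2 : ℕ) : ℝ) ≤ ((2 * N : ℕ) : ℝ) ^ (1 / 2 + ε₀ / 4)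
  z3 : 4 * z ≤ N
  bM : RCM (CL (uB α) (wB h N)) (((2 * N : ℕ) : ℝ) ^ ε₁) (z ^ 2) M b
  bn : ∀ m : ℤ, 0 ≤ ds b (z ^ 2) m
  bo : ∀ m : ℤ, (∀ p ∈ Pb α h N z ε₁, ¬ (p : ℤ) ∣ m) → ds b (z ^ 2) m = 1
  bs : ∑ d ∈ Icc 1 (z ^ 2), b d / d = 1 / GG (Pb α h N z ε₁) z
  /-- the Selberg squares are bounded -/
  rcb : ∀ (j : Fin k) (n : ℤ), Lf α h N (some j) n ≠ 0 →
    Pool.Agent.H442R2.KF.Wt (2 * N) n * ds b (z ^ 2) (Lf α h N (some j) n) ≤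
      C1 * Pool.Agent.H442R2.KF.Wt (4 * N) n
  size : (∏ t : IP (PB α h N B ρ₁), (1 + 4 / (prP (PB α h N B ρ₁) t : ℝ))) ^ 6 ≤
    (Real.log N) ^ E₁
  mas : MasAt α h ε₀ ε₁ (3 * ρ) M A E₁ D N v D₁ (PB α h N B ρ₁) (Pt α h N B ε₁) Tr t
  small : ((4 * N : ℕ) : ℝ) / (Real.log N) ^ A ≤ ε * (MM α h D N B ρ * vG α h N B z ε₁ ^ 2)

end

/-- (U0) the total mass -/
def St_U0 : Prop := ∀ (k : ℕ) (Q : SPar) (α h : Fin k → ℤ) (ε₀ ε₁ ρ ρ₁ ε M C1 : ℝ)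
  (A E₁ D B N v D₁ z : ℕ) (Tr : ℤ → ℝ) (t : ℝ) (th dl b : ℕ → ℝ), 0 < Q.I1 → 0 < Q.I2 →
  Dat Q α h ε₀ ε₁ ρ ρ₁ ε M C1 A E₁ D B N v D₁ z Tr t th dl b → ∀ i : Fin k,
    (∀ n, 0 ≤ mu Q α h ρ ρ₁ D B N v Tr i n) ∧ Summable (mu Q α h ρ ρ₁ D B N v Tr i) ∧
    ∑' n : ℤ, mu Q α h ρ ρ₁ D B N v Tr i n ≤ MM α h D N B ρ *
      ((1 + ε) * ((Q.I1 + ε) ^ 2 / (1 - ε) ^ 2 * (1 + ε) * (1 / 3 + ε) * (Q.I2 + ε) ^ (k - 1)) +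
        ε)

/-- (L1) the first moments from below -/
def St_L1 : Prop := ∀ (k : ℕ) (Q : SPar) (α h : Fin k → ℤ) (ε₀ ε₁ ρ ρ₁ ε M C1 : ℝ)
  (A E₁ D B N v D₁ z : ℕ) (Tr : ℤ → ℝ) (t : ℝ) (th dl b : ℕ → ℝ), 0 < Q.I1 → 0 < Q.I2 →
  ε < Q.I1 → ε < Q.I2 → 0 < Br2 Q k ε →
  Dat Q α h ε₀ ε₁ ρ ρ₁ ε M C1 A E₁ D B N v D₁ z Tr t th dl b → ∀ i j : Fin k, i ≠ j →
    Summable (fun n => mu Q α h ρ ρ₁ D B N v Tr i n * sj α h ε₁ B N z b j n) ∧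
    MM α h D N B ρ * (vG α h N B z ε₁ * bb N B ρ) *
      ((1 - ε) * (1 - 2 * ε₁ ^ 3) * ((1 - ε) ^ 4 * (Q.I1 - ε) ^ 4 / (1 + ε) ^ 2 * (1 - ε) *
        Br2 Q k ε) - 2 * ε) ≤
      ∑' n : ℤ, mu Q α h ρ ρ₁ D B N v Tr i n * sj α h ε₁ B N z b j n

/-- (U2) the mixed second moments from above -/
def St_U2 : Prop := ∀ (k : ℕ) (Q : SPar) (α h : Fin k → ℤ) (ε₀ ε₁ ρ ρ₁ ε M C1 : ℝ)
  (A E₁ D B N v D₁ z : ℕ) (Tr : ℤ → ℝ) (t : ℝ) (th dl b : ℕ → ℝ), 0 < Q.I1 → 0 < Q.I2 →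
  Dat Q α h ε₀ ε₁ ρ ρ₁ ε M C1 A E₁ D B N v D₁ z Tr t th dl b → ∀ i j l : Fin k, i ≠ j → i ≠ l →
    j ≠ l →
    Summable (fun n => mu Q α h ρ ρ₁ D B N v Tr i n * (sj α h ε₁ B N z b j n *
      sj α h ε₁ B N z b l n)) ∧
    ∑' n : ℤ, mu Q α h ρ ρ₁ D B N v Tr i n * (sj α h ε₁ B N z b j n *
      sj α h ε₁ B N z b l n) ≤
      MM α h D N B ρ * (vG α h N B z ε₁ * bb N B ρ) ^ 2 *
      ((1 + ε) * (1 + ε₁ ^ 3) ^ 2 * ((Q.I1 + ε) ^ 6 / (1 - ε) ^ 2 * (1 + ε) * (1 / 3 + ε) *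
        (Q.I2 + ε) ^ (k - 3)) + ε)

/-- (UD) the diagonal second moments from above -/
def St_UD : Prop := ∀ (k : ℕ) (Q : SPar) (α h : Fin k → ℤ) (ε₀ ε₁ ρ ρ₁ ε M C1 : ℝ)
  (A E₁ D B N v D₁ z : ℕ) (Tr : ℤ → ℝ) (t : ℝ) (th dl b : ℕ → ℝ), 0 < Q.I1 → 0 < Q.I2 →
  Dat Q α h ε₀ ε₁ ρ ρ₁ ε M C1 A E₁ D B N v D₁ z Tr t th dl b → ∀ i j : Fin k, i ≠ j →
    Summable (fun n => mu Q α h ρ ρ₁ D B N v Tr i n * sj α h ε₁ B N z b j n ^ 2) ∧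
    ∑' n : ℤ, mu Q α h ρ ρ₁ D B N v Tr i n * sj α h ε₁ B N z b j n ^ 2 ≤
      2 * C1 * (MM α h D N B ρ * (vG α h N B z ε₁ * bb N B ρ) *
      ((1 + ε) * (1 + ε₁ ^ 3) * ((Q.I1 + ε) ^ 4 / (1 - ε) ^ 2 * (1 + ε) * (1 / 3 + ε) *
        (Q.I2 + ε) ^ (k - 2)) + ε))

/-- (DAT) existence of the data for all large `N` -/
def St_DAT : Prop := ∀ (ε₀ η : ℝ), 0 < ε₀ → ε₀ ≤ 1 / 100 → 0 < η → η ≤ 1 / 100 → R2At ε₀ η →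
  ∀ η₀ : ℝ, 0 < η₀ → 16 * η₀ ≤ ε₀ / 10 → 16 * η₀ ≤ η → ∃ εs : ℝ, 0 < εs ∧ ∀ ε₁ : ℝ, 0 < ε₁ →
  ε₁ ≤ εs → ∃ C1 : ℝ, 1 ≤ C1 ∧ ∀ (k : ℕ) (Q : SPar) (ρ ρ₁ ε : ℝ), 3 ≤ k → 0 < ρ → ρ < ρ₁ →
  2 * ρ₁ ≤ ε₁ → 3 * ρ ≤ η₀ → 0 < ε → ε < 1 / 3 → ε < Q.I1 → ε < Q.I2 → ∃ B₀ : ℕ, 6 ≤ B₀ ∧
  ∀ B : ℕ, B₀ ≤ B → ∀ D : ℕ, 2 * (k + 1) ≤ D → ∀ (α h : Fin k → ℤ), (∀ i, α i = 1 ∨ α i = -1) →
  (∀ i j, i ≠ j → ¬ (α i = α j ∧ h i = h j)) → ∀ᶠ N : ℕ in atTop, ∀ v : ℕ,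
    ∃ (M : ℝ) (A E₁ D₁ z : ℕ) (Tr : ℤ → ℝ) (t : ℝ) (th dl b : ℕ → ℝ),
      Dat Q α h ε₀ ε₁ ρ ρ₁ ε M C1 A E₁ D B N v D₁ z Tr t th dl b

end Pool.Agent.W25.UB
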