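import Mathlib
import Pool.Agent.W25.UB.Stm3

/-! Project UB (helper25): numerics (statement). -/

set_option autoImplicit false

namespace Pool.Agent.W25.UB

open Finset Filter Topology
open Pool.Agent.H361R2.GM
open Pool.Agent.H362R2.CM

/-- relative constants -/
noncomputable def r0c (Q : SPar) (k : ℕ) (ε : ℝ) : ℝ :=
  (1 + ε) * ((Q.I1 + ε) ^ 2 / (1 - ε) ^ 2 * (1 + ε) * (1 / 3 + ε) * (Q.I2 + ε) ^ (k - 1)) + ε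
noncomputable def l1c (Q : SPar) (k : ℕ) (ε₁ ε : ℝ) : ℝ :=
  (1 - ε) * (1 - 2 * ε₁ ^ 3) * ((1 - ε) ^ 4 * (Q.I1 - ε) ^ 4 / (1 + ε) ^ 2 * (1 - ε) *
    Br2 Q k ε) - 2 * ε
noncomputable def u2c (Q : SPar) (k : ℕ) (ε₁ ε : ℝ) : ℝ :=
  (1 + ε) * (1 + ε₁ ^ 3) ^ 2 * ((Q.I1 + ε) ^ 6 / (1 - ε) ^ 2 * (1 + ε) * (1 / 3 + ε) *
    (Q.I2 + ε) ^ (k - 3)) + ε
noncomputable def udc (Q : SPar) (k : ℕ) (ε₁ ε : ℝ) : ℝ :=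
  (1 + ε) * (1 + ε₁ ^ 3) * ((Q.I1 + ε) ^ 4 / (1 - ε) ^ 2 * (1 + ε) * (1 / 3 + ε) *
    (Q.I2 + ε) ^ (k - 2)) + ε

/-- the variance constant -/
noncomputable def qc (Q : SPar) (k : ℕ) (ε₁ ε : ℝ) : ℝ :=
  max 0 (u2c Q k ε₁ ε - 2 * (Q.I1 ^ 2 / Q.I2) * l1c Q k ε₁ ε +
    (Q.I1 ^ 2 / Q.I2) ^ 2 * r0c Q k ε)

/-- the upper bound of the density times `b` -/
noncomputable def g0c (ε₀ ρ ε : ℝ) : ℝ := ρ / ((1 / 4 + ε₀ / 8) * (1 - ε))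

/-- the bound for the sum of the pairs -/
noncomputable def muc (Q : SPar) (K : ℕ) (ε₀ ε₁ ρ C1 ε : ℝ) : ℝ :=
  K * g0c ε₀ ρ ε * (Q.I1 ^ 2 / Q.I2) +
    Real.sqrt (1024 / (ρ * βc Q (4 * K) ε) *
      (K * (2 * C1 * (g0c ε₀ ρ ε * udc Q (4 * K) ε₁ ε)) +
        (K : ℝ) ^ 2 * g0c ε₀ ρ ε ^ 2 * qc Q (4 * K) ε₁ ε))

/-- (NUM) the choice of the parameters, `ρ = ε₁ / 4` -/
def St_NUM : Prop := ∀ ε₀ : ℝ, 0 < ε₀ → ε₀ ≤ 1 / 100 → ∃ e₁ : ℝ, 0 < e₁ ∧ ∀ ε₁ : ℝ, 0 < ε₁ →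
  ε₁ ≤ e₁ → ∀ C1 : ℝ, 1 ≤ C1 → ∃ (K : ℕ) (Q : SPar) (ε : ℝ), 2 ≤ K ∧ 0 < ε ∧ ε < 1 / 3 ∧
    ε < Q.I1 ∧ ε < Q.I2 ∧ 0 < Br Q (4 * K) ε ∧ 0 < Br2 Q (4 * K) ε ∧
    (1 + muc Q K ε₀ ε₁ (ε₁ / 4) C1 ε) * ((1 + 2 * ε) * Ac Q (4 * K) ε) <
      4 * (K * (ε₁ / 4 * βc Q (4 * K) ε))

end Pool.Agent.W25.UB
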