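import Mathlib
import Pool.Agent.W25.UB.Stm4
import Pool.Agent.W25.UB.Stm5

/-! Project UB (helper25): any number of classes (statements). -/

set_option autoImplicit false

namespace Pool.Agent.W25.UB

open Finset Filter Topology
open Pool.Agent.H361R2.GM
open Pool.Agent.H362R2.CM
open Pool.Agent.W25.UN (Fm uB wB)
open Pool.Agent.H410R2 (WW)
open Pool.Agent.W59.GB Pool.Agent.H947R3.GM Pool.Agent.H732R3.BigQ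

/-- the bound for the sum of the pairs, `T` classes -/
noncomputable def mucT (Q : SPar) (T K : ℕ) (ε₀ ε₁ ρ C1 ε : ℝ) : ℝ :=
  K * g0c ε₀ ρ ε * (Q.I1 ^ 2 / Q.I2) +
    Real.sqrt (1024 / (ρ * βc Q (T * K) ε) *
      (K * (2 * C1 * (g0c ε₀ ρ ε * udc Q (T * K) ε₁ ε)) +
        (K : ℝ) ^ 2 * g0c ε₀ ρ ε ^ 2 * qc Q (T * K) ε₁ ε))

/-- (NUMT) the choice of the parameters, `ρ = ε₁ / 4`, `T` classes, `M + 1` of them -/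
def St_NUMT : Prop := ∀ ε₀ : ℝ, 0 < ε₀ → ε₀ ≤ 1 / 100 → ∃ c : ℝ, 0 < c ∧ c < 1 ∧
  ∀ T M : ℕ, 1 ≤ T → (4 - c) * M < T → ∃ e₁ : ℝ, 0 < e₁ ∧ ∀ ε₁ : ℝ, 0 < ε₁ →
  ε₁ ≤ e₁ → ∀ C1 : ℝ, 1 ≤ C1 → ∃ (K : ℕ) (Q : SPar) (ε : ℝ), 2 ≤ K ∧ 3 ≤ T * K ∧ 0 < ε ∧
    ε < 1 / 3 ∧ ε < Q.I1 ∧ ε < Q.I2 ∧ 0 < Br Q (T * K) ε ∧ 0 < Br2 Q (T * K) ε ∧
    (1 + mucT Q T K ε₀ ε₁ (ε₁ / 4) C1 ε) * ((M + 2 * ε) * Ac Q (T * K) ε) <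
      T * (K * (ε₁ / 4 * βc Q (T * K) ε))

open Classical in
/-- (VG) the uniform coloured theorem with any number of classes, slopes `1` and `-1` -/
def ThmVG : Prop := ∃ c : ℝ, 0 < c ∧ c < 1 ∧ ∀ T M : ℕ, 1 ≤ T → (4 - c) * M < T →
  ∃ K : ℕ, 2 ≤ K ∧ ∀ (α h : Fin (T * K) → ℤ) (cl : Fin (T * K) → Fin T),
    (∀ g, (univ.filter (fun i => cl i = g)).card = K) → (∀ i, α i = 1 ∨ α i = -1) →
    (∀ i j, i ≠ j → ¬ (α i = α j ∧ h i = h j)) → ∃ D₀ : ℕ, ∀ D : ℕ, D₀ ≤ D →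
    ∀ η : ℝ, 0 < η → ∀ᶠ N : ℕ in atTop, ∀ v : ℕ, CopAt α h D N v →
      (N : ℝ) ^ (1 - η) ≤ (((Icc 1 N).filter (fun n : ℕ => n ≡ v [MOD (WW D)] ∧
        (N : ℝ) / 16 ≤ n ∧ (n : ℝ) ≤ N / 2 ∧
        M + 1 ≤ (univ.filter (fun g : Fin T => ∃ i, cl i = g ∧
          (Fm α h N i n).toNat.Prime)).card)).card : ℝ)

/-- (CB) classes of shifts containing primes, all other shifts being blocked (as `classes_block` of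
`Pool.Agent.W142.TF.NGap`, which has `n ≤ 4 * S.card`) -/
def St_CB : Prop := ∃ c₁ : ℝ, 0 < c₁ ∧ c₁ < 1 ∧ ∀ n M' : ℕ, 1 ≤ n → (4 - c₁) * M' < n →
  ∃ K : ℕ, 1 ≤ K ∧ ∀ N a : ℕ, 0 < N → 2 ∣ N → Squarefree N → a.Coprime N →
  ∀ H : Fin n → Fin K → ℕ, AdmN N H →
    ∃ (Q r M : ℕ) (S : Finset (Fin n)) (c : Fin n → Fin K), 0 < Q ∧ N ∣ Q ∧ r ≡ a [MOD N] ∧
      (∀ g i, N * H g i ≤ M) ∧ M' + 1 ≤ S.card ∧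
      Big {m : ℕ | (∀ g ∈ S, (Q * m + r + N * H g (c g)).Prime) ∧
        ∀ t ≤ M, (∀ g i, N * H g i ≠ t) → ¬ (Q * m + r + t).Prime}

end Pool.Agent.W25.UB
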