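import Mathlib
import Pool.Agent.W25.UB.Stm3
import Pool.Agent.W25.UN.Conv

/-! Project UB: pointwise facts at a fixed `N`, the tents. -/

set_option autoImplicit false

namespace Pool.Agent.W25.UB

open Finset Filter Topology
open Pool.Agent.H410R2 hiding GP GP_prof GP_cut_some GP_cut_none GP_lip gg_pos gg_le_one gg_anti ee_bound ee_nonneg gg_lip LB_gg LB_ee Sums exists_sums yx wx wxi Br sum_GP_none sum_GP_some sum_GP_some_ee sum_GP_some_one sum_GPr_none sum_GPr_some S1_final QI_final S2_final w_abs_le wmax gg ee I1 I2 IE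
open Pool.Agent.H361R2.GM
open Pool.Agent.H362R2.CM
open Pool.Agent.W25.UN

theorem two_dvd_WW {D : ℕ} (hD : 2 ≤ D) : 2 ∣ WW D := by
  unfold WW
  exact Finset.dvd_prod_of_mem (fun p => p) (Finset.mem_filter.2
    ⟨Finset.mem_Icc.2 ⟨by norm_num, hD⟩, Nat.prime_two⟩)

section
variable {k : ℕ}

/-- the value of a form on the range of `n` -/
theorem form_ge {α h : Fin k → ℤ} (hα : ∀ i, α i = 1 ∨ α i = -1) {N n : ℕ}
    (hn2 : (n : ℝ) ≤ N / 2) (hh : ∀ i, |(h i : ℝ)| ≤ N / 8) (i : Fin k) :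
    (3 / 8 : ℝ) * N ≤ (Fm α h N i n : ℝ) := by
  have h1 := (abs_le.1 (hh i)).1
  have hn0 : (0 : ℝ) ≤ n := Nat.cast_nonneg _
  unfold Fm
  push_cast
  rcases hα i with h2 | h2 <;> rw [h2] <;> push_cast <;> linarith

theorem Lf_eq (α h : Fin k → ℤ) (N : ℕ) (i : Fin k) (n : ℤ) :
    Lf α h N (some i) n = Fm α h N i n := by
  unfold Lf Fm uB wB
  ring

/-- a prime value of a form has no small prime factor -/
theorem no_small {α h : Fin k → ℤ} (hα : ∀ i, α i = 1 ∨ α i = -1) {N n : ℕ}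
    (hn2 : (n : ℝ) ≤ N / 2) (hh : ∀ i, |(h i : ℝ)| ≤ N / 8) (hN : 0 < N) {i : Fin k}
    (hp : (Fm α h N i n).toNat.Prime) {p : ℕ} (hp1 : p.Prime) (hp2 : (p : ℝ) ≤ N / 4) :
    ¬ (p : ℤ) ∣ Lf α h N (some i) n := by
  intro hd
  rw [Lf_eq] at hd
  have h1 := form_ge hα hn2 hh i
  have hNR : (0 : ℝ) < N := by exact_mod_cast hN
  have h2 : (0 : ℤ) ≤ Fm α h N i n := by
    have : (0 : ℝ) ≤ (Fm α h N i n : ℝ) := by linarith
    exact_mod_cast this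
  have h3 : ((Fm α h N i n).toNat : ℤ) = Fm α h N i n := Int.toNat_of_nonneg h2
  rw [← h3] at hd
  have h4 : p ∣ (Fm α h N i n).toNat := by exact_mod_cast hd
  have h5 := (Nat.prime_dvd_prime_iff_eq hp1 hp).1 h4
  have h6 : (p : ℝ) = (Fm α h N i n : ℝ) := by
    rw [h5]
    have : (((Fm α h N i n).toNat : ℤ) : ℝ) = ((Fm α h N i n : ℤ) : ℝ) := by rw [h3]
    rw [← this, Int.cast_natCast]
  linarith

theorem Wt_ge {N n : ℕ} (hN : 0 < N) (hn2 : (n : ℝ) ≤ N / 2) :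
    1 / 2 ≤ Pool.Agent.H442R2.KF.Wt (2 * N) (n : ℤ) := by
  unfold Pool.Agent.H442R2.KF.Wt
  have hNR : (0 : ℝ) < N := by exact_mod_cast hN
  have hn0 : (0 : ℝ) ≤ n := Nat.cast_nonneg _
  have h1 : ((n : ℤ) : ℝ) / ((2 * N : ℕ) : ℝ) ≤ 1 / 4 := by
    push_cast
    rw [div_le_iff₀ (by positivity)]
    linarith
  have h2 : 0 ≤ ((n : ℤ) : ℝ) / ((2 * N : ℕ) : ℝ) := by
    push_cast
    positivity
  have h3 : (((n : ℤ) : ℝ) / ((2 * N : ℕ) : ℝ)) ^ 2 ≤ 1 / 16 := by nlinarith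
  have hpi := Real.pi_lt_four
  have hpi0 := Real.pi_pos
  have h4 : Real.pi * (((n : ℤ) : ℝ) / ((2 * N : ℕ) : ℝ)) ^ 2 ≤ 4 * (1 / 16) :=
    mul_le_mul hpi.le h3 (sq_nonneg _) (by norm_num)
  have h5 := Real.add_one_le_exp (-Real.pi * (((n : ℤ) : ℝ) / ((2 * N : ℕ) : ℝ)) ^ 2)
  linarith

variable {Q : SPar} {α h : Fin k → ℤ} {ε₀ ε₁ ρ ρ₁ ε M C1 : ℝ}
    {A E₁ D B N v D₁ z : ℕ} {Tr : ℤ → ℝ} {t : ℝ} {th dl b : ℕ → ℝ}

theorem pt_le (hNWE : St_NWE) (H : Dat Q α h ε₀ ε₁ ρ ρ₁ ε M C1 A E₁ D B N v D₁ z Tr t th dl b)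
    (hD : 2 ≤ D) (i : Fin k) (n : ℕ) (hn : n ∈ Ns α h D (DB (2 * N) B) N v N)
    (hn2 : (n : ℝ) ≤ N / 2) (hh : ∀ i, |(h i : ℝ)| ≤ N / 8)
    (hbig : ((2 * N : ℕ) : ℝ) ^ ε₁ ≤ N / 4)
    (hp : (Fm α h N i n).toNat.Prime) :
    (wZ Q (uB α) (wB h N) (PB α h N B ρ₁) (ρ * Real.log N) n) ^ 2 ≤
      2 * mu Q α h ρ ρ₁ D B N v Tr i n := by
  have hN0 : 0 < N := by have := H.N8; omega
  have hPB : ∀ p ∈ PB α h N B ρ₁, p.Prime ∧ (p : ℝ) ≤ N / 4 := by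
    intro p hp'
    have h1 := H.gd p (Finset.mem_union_left _ hp')
    exact ⟨h1.1.1, h1.2.2.trans hbig⟩
  obtain ⟨e1, e2⟩ := hNWE k (uB α) (wB h N) (PB α h N B ρ₁) (fun p hp' => (hPB p hp').1.two_le)
  have hl := H.l1
  have hρ := H.ρ0
  have h1 := e1 (some i) (ρ * Real.log N) (yP Q k (PB α h N B ρ₁) (ρ * Real.log N)) n
    (by positivity) (by
      intro p hp'
      have := no_small H.α1 hn2 hh hN0 hp (hPB p hp').1 (hPB p hp').2
      exact this)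
  have h2 := e2 Q (ρ * Real.log N) n
  rw [h2, ← h1]
  unfold mu
  have hNs := hn
  unfold Ns at hNs
  rw [Finset.mem_filter] at hNs
  obtain ⟨-, hnv, hnO⟩ := hNs
  have hdv : (((WW D / 2 : ℕ) : ℤ) ∣ (n : ℤ) - v) := by
    have h3 : WW D / 2 ∣ WW D := Nat.div_dvd_of_dvd (two_dvd_WW hD)
    have h4 : ((WW D : ℕ) : ℤ) ∣ (n : ℤ) - v :=
      (Nat.modEq_iff_dvd.1 hnv.symm)
    exact (Int.natCast_dvd_natCast.2 h3).trans h4
  have hTr : 1 ≤ Tr n := by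
    apply H.Tr1
    intro p hpp hDp hpD j hd
    have hq : p ∈ QQ D (DB (2 * N) B) := by
      unfold QQ
      rw [Finset.mem_filter, Finset.mem_Icc]
      exact ⟨⟨by omega, hpD⟩, hpp⟩
    apply hnO p hq
    unfold Om
    rw [Finset.mem_filter, Finset.mem_range]
    refine ⟨Nat.mod_lt _ hpp.pos, j, ?_⟩
    unfold LZ
    rw [← Int.natCast_dvd]
    have h3 : (p : ℤ) ∣ uB α j * ((n : ℤ) - ((n % p : ℕ) : ℤ)) := by
      apply Dvd.dvd.mul_left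
      have h9 : (n : ℤ) - ((n % p : ℕ) : ℤ) = p * ((n / p : ℕ) : ℤ) := by
        have h8 : (((n % p + p * (n / p) : ℕ)) : ℤ) = (n : ℤ) := by rw [Nat.mod_add_div]
        rw [Nat.cast_add, Nat.cast_mul] at h8
        linarith
      rw [h9]
      exact dvd_mul_right _ _
    have h4 := dvd_sub hd h3
    have : uB α j * (n : ℤ) + wB h N j - uB α j * ((n : ℤ) - ((n % p : ℕ) : ℤ)) =
        uB α j * ((n % p : ℕ) : ℤ) + wB h N j := by ring
    rw [this] at h4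
    exact h4
  rw [if_pos hdv]
  have hWt := Wt_ge hN0 hn2
  set X := FZ (uB α) (wB h N) (PB α h N B ρ₁)
        (cw (prP (PB α h N B ρ₁)) (zA Q k (PB α h N B ρ₁) (ρ * Real.log N) i)) n ^ 2 with hX
  have hX0 : 0 ≤ X := sq_nonneg _
  have hXe : FZ (uB α) (wB h N) (PB α h N B ρ₁) (cw (prP (PB α h N B ρ₁)) (ymod (some i)
      (prP (PB α h N B ρ₁)) (uj (some i) (prP (PB α h N B ρ₁)) (ρ * Real.log N))
      (yP Q k (PB α h N B ρ₁) (ρ * Real.log N)))) n ^ 2 = X := by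
    rw [hX]
    rfl
  rw [hXe]
  have h5 : 1 * X ≤ Tr n * X := mul_le_mul_of_nonneg_right hTr hX0
  have h6 : 0 ≤ Tr n * X := mul_nonneg (H.Tr0 n) hX0
  have h7 := mul_le_mul_of_nonneg_right hWt h6
  have e : 2 * (Pool.Agent.H442R2.KF.Wt (2 * N) ↑n * (1 * Tr ↑n * X)) =
      2 * (Pool.Agent.H442R2.KF.Wt (2 * N) ↑n * (Tr ↑n * X)) := by ring
  rw [e]
  linarith

theorem sj_nonneg (H : Dat Q α h ε₀ ε₁ ρ ρ₁ ε M C1 A E₁ D B N v D₁ z Tr t th dl b) (j : Fin k)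
    (n : ℤ) : 0 ≤ sj α h ε₁ B N z b j n := by
  unfold sj
  apply mul_nonneg _ (H.bn _)
  unfold Pool.Agent.W23.PL.xx
  split_ifs <;> norm_num

theorem sj_one (H : Dat Q α h ε₀ ε₁ ρ ρ₁ ε M C1 A E₁ D B N v D₁ z Tr t th dl b) (j : Fin k)
    (n : ℕ) (hn2 : (n : ℝ) ≤ N / 2) (hh : ∀ i, |(h i : ℝ)| ≤ N / 8)
    (hbig : ((2 * N : ℕ) : ℝ) ^ ε₁ ≤ N / 4)
    (hp : (Fm α h N j n).toNat.Prime) : 1 ≤ sj α h ε₁ B N z b j n := by
  have hN0 : 0 < N := by have := H.N8; omega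
  unfold sj
  have h1 : Pool.Agent.W23.PL.xx (Pt α h N B ε₁) (Lf α h N (some j) n) = 1 := by
    unfold Pool.Agent.W23.PL.xx
    rw [if_pos]
    intro p hp'
    have h1 := H.gd p (Finset.mem_union_right _ hp')
    exact no_small H.α1 hn2 hh hN0 hp h1.1.1 (h1.2.2.trans hbig)
  have h2 : ds b (z ^ 2) (Lf α h N (some j) n) = 1 := by
    apply H.bo
    intro p hp'
    unfold Pb at hp'
    rw [Finset.mem_filter, Finset.mem_Icc] at hp'
    apply no_small H.α1 hn2 hh hN0 hp hp'.2.1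
    have h3 := H.z3
    have h4 : 4 * (p : ℝ) ≤ N := by
      have h5 : 4 * p ≤ N := by omega
      exact_mod_cast h5
    linarith
  rw [h1, h2]
  norm_num

end

/-! ### tents -/

/-- centres -/
noncomputable def ctr (κ : ℝ) (r : ℕ) : ℝ := 1 / 8 + r * κ

/-- number of the tents -/
noncomputable def Rn (κ : ℝ) : ℕ := ⌊1 / (8 * κ)⌋₊ + 1

/-- the sum of the tents -/
noncomputable def Ut (κ : ℝ) (N : ℕ) (n : ℝ) : ℝ :=
  ∑ r ∈ range (Rn κ), lt (ctr κ r * N) (κ * (ctr κ r * N)) n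

theorem ctr_range {κ : ℝ} (hκ : 0 < κ) {r : ℕ} (hr : r < Rn κ) :
    1 / 8 ≤ ctr κ r ∧ ctr κ r ≤ 1 / 4 := by
  unfold ctr
  have h0 : (0 : ℝ) ≤ r := Nat.cast_nonneg _
  constructor
  · have : 0 ≤ (r : ℝ) * κ := by positivity
    linarith
  · have h1 : r ≤ ⌊1 / (8 * κ)⌋₊ := by
      unfold Rn at hr
      omega
    have h2 : (r : ℝ) ≤ 1 / (8 * κ) := by
      have h3 : (r : ℝ) ≤ (⌊1 / (8 * κ)⌋₊ : ℝ) := by exact_mod_cast h1
      exact h3.trans (Nat.floor_le (by positivity))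
    have h3 : (r : ℝ) * κ ≤ 1 / (8 * κ) * κ := mul_le_mul_of_nonneg_right h2 hκ.le
    have h4 : 1 / (8 * κ) * κ = 1 / 8 := by field_simp
    linarith

theorem Ut_nonneg (κ : ℝ) (N : ℕ) (n : ℝ) : 0 ≤ Ut κ N n :=
  Finset.sum_nonneg fun _ _ => lt_nonneg _ _ _

theorem tent_range {κ : ℝ} (hκ : 0 < κ) (hκ1 : κ ≤ 1 / 400) {N : ℕ} (hN : 0 < N) {r : ℕ}
    (hr : r < Rn κ) {n : ℝ} (hn : lt (ctr κ r * N) (κ * (ctr κ r * N)) n ≠ 0) :
    (N : ℝ) / 16 ≤ n ∧ n ≤ N / 2 := by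
  obtain ⟨h1, h2⟩ := ctr_range hκ hr
  have hNR : (0 : ℝ) < N := by exact_mod_cast hN
  have hc : 0 < ctr κ r := by linarith
  have h3 := abs_lt.1 (lt_pos_iff (by positivity) hn)
  have h4 : κ * (ctr κ r * N) ≤ 1 / 400 * (1 / 4 * N) := by gcongr
  have h5 : (1 / 8 : ℝ) * N ≤ ctr κ r * N := by gcongr
  have h6 : ctr κ r * N ≤ 1 / 4 * N := by gcongr
  constructor <;> linarith

theorem Ut_range {κ : ℝ} (hκ : 0 < κ) (hκ1 : κ ≤ 1 / 400) {N : ℕ} (hN : 0 < N) {n : ℝ}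
    (hn : Ut κ N n ≠ 0) : (N : ℝ) / 16 ≤ n ∧ n ≤ N / 2 := by
  unfold Ut at hn
  obtain ⟨r, hr, hr2⟩ := Finset.exists_ne_zero_of_sum_ne_zero hn
  exact tent_range hκ hκ1 hN (Finset.mem_range.1 hr) hr2

theorem Ut_le_one {κ : ℝ} (hκ : 0 < κ) {N : ℕ} (hN : 0 < N) (n : ℝ) : Ut κ N n ≤ 1 := by
  by_cases h : ∃ r ∈ range (Rn κ), lt (ctr κ r * N) (κ * (ctr κ r * N)) n ≠ 0
  · obtain ⟨r, hr, hr2⟩ := h
    have hNR : (0 : ℝ) < N := by exact_mod_cast hN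
    have hc := ctr_range hκ (Finset.mem_range.1 hr)
    have hΔ : 0 < κ * (ctr κ r * N) := by
      have : 0 < ctr κ r := by linarith
      positivity
    have h1 : Ut κ N n = lt (ctr κ r * N) (κ * (ctr κ r * N)) n := by
      unfold Ut
      apply Finset.sum_eq_single_of_mem r hr
      intro s hs hsr
      by_contra hne
      have hcs := ctr_range hκ (Finset.mem_range.1 hs)
      have hΔs : 0 < κ * (ctr κ s * N) := by
        have : 0 < ctr κ s := by linarith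
        positivity
      have h2 := abs_lt.1 (lt_pos_iff hΔ hr2)
      have h3 := abs_lt.1 (lt_pos_iff hΔs hne)
      have h4 : κ * (ctr κ r * N) ≤ κ * (1 / 4 * N) := by gcongr; exact hc.2
      have h5 : κ * (ctr κ s * N) ≤ κ * (1 / 4 * N) := by gcongr; exact hcs.2
      have h6 : (ctr κ s - ctr κ r) * N = ((s : ℝ) - r) * (κ * N) := by
        unfold ctr
        ring
      have hκN : 0 < κ * N := by positivity
      rcases lt_or_gt_of_ne hsr with h7 | h7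
      · have h8 : (s : ℝ) + 1 ≤ r := by exact_mod_cast h7
        have h9 : ((s : ℝ) - r) * (κ * N) ≤ (-1) * (κ * N) :=
          mul_le_mul_of_nonneg_right (by linarith) hκN.le
        nlinarith
      · have h8 : (r : ℝ) + 1 ≤ s := by exact_mod_cast h7
        have h9 : 1 * (κ * N) ≤ ((s : ℝ) - r) * (κ * N) :=
          mul_le_mul_of_nonneg_right (by linarith) hκN.le
        nlinarith
    rw [h1]
    exact lt_le_one _ _ _ hΔ
  · push Not at h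
    have : Ut κ N n = 0 := Finset.sum_eq_zero h
    rw [this]
    norm_num

theorem ctr_sum {κ : ℝ} (hκ : 0 < κ) : 1 / 64 ≤ ∑ r ∈ range (Rn κ), κ * ctr κ r := by
  have h1 : ∑ _r ∈ range (Rn κ), κ * (1 / 8) ≤ ∑ r ∈ range (Rn κ), κ * ctr κ r := by
    apply Finset.sum_le_sum
    intro r hr
    have := (ctr_range hκ (Finset.mem_range.1 hr)).1
    gcongr
  refine le_trans ?_ h1
  rw [Finset.sum_const, Finset.card_range, nsmul_eq_mul]
  have h2 : 1 / (8 * κ) ≤ (Rn κ : ℝ) := by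
    unfold Rn
    push_cast
    exact (Nat.lt_floor_add_one _).le
  calc (1 / 64 : ℝ) = 1 / (8 * κ) * (κ * (1 / 8)) := by field_simp; norm_num
    _ ≤ _ := by gcongr

/-- comparison of the sizes -/
theorem MM_le {k : ℕ} (α h : Fin k → ℤ) (D N B : ℕ) (ρ κ : ℝ) (hκ : 0 < κ) (hD : 2 ≤ D)
    (hW : 1 ≤ WW D / 2) (hV : 0 < Pool.Agent.W25.UN.VV α h N D (DB (2 * N) B))
    (hb : 0 < bb N B ρ) :
    MM α h D N B ρ ≤ 512 * ∑ r ∈ range (Rn κ),
      ZZ k (Pool.Agent.W25.UN.VV α h N D (DB (2 * N) B)) (κ * (ctr κ r * N)) (WW D)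
        (BD (DB (2 * N) B)) (ρ * Real.log N) := by
  have hWW : ((WW D : ℕ) : ℝ) = 2 * ((WW D / 2 : ℕ) : ℝ) := by
    have h1 : 2 * (WW D / 2) = WW D := Nat.mul_div_cancel' (two_dvd_WW hD)
    have h2 : ((2 * (WW D / 2) : ℕ) : ℝ) = ((WW D : ℕ) : ℝ) := by rw [h1]
    rw [← h2]
    push_cast
    ring
  have hW' : (0 : ℝ) < ((WW D / 2 : ℕ) : ℝ) := by exact_mod_cast (by omega : 0 < WW D / 2)
  set w : ℝ := ((WW D / 2 : ℕ) : ℝ) with hw
  set V : ℝ := Pool.Agent.W25.UN.VV α h N D (DB (2 * N) B) with hVd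
  have e1 : ∑ r ∈ range (Rn κ), ZZ k V (κ * (ctr κ r * N)) (WW D)
        (BD (DB (2 * N) B)) (ρ * Real.log N) =
      (V * N / (2 * w) * (bb N B ρ / 48 * bb N B ρ ^ k)) * ∑ r ∈ range (Rn κ), κ * ctr κ r := by
    rw [Finset.mul_sum]
    refine Finset.sum_congr rfl fun r _ => ?_
    unfold ZZ
    rw [hWW]
    have : BD (DB (2 * N) B) * (ρ * Real.log N) = bb N B ρ := rfl
    have h2 : BD (DB (2 * N) B) * (ρ * Real.log N / 48) = bb N B ρ / 48 := by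
      rw [← this]; ring
    rw [this, h2]
    ring
  rw [e1]
  have h1 := ctr_sum hκ
  have hX : 0 ≤ V * N / (2 * w) * (bb N B ρ / 48 * bb N B ρ ^ k) := by positivity
  have h2 := mul_le_mul_of_nonneg_left h1 hX
  unfold MM
  rw [← hVd, ← hw]
  have e2 : ((2 * N : ℕ) : ℝ) * (V / w * (bb N B ρ / 48 * bb N B ρ ^ k)) =
      4 * (V * N / (2 * w) * (bb N B ρ / 48 * bb N B ρ ^ k)) := by
    push_cast
    field_simp
    ring
  rw [e2]
  linarith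

end Pool.Agent.W25.UB
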