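import Mathlib
import Pool.Agent.W25.UB.AsmC
import Pool.Agent.W25.UB.Stm4
import Pool.Agent.W25.UN.Ev

/-! Project UB: the uniform coloured theorem with four classes from the outcome of the sieve. -/

set_option autoImplicit false

namespace Pool.Agent.W25.UB

open Finset Filter Topology
open Pool.Agent.H410R2 hiding GP GP_prof GP_cut_some GP_cut_none GP_lip gg_pos gg_le_one gg_anti ee_bound ee_nonneg gg_lip LB_gg LB_ee Sums exists_sums yx wx wxi Br sum_GP_none sum_GP_some sum_GP_some_ee sum_GP_some_one sum_GPr_none sum_GPr_some S1_final QI_final S2_final w_abs_le wmax gg ee I1 I2 IE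
open Pool.Agent.H361R2.GM
open Pool.Agent.H362R2.CM
open Pool.Agent.W25.UN

theorem thmV_of (hR2 : St_R2) (hDAT : St_DAT) (hNUM : St_NUM) (hTWa : St_TWa) (hTWb : St_TWb)
    (hU0 : St_U0) (hL1 : St_L1) (hU2 : St_U2) (hUD : St_UD) (hNWE : St_NWE) (hPt : PtwU)
    (hVLN : St_VLN) : ThmV := by
  classical
  obtain ⟨ε₀, η, hε₀, hε₀1, hη, hη1, hR⟩ := hR2
  set η₀ : ℝ := min (ε₀ / 10) η / 16 with hη₀d
  have hη₀ : 0 < η₀ := by
    have : 0 < min (ε₀ / 10) η := lt_min (by positivity) hη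
    positivity
  have hη₀1 : 16 * η₀ ≤ ε₀ / 10 := by
    have : 16 * η₀ = min (ε₀ / 10) η := by rw [hη₀d]; ring
    rw [this]
    exact min_le_left _ _
  have hη₀2 : 16 * η₀ ≤ η := by
    have : 16 * η₀ = min (ε₀ / 10) η := by rw [hη₀d]; ring
    rw [this]
    exact min_le_right _ _
  obtain ⟨εs, hεs, hD1⟩ := hDAT ε₀ η hε₀ hε₀1 hη hη1 hR η₀ hη₀ hη₀1 hη₀2
  obtain ⟨e₁, he₁, hN1⟩ := hNUM ε₀ hε₀ hε₀1
  set ε₁ : ℝ := min (min εs e₁) (min η₀ (1 / 4)) with hε₁d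
  have hε₁ : 0 < ε₁ := lt_min (lt_min hεs he₁) (lt_min hη₀ (by norm_num))
  have h1 : ε₁ ≤ εs := (min_le_left _ _).trans (min_le_left _ _)
  have h2 : ε₁ ≤ e₁ := (min_le_left _ _).trans (min_le_right _ _)
  have h3 : ε₁ ≤ η₀ := (min_le_right _ _).trans (min_le_left _ _)
  have h4 : ε₁ ≤ 1 / 4 := (min_le_right _ _).trans (min_le_right _ _)
  obtain ⟨C1, hC1, hD2⟩ := hD1 ε₁ hε₁ h1
  obtain ⟨K, Q, ε, hK, hε, hε3, hI1, hI2, hBr, hBr2, hnum⟩ := hN1 ε₁ hε₁ h2 C1 hC1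
  obtain ⟨B₀, hB₀, hD3⟩ := hD2 (4 * K) Q (ε₁ / 4) (ε₁ / 2) ε (by omega) (by linarith)
    (by linarith) (by linarith) (by linarith) hε hε3 hI1 hI2
  refine ⟨K, hK, ?_⟩
  intro α h cl hcl hα hdist
  obtain ⟨Da, hTa⟩ := hTWa (4 * K) Q (ε₁ / 4) (ε₁ / 2) ε B₀ (by omega) (by linarith)
    (by linarith) (by linarith) (by linarith) hε hε3 hI1 hI2 (by omega) α h hα hdist
  obtain ⟨Db, hTb⟩ := hTWb (4 * K) Q (ε₁ / 4) (ε₁ / 2) ε B₀ (by omega) (by linarith)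
    (by linarith) (by linarith) (by linarith) hε hε3 hI1 hI2 hBr (by omega) α h hα hdist
  refine ⟨Da + Db + 2 * (4 * K + 1) + 2, ?_⟩
  intro D hD η' hη'
  have hκ : 0 < ε / 400 := by positivity
  have hI2p : 0 < Q.I2 := hε.trans hI2
  have evTa : ∀ᶠ N : ℕ in atTop, ∀ r ∈ range (Rn (ε / 400)), ∀ v : ℕ,
      (∀ j, ∀ n : ℤ, n ≡ v [ZMOD (WW D)] →
        IsCoprime (uB α j * n + wB h N j) ((WW D : ℕ) : ℤ)) →
      ∀ Z : ℝ, Z = ZZ (4 * K) (Pool.Agent.W25.UN.VV α h N D (DB (2 * N) B₀))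
          (ε / 400 * (ctr (ε / 400) r * N)) (WW D)
          (BD (DB (2 * N) B₀)) (ε₁ / 4 * Real.log N) →
      ∑ n ∈ Ns α h D (DB (2 * N) B₀) N v N,
        lt (ctr (ε / 400) r * N) (ε / 400 * (ctr (ε / 400) r * N)) n *
        (wZ Q (uB α) (wB h N) (PB α h N B₀ (ε₁ / 2)) (ε₁ / 4 * Real.log N) n) ^ 2 ≤
          Z * Ac Q (4 * K) ε := by
    rw [Filter.eventually_all_finset]
    intro r hr
    have hc := ctr_range hκ (Finset.mem_range.1 hr)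
    exact hTa D (by omega) (ctr (ε / 400) r) hc.1 hc.2
  have evTb : ∀ᶠ N : ℕ in atTop, ∀ r ∈ range (Rn (ε / 400)), ∀ v : ℕ,
      (∀ j, ∀ n : ℤ, n ≡ v [ZMOD (WW D)] →
        IsCoprime (uB α j * n + wB h N j) ((WW D : ℕ) : ℤ)) →
      ∀ Z : ℝ, Z = ZZ (4 * K) (Pool.Agent.W25.UN.VV α h N D (DB (2 * N) B₀))
          (ε / 400 * (ctr (ε / 400) r * N)) (WW D)
          (BD (DB (2 * N) B₀)) (ε₁ / 4 * Real.log N) →
      ∀ i : Fin (4 * K), Z * (ε₁ / 4 * βc Q (4 * K) ε) ≤ ∑ n ∈ Ns α h D (DB (2 * N) B₀) N v N,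
      (if (Fm α h N i n).toNat.Prime then
        lt (ctr (ε / 400) r * N) (ε / 400 * (ctr (ε / 400) r * N)) n *
        (wZ Q (uB α) (wB h N) (PB α h N B₀ (ε₁ / 2)) (ε₁ / 4 * Real.log N) n) ^ 2 else 0) := by
    rw [Filter.eventually_all_finset]
    intro r hr
    have hc := ctr_range hκ (Finset.mem_range.1 hr)
    exact hTb D (by omega) (ctr (ε / 400) r) hc.1 hc.2
  have evh : ∀ᶠ N : ℕ in atTop, ∀ i, |(h i : ℝ)| ≤ N / 8 := by
    rw [Filter.eventually_all]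
    intro i
    filter_upwards [eventually_ge_atTop ⌈8 * |(h i : ℝ)|⌉₊] with N hN
    have h5 : 8 * |(h i : ℝ)| ≤ N := (Nat.le_ceil _).trans (by exact_mod_cast hN)
    linarith
  filter_upwards [hD3 B₀ le_rfl D (by omega) α h hα hdist, evTa, evTb, evh,
    hPt (4 * K) α h Q (η' / 4) (by linarith),
    hVLN (4 * K) B₀ D ε₁ (ε₁ / 4) (by omega) (by omega) hε₁ (by linarith) (by linarith) α h hα,
    eventually_gt_atTop 1, ev_poly 8 0 ε₁ 1 (by linarith),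
    ev_poly (24576 * ((WW D / 2 : ℕ) : ℝ) / (ε * Ac Q (4 * K) ε)) 1 (1 - η' + η' / 4) 1
      (by linarith)]
    with N hdat hTa' hTb' hh hpt hvln hN1' hp8 hpl
  intro v hv
  obtain ⟨M, A, E₁, D₁, z, Tr, t, th, dl, b, H⟩ := hdat v
  have hN0 : (0 : ℝ) < N := by exact_mod_cast (by omega : 0 < N)
  have hbig : ((2 * N : ℕ) : ℝ) ^ ε₁ ≤ N / 4 := by
    push_cast
    rw [Real.mul_rpow (by norm_num) hN0.le]
    have h5 : (2 : ℝ) ^ ε₁ ≤ 2 := by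
      calc (2 : ℝ) ^ ε₁ ≤ (2 : ℝ) ^ (1 : ℝ) :=
            Real.rpow_le_rpow_of_exponent_le (by norm_num) (by linarith)
        _ = 2 := Real.rpow_one 2
    rw [pow_zero, mul_one, Real.rpow_one] at hp8
    have h6 : (2 : ℝ) ^ ε₁ * (N : ℝ) ^ ε₁ ≤ 2 * (N : ℝ) ^ ε₁ :=
      mul_le_mul_of_nonneg_right h5 (by positivity)
    linarith
  have hcop : ∀ j, ∀ n : ℤ, n ≡ v [ZMOD (WW D)] →
      IsCoprime (uB α j * n + wB h N j) ((WW D : ℕ) : ℤ) := hv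
  have hpt' : ∀ n : ℕ, 1 ≤ n → n ≤ N → (∀ i, (N : ℤ) + α i * n + h i ≠ 0) →
      (wZ Q (uB α) (wB h N) (PB α h N B₀ (ε₁ / 2)) (ε₁ / 4 * Real.log N) n) ^ 2 ≤
        (N : ℝ) ^ (η' / 4) := by
    intro n hn1 hn2 hn3
    refine (hpt (PB α h N B₀ (ε₁ / 2)) (ε₁ / 4 * Real.log N) ?_ ?_ H.sd n hn1 hn2 hn3).1
    · have := H.l1
      positivity
    · intro p hp
      have h5 := H.gd p (Finset.mem_union_left _ hp)
      refine ⟨h5.1.1, ?_⟩
      have h6 : (p : ℝ) ≤ N := by linarith [h5.2.2]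
      exact_mod_cast h6
  have hres := core_at hU0 hL1 hU2 hUD hNWE hε₀ hI1 hI2 hBr hBr2 hnum H cl hcl (by omega)
    (fun r hr => hTa' r (Finset.mem_range.2 hr) v hcop _ rfl)
    (fun r hr => hTb' r (Finset.mem_range.2 hr) v hcop _ rfl) hh hbig (η' / 4) η' hpt'
    hvln.2.2.2.1 hpl
  convert hres using 4

end Pool.Agent.W25.UB
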