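import Pool.Agent.W25.UB.Stm2

/-! Project UB (helper25), part NWU: supports, sizes and upper bounds for the modified weights. -/

set_option autoImplicit false

namespace Pool.Agent.W25.UB.NWUf

open Finset
open Pool.Agent.H410R2 hiding GP GP_prof GP_cut_some GP_cut_none GP_lip gg_pos gg_le_one gg_anti ee_bound ee_nonneg gg_lip LB_gg LB_ee Sums exists_sums yx wx wxi Br sum_GP_none sum_GP_some sum_GP_some_ee sum_GP_some_one sum_GPr_none sum_GPr_some S1_final QI_final S2_final w_abs_le wmax gg ee I1 I2 IE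
open Pool.Agent.H361R2.GM
open Pool.Agent.H362R2.CM
open Pool.Agent.W25.UN
open Pool.Agent.W25.UB

/-- `p / (p - 1)` -/
noncomputable def rr (p : ℕ) : ℝ := (p : ℝ) / ((p : ℝ) - 1)

section gen
variable {ι J : Type} [Fintype ι] [DecidableEq ι] [Fintype J] [DecidableEq J]

theorem pm1 {p : ℕ} (hp : 2 ≤ p) : (0 : ℝ) < (p : ℝ) - 1 := by
  have : (2 : ℝ) ≤ p := by exact_mod_cast hp
  linarith

theorem rr_one {p : ℕ} (hp : 2 ≤ p) : 1 ≤ rr p := by
  unfold rr
  rw [one_le_div (pm1 hp)]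
  linarith

theorem rr_pos {p : ℕ} (hp : 2 ≤ p) : 0 < rr p := zero_lt_one.trans_le (rr_one hp)

theorem mulc_mul (pr : ι → ℕ) (f g : ℕ → ℝ) (σ : ι → Option J) :
    mulc pr f σ * mulc pr g σ = mulc pr (fun p => f p * g p) σ := by
  unfold mulc
  rw [← Finset.prod_mul_distrib]
  refine Finset.prod_congr rfl fun t _ => ?_
  split_ifs <;> simp

theorem mulc_nonneg (pr : ι → ℕ) (f : ℕ → ℝ) (hf : ∀ t, 0 ≤ f (pr t)) (σ : ι → Option J) :
    0 ≤ mulc pr f σ := by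
  unfold mulc
  refine Finset.prod_nonneg fun t _ => ?_
  split_ifs
  · exact zero_le_one
  · exact hf t

theorem lg_empty (pr : ι → ℕ) : lg pr (∅ : Finset ι) = 0 := by simp [lg]

theorem lg_le_zero (pr : ι → ℕ) (hp : ∀ t, 2 ≤ pr t) (a : Finset ι) (h : lg pr a ≤ 0) : a = ∅ := by
  by_contra hne
  obtain ⟨t, ht⟩ := Finset.nonempty_iff_ne_empty.2 hne
  have h1 : Real.log (pr t) ≤ lg pr a :=
    Finset.single_le_sum (f := fun t => Real.log (pr t)) (fun t _ => Real.log_natCast_nonneg _) ht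
  have h2 : 0 < Real.log (pr t) := by
    apply Real.log_pos
    have : 2 ≤ pr t := hp t
    have : (2 : ℝ) ≤ pr t := by exact_mod_cast this
    linarith
  linarith

/-- removal of the colour `j` -/
noncomputable def cut (j : J) (GG : J → Finset ι → ℝ) (l : J) (a : Finset ι) : ℝ :=
  if l = j then (if a = ∅ then 1 else 0) else GG l a

theorem cut_nonneg (j : J) (GG : J → Finset ι → ℝ) (hGG : ∀ l a, 0 ≤ GG l a) (l : J)
    (a : Finset ι) : 0 ≤ cut j GG l a := by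
  unfold cut
  split_ifs
  · exact zero_le_one
  · exact le_rfl
  · exact hGG l a

/-- bounds for weights -/
def Bnd (pr : ι → ℕ) (y : (ι → Option J) → ℝ) (C : ℝ) (m : ℕ) (GG : J → Finset ι → ℝ) : Prop :=
  0 ≤ C ∧ (∀ l a, 0 ≤ GG l a) ∧ (∀ σ, 0 ≤ y σ) ∧
    ∀ σ, y σ ≤ C * (mulc pr (fun p => rr p ^ m) σ * ∏ l, GG l (fib σ l))

theorem step (j : J) (pr : ι → ℕ) (hp : ∀ t, 2 ≤ pr t) (y : (ι → Option J) → ℝ) (C : ℝ) (m : ℕ)
    (GG : J → Finset ι → ℝ) (hB : Bnd pr y C m GG) :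
    Bnd pr (ymod j pr (uj j pr 0) y)
      (C * ∑ a : Finset ι, GG j a * ∏ t ∈ a, (1 / ((pr t : ℝ) - 1) * rr (pr t) ^ m)) (m + 1)
      (cut j GG) := by
  obtain ⟨hC, hGG, hy0, hy⟩ := hB
  have hp1 : ∀ t, (0 : ℝ) < (pr t : ℝ) - 1 := fun t => pm1 (hp t)
  have hr0 : ∀ t, 0 < rr (pr t) := fun t => rr_pos (hp t)
  set S := ∑ a : Finset ι, GG j a * ∏ t ∈ a, (1 / ((pr t : ℝ) - 1) * rr (pr t) ^ m) with hS
  have hS0 : 0 ≤ S := Finset.sum_nonneg fun a _ => mul_nonneg (hGG j a)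
    (Finset.prod_nonneg fun t _ => by have := hp1 t; have := hr0 t; positivity)
  refine ⟨mul_nonneg hC hS0, cut_nonneg j GG hGG,
    ymod_nonneg j pr hp _ _ (uj_nonneg j pr 0) hy0, ?_⟩
  intro σ
  have hR0 : 0 ≤ C * S * (mulc pr (fun p => rr p ^ (m + 1)) σ * ∏ l, cut j GG l (fib σ l)) :=
    mul_nonneg (mul_nonneg hC hS0) (mul_nonneg
      (mulc_nonneg pr _ (fun t => by have := hr0 t; positivity) σ)
      (Finset.prod_nonneg fun l _ => cut_nonneg j GG hGG l _))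
  by_cases hf : fib σ j = ∅
  · set H : J → Finset ι → ℝ := fun l a => (if l = j then C else 1) *
      (GG l a * ∏ t ∈ a, rr (pr t) ^ m) with hH
    have hH0 : ∀ l a, 0 ≤ H l a := by
      intro l a
      rw [hH]
      refine mul_nonneg (by split_ifs; exact hC; exact zero_le_one) (mul_nonneg (hGG l a) ?_)
      exact Finset.prod_nonneg fun t _ => by have := hr0 t; positivity
    have hyH : ∀ τ, y τ ≤ ∏ l, H l (fib τ l) := by
      intro τ
      refine (hy τ).trans (le_of_eq ?_)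
      rw [hH]
      simp only
      rw [Finset.prod_mul_distrib, Finset.prod_mul_distrib, Finset.prod_ite_eq' univ j (fun _ => C),
        if_pos (Finset.mem_univ j), mulc_eq]
      ring
    have h := ymod_le j pr hp 0 le_rfl y H hH0 hyH σ
    set Z := ∑ a : Finset ι, (if lg pr a ≤ 0 then (1 : ℝ) else 0) *
      ∏ t ∈ a, (1 / ((pr t : ℝ) - 1)) with hZ
    have hZ1 : 1 ≤ Z := by
      have h1 : (if lg pr (∅ : Finset ι) ≤ 0 then (1 : ℝ) else 0) *
          ∏ t ∈ (∅ : Finset ι), (1 / ((pr t : ℝ) - 1)) ≤ Z :=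
        Finset.single_le_sum (f := fun a : Finset ι => (if lg pr a ≤ 0 then (1 : ℝ) else 0) *
          ∏ t ∈ a, (1 / ((pr t : ℝ) - 1)))
          (fun a _ => mul_nonneg (by split_ifs <;> norm_num)
            (Finset.prod_nonneg fun t _ => by have := hp1 t; positivity)) (Finset.mem_univ ∅)
      rw [if_pos (by rw [lg_empty]), Finset.prod_empty] at h1
      linarith
    have eS : ∑ a : Finset ι, H j a * ∏ t ∈ a, (1 / ((pr t : ℝ) - 1)) = C * S := by
      rw [hS, Finset.mul_sum]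
      refine Finset.sum_congr rfl fun a _ => ?_
      rw [hH]
      simp only [if_true]
      rw [Finset.prod_mul_distrib]
      ring
    rw [eS] at h
    have hu : uj j pr 0 σ ≤ 1 := uj_le_one j pr 0 σ
    have hu0 : 0 ≤ uj j pr 0 σ := uj_nonneg j pr 0 σ
    have eE : ∏ l ∈ univ.erase j, H l (fib σ l) =
        mulc pr (fun p => rr p ^ m) σ * ∏ l, cut j GG l (fib σ l) := by
      rw [mulc_eq, ← Finset.prod_mul_distrib,
        ← Finset.mul_prod_erase univ (fun l => (∏ t ∈ fib σ l, rr (pr t) ^ m) *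
          cut j GG l (fib σ l)) (Finset.mem_univ j)]
      have e1 : (∏ t ∈ fib σ j, rr (pr t) ^ m) * cut j GG j (fib σ j) = 1 := by
        rw [hf]
        simp [cut]
      rw [e1, one_mul]
      refine Finset.prod_congr rfl fun l hl => ?_
      have hl' := Finset.ne_of_mem_erase hl
      rw [hH]
      simp only [cut, if_neg hl']
      ring
    rw [eE] at h
    have hm0 : 0 ≤ mulc pr (fun p => rr p ^ m) σ * ∏ l, cut j GG l (fib σ l) :=
      mul_nonneg (mulc_nonneg pr _ (fun t => by have := hr0 t; positivity) σ)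
        (Finset.prod_nonneg fun l _ => cut_nonneg j GG hGG l _)
    have hm1 : 0 ≤ mulc pr (fun p => (p : ℝ) / ((p : ℝ) - 1)) σ :=
      mulc_nonneg pr _ (fun t => (hr0 t).le) σ
    have hCS : C * S / Z ≤ C * S := div_le_self (mul_nonneg hC hS0) hZ1
    calc ymod j pr (uj j pr 0) y σ ≤ C * S / Z * (mulc pr (fun p => (p : ℝ) / ((p : ℝ) - 1)) σ *
          ((mulc pr (fun p => rr p ^ m) σ * ∏ l, cut j GG l (fib σ l)) * uj j pr 0 σ)) := h
      _ ≤ C * S * (mulc pr (fun p => (p : ℝ) / ((p : ℝ) - 1)) σ *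
          ((mulc pr (fun p => rr p ^ m) σ * ∏ l, cut j GG l (fib σ l)) * 1)) := by
          gcongr
      _ = C * S * ((mulc pr (fun p => rr p ^ m) σ * mulc pr (fun p => rr p) σ) *
          ∏ l, cut j GG l (fib σ l)) := by
          unfold rr
          ring
      _ = _ := by
          rw [mulc_mul]
          simp only [pow_succ]
  · have hu : uj j pr 0 σ = 0 := by
      unfold uj
      rw [if_neg]
      intro hle
      exact hf (lg_le_zero pr hp _ hle)
    have : ymod j pr (uj j pr 0) y σ = 0 := by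
      unfold ymod
      rw [hu, mul_zero]
    rw [this]
    exact hR0

theorem diag (pr : ι → ℕ) (hp : ∀ t, 2 ≤ pr t) (z : (ι → Option J) → ℝ) (C : ℝ) (m : ℕ)
    (GG : J → Finset ι → ℝ) (hB : Bnd pr z C m GG) :
    ∑ σ, cw pr z σ ^ 2 * mulc pr (fun p => (p : ℝ)) σ ≤
      C ^ 2 * ∏ l, ∑ a : Finset ι, (∏ t ∈ a, gB m (pr t)) * GG l a ^ 2 := by
  obtain ⟨hC, hGG, hz0, hz⟩ := hB
  have hp1 : ∀ t, (0 : ℝ) < (pr t : ℝ) - 1 := fun t => pm1 (hp t)
  have hp0 : ∀ t, (0 : ℝ) < (pr t : ℝ) := fun t => by have := hp1 t; linarith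
  have hr0 : ∀ t, 0 < rr (pr t) := fun t => rr_pos (hp t)
  have hg0 : ∀ t, 0 ≤ gB m (pr t) := fun t => by
    have := hp1 t
    have := hp0 t
    unfold gB
    positivity
  calc ∑ σ, cw pr z σ ^ 2 * mulc pr (fun p => (p : ℝ)) σ
      ≤ ∑ σ : ι → Option J, C ^ 2 * ∏ l, ((∏ t ∈ fib σ l, gB m (pr t)) * GG l (fib σ l) ^ 2) := by
        apply Finset.sum_le_sum
        intro σ _
        rw [← sq_abs (cw pr z σ), abs_cw pr hp, abs_of_nonneg (hz0 σ)]
        have e1 : (mulc pr (fun p => 1 / ((p : ℝ) - 1)) σ) ^ 2 * mulc pr (fun p => (p : ℝ)) σ *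
            (mulc pr (fun p => rr p ^ m) σ) ^ 2 = ∏ l, ∏ t ∈ fib σ l, gB m (pr t) := by
          rw [pow_two, pow_two, mulc_mul, mulc_mul, mulc_mul, mulc_mul, mulc_eq]
          refine Finset.prod_congr rfl fun l _ => Finset.prod_congr rfl fun t _ => ?_
          have hne := (hp1 t).ne'
          have e3 : 1 / ((pr t : ℝ) - 1) * (1 / ((pr t : ℝ) - 1)) * (pr t : ℝ) =
              (pr t : ℝ) / ((pr t : ℝ) - 1) ^ 2 := by field_simp
          have e4 : ((pr t : ℝ) / ((pr t : ℝ) - 1)) ^ (2 * m) =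
              ((pr t : ℝ) / ((pr t : ℝ) - 1)) ^ m * ((pr t : ℝ) / ((pr t : ℝ) - 1)) ^ m := by
            rw [two_mul, pow_add]
          simp only [gB, rr]
          rw [e4, e3]
        have e2 : z σ ^ 2 ≤ C ^ 2 * ((mulc pr (fun p => rr p ^ m) σ) ^ 2 *
            ∏ l, GG l (fib σ l) ^ 2) := by
          rw [Finset.prod_pow, ← mul_pow, ← mul_pow]
          exact pow_le_pow_left₀ (hz0 σ) (hz σ) 2
        have n1 : 0 ≤ (mulc pr (fun p => 1 / ((p : ℝ) - 1)) σ) ^ 2 *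
            mulc pr (fun p => (p : ℝ)) σ :=
          mul_nonneg (sq_nonneg _) (mulc_nonneg pr _ (fun t => (hp0 t).le) σ)
        rw [Finset.prod_mul_distrib, ← e1]
        calc (mulc pr (fun p => 1 / ((p : ℝ) - 1)) σ * z σ) ^ 2 * mulc pr (fun p => (p : ℝ)) σ
            = ((mulc pr (fun p => 1 / ((p : ℝ) - 1)) σ) ^ 2 *
                mulc pr (fun p => (p : ℝ)) σ) * z σ ^ 2 := by ring
          _ ≤ ((mulc pr (fun p => 1 / ((p : ℝ) - 1)) σ) ^ 2 *
                mulc pr (fun p => (p : ℝ)) σ) * (C ^ 2 * ((mulc pr (fun p => rr p ^ m) σ) ^ 2 *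
                ∏ l, GG l (fib σ l) ^ 2)) := mul_le_mul_of_nonneg_left e2 n1
          _ = _ := by ring
    _ = C ^ 2 * ∑ σ : ι → Option J, ∏ l, ((∏ t ∈ fib σ l, gB m (pr t)) * GG l (fib σ l) ^ 2) := by
        rw [Finset.mul_sum]
    _ ≤ _ := by
        apply mul_le_mul_of_nonneg_left _ (sq_nonneg _)
        apply sum_tuple_le (fun l a => (∏ t ∈ a, gB m (pr t)) * GG l a ^ 2)
        intro l a
        exact mul_nonneg (Finset.prod_nonneg fun t _ => hg0 t) (sq_nonneg _)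

/-- support of the modified weights -/
theorem supp (j : J) (pr : ι → ℕ) (hp : ∀ t, 2 ≤ pr t) (y : (ι → Option J) → ℝ)
    (σ : ι → Option J) (h : ymod j pr (uj j pr 0) y σ ≠ 0) :
    (∀ t, σ t ≠ some j) ∧ ∃ τ, y τ ≠ 0 ∧ lgt pr σ ≤ lgt pr τ ∧ ∀ l, l ≠ j → fib σ l = fib τ l := by
  unfold ymod at h
  have h1 : uj j pr 0 σ ≠ 0 := right_ne_zero_of_mul h
  have h2 : YY j pr y (era j σ) ≠ 0 := by
    intro h0
    rw [h0, zero_div, zero_mul] at h
    exact h rfl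
  have h3 : fib σ j = ∅ := by
    by_contra hcon
    apply h1
    unfold uj
    rw [if_neg]
    intro hle
    exact hcon (lg_le_zero pr hp _ hle)
  obtain ⟨τ, -, hτ⟩ := Finset.exists_ne_zero_of_sum_ne_zero h2
  have h4 : y τ ≠ 0 := left_ne_zero_of_mul hτ
  have h5 : era j τ = era j σ := psi_supp j pr τ _ (era_ne j σ) (right_ne_zero_of_mul hτ)
  have h6 : ∀ l, l ≠ j → fib σ l = fib τ l := by
    intro l hl
    rw [← era_fib j σ l hl, ← era_fib j τ l hl, h5]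
  refine ⟨(fib_eq_empty σ j).1 h3, τ, h4, ?_, h6⟩
  rw [lgt_eq, lgt_eq]
  apply Finset.sum_le_sum
  intro l _
  by_cases hl : l = j
  · rw [hl, h3, lg_empty]
    exact lg_nonneg _ _
  · rw [h6 l hl]

/-- size of the modified weights -/
theorem size (j : J) (pr : ι → ℕ) (hp : ∀ t, 2 ≤ pr t) (y : (ι → Option J) → ℝ) (M : ℝ)
    (hM : 0 ≤ M) (hy0 : ∀ σ, 0 ≤ y σ) (hy : ∀ σ, y σ ≤ M) (σ : ι → Option J) :
    ymod j pr (uj j pr 0) y σ ≤ M * (∏ t, rr (pr t)) ^ 2 := by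
  have hp1 : ∀ t, (0 : ℝ) < (pr t : ℝ) - 1 := fun t => pm1 (hp t)
  have hr0 : ∀ t, 0 < rr (pr t) := fun t => rr_pos (hp t)
  have hB : Bnd pr y M 0 (fun _ _ => 1) := by
    refine ⟨hM, fun _ _ => zero_le_one, hy0, fun σ => ?_⟩
    have e : mulc pr (fun p => rr p ^ 0) σ = 1 := by
      unfold mulc
      simp
    rw [e, Finset.prod_const_one, mul_one, mul_one]
    exact hy σ
  obtain ⟨-, -, -, h⟩ := step j pr hp y M 0 (fun _ _ => 1) hB
  refine (h σ).trans ?_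
  have e1 : ∑ a : Finset ι, (1 : ℝ) * ∏ t ∈ a, (1 / ((pr t : ℝ) - 1) * rr (pr t) ^ 0) =
      ∏ t, rr (pr t) := by
    have e2 : ∏ t : ι, rr (pr t) = ∏ t : ι, (1 + 1 / ((pr t : ℝ) - 1)) := by
      refine Finset.prod_congr rfl fun t _ => ?_
      have := (hp1 t).ne'
      unfold rr
      field_simp
      ring
    rw [e2, Finset.prod_one_add]
    rw [Finset.powerset_univ]
    refine Finset.sum_congr rfl fun a _ => ?_
    simp
  rw [e1]
  have h2 : mulc pr (fun p => rr p ^ (0 + 1)) σ ≤ ∏ t, rr (pr t) := by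
    unfold mulc
    apply Finset.prod_le_prod
    · intro t _
      split_ifs
      · exact zero_le_one
      · have := hr0 t
        positivity
    · intro t _
      split_ifs
      · exact rr_one (hp t)
      · simp
  have h3 : ∏ l, cut j (fun _ _ => (1 : ℝ)) l (fib σ l) ≤ 1 := by
    refine Finset.prod_le_one (fun l _ => cut_nonneg j _ (fun _ _ => zero_le_one) l _) fun l _ => ?_
    unfold cut
    split_ifs <;> norm_num
  have h4 : 0 ≤ ∏ l, cut j (fun _ _ => (1 : ℝ)) l (fib σ l) :=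
    Finset.prod_nonneg fun l _ => cut_nonneg j _ (fun _ _ => zero_le_one) l _
  have h5 : 0 ≤ ∏ t : ι, rr (pr t) := Finset.prod_nonneg fun t _ => (hr0 t).le
  have h6 : 0 ≤ mulc pr (fun p => rr p ^ (0 + 1)) σ :=
    mulc_nonneg pr _ (fun t => by have := hr0 t; positivity) σ
  calc M * (∏ t, rr (pr t)) * (mulc pr (fun p => rr p ^ (0 + 1)) σ *
        ∏ l, cut j (fun _ _ => (1 : ℝ)) l (fib σ l))
      ≤ M * (∏ t, rr (pr t)) * ((∏ t, rr (pr t)) * 1) := by gcongr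
    _ = _ := by ring

end gen

section spec
variable {k : ℕ}

theorem hB_zero : hB 0 = h0 := by
  funext p
  unfold hB h0
  rw [pow_zero, mul_one]

theorem bnd_A (Q : SPar) (P : Finset ℕ) (hP : ∀ p ∈ P, 2 ≤ p) (L : ℝ) (hL : 0 < L) (i : Fin k) :
    Bnd (prP P) (zA Q k P L i) (CZ Q P L L) 1 (fun l a => GQ Q k L L i l (lg (prP P) a)) := by
  have hG := GQ_prof Q k L L hL i
  refine ⟨CZ_nonneg Q P hP L L hL hL, fun l a => hG.nonneg l _ (lg_nonneg _ _),
    zP_nonneg Q P hP L L hL i, fun σ => ?_⟩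
  have h := zP_le Q P hP L L hL hL.le i σ
  have e : mulc (prP P) (fun p => rr p ^ 1) σ =
      mulc (prP P) (fun p => (p : ℝ) / ((p : ℝ) - 1)) σ := by
    congr 1
    funext p
    unfold rr
    rw [pow_one]
  rw [e]
  exact h

theorem sum_h (Q : SPar) (P : Finset ℕ) (hP : ∀ p ∈ P, 2 ≤ p) (L : ℝ) (i j : Fin k)
    (hij : i ≠ j) (m : ℕ) :
    ∑ a : Finset (IP P), GQ Q k L L i (some j) (lg (prP P) a) *
      ∏ t ∈ a, (1 / ((prP P t : ℝ) - 1) * rr (prP P t) ^ m) = SS P (hB m) Q.c L Q.gg := by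
  rw [← sumS_eq (k := k) Q P hP L (hB m) j]
  refine Finset.sum_congr rfl fun a _ => ?_
  have : (some j : Option (Fin k)) ≠ some i := fun h => hij (Option.some_inj.1 h).symm
  unfold GQ
  rw [if_neg this]
  rfl

theorem bnd_B (Q : SPar) (P : Finset ℕ) (hP : ∀ p ∈ P, 2 ≤ p) (L : ℝ) (hL : 0 < L) (i j : Fin k)
    (hij : i ≠ j) :
    Bnd (prP P) (zB Q k P L i j) (CZ Q P L L * SS P (hB 1) Q.c L Q.gg) 2
      (cut (some j) (fun l a => GQ Q k L L i l (lg (prP P) a))) := by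
  have h := step (some j) (prP P) (fun t => hP t.1 t.2) _ _ _ _ (bnd_A Q P hP L hL i)
  rw [sum_h Q P hP L i j hij 1] at h
  exact h

theorem bnd_C (Q : SPar) (P : Finset ℕ) (hP : ∀ p ∈ P, 2 ≤ p) (L : ℝ) (hL : 0 < L)
    (i j l : Fin k) (hij : i ≠ j) (hil : i ≠ l) (hjl : j ≠ l) :
    Bnd (prP P) (zC Q k P L i j l)
      (CZ Q P L L * SS P (hB 1) Q.c L Q.gg * SS P (hB 2) Q.c L Q.gg) 3
      (cut (some l) (cut (some j) (fun l a => GQ Q k L L i l (lg (prP P) a)))) := by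
  have h := step (some l) (prP P) (fun t => hP t.1 t.2) _ _ _ _ (bnd_B Q P hP L hL i j hij)
  have e : ∑ a : Finset (IP P), cut (some j) (fun l a => GQ Q k L L i l (lg (prP P) a)) (some l) a *
      ∏ t ∈ a, (1 / ((prP P t : ℝ) - 1) * rr (prP P t) ^ 2) = SS P (hB 2) Q.c L Q.gg := by
    rw [← sum_h Q P hP L i l hil 2]
    refine Finset.sum_congr rfl fun a _ => ?_
    have : (some l : Option (Fin k)) ≠ some j := fun h => hjl (Option.some_inj.1 h).symm
    unfold cut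
    rw [if_neg this]
  rw [e] at h
  exact h

theorem sum_cut (P : Finset ℕ) (j : Option (Fin k)) (GG : Option (Fin k) → Finset (IP P) → ℝ)
    (f : ℕ → ℝ) :
    ∑ a : Finset (IP P), (∏ t ∈ a, f (prP P t)) * cut j GG j a ^ 2 = 1 := by
  rw [Finset.sum_eq_single ∅]
  · simp [cut]
  · intro a _ ha
    simp [cut, ha]
  · intro h
    exact absurd (Finset.mem_univ _) h

/-- `∏ (1 + 4 / p)` -/
noncomputable def TT4 (P : Finset ℕ) : ℝ := ∏ t : IP P, (1 + 4 / (prP P t : ℝ))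

theorem R_le (P : Finset ℕ) (hP : ∀ p ∈ P, 2 ≤ p) :
    1 ≤ ∏ t : IP P, rr (prP P t) ∧ ∏ t : IP P, rr (prP P t) ≤ TT4 P := by
  constructor
  · have := Finset.prod_le_prod (s := (univ : Finset (IP P))) (f := fun _ => (1 : ℝ))
      (g := fun t => rr (prP P t)) (fun t _ => zero_le_one) (fun t _ => rr_one (hP t.1 t.2))
    simpa using this
  · unfold TT4
    refine Finset.prod_le_prod (fun t _ => (rr_pos (hP t.1 t.2)).le) fun t _ => ?_
    have h1 := pm1 (hP t.1 t.2)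
    have h2 : (2 : ℝ) ≤ (prP P t : ℝ) := by exact_mod_cast hP t.1 t.2
    have h3 : (0 : ℝ) < (prP P t : ℝ) := by linarith
    unfold rr
    rw [div_le_iff₀ h1]
    have e : (1 + 4 / (prP P t : ℝ)) * ((prP P t : ℝ) - 1) =
        (prP P t : ℝ) + 3 - 4 / (prP P t : ℝ) := by
      field_simp
      ring
    rw [e]
    have h4 : 4 / (prP P t : ℝ) ≤ 2 := by
      rw [div_le_iff₀ h3]
      linarith
    linarith

theorem sizes (Q : SPar) (P : Finset ℕ) (hP : ∀ p ∈ P, 2 ≤ p) (L : ℝ) (hL : 0 < L)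
    (i j l : Fin k) (σ : IP P → Option (Option (Fin k))) :
    |zA Q k P L i σ| ≤ TT4 P ^ 6 ∧ |zB Q k P L i j σ| ≤ TT4 P ^ 6 ∧
      |zC Q k P L i j l σ| ≤ TT4 P ^ 6 := by
  obtain ⟨hR1, hRT⟩ := R_le P hP
  set R := ∏ t : IP P, rr (prP P t) with hR
  have hp2 : ∀ t : IP P, 2 ≤ prP P t := fun t => hP t.1 t.2
  have hR0 : 0 ≤ R := zero_le_one.trans hR1
  have hcL : Q.c * L ≤ L := by
    have := Q.hc1
    nlinarith
  have hA0 : ∀ σ, 0 ≤ zA Q k P L i σ := zP_nonneg Q P hP L L hL i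
  have hA : ∀ σ, zA Q k P L i σ ≤ R := fun σ => zP_le_prod Q P hP L L hL hL hcL i σ
  have hB0 : ∀ σ, 0 ≤ zB Q k P L i j σ := ymod_nonneg _ _ hp2 _ _ (uj_nonneg _ _ 0) hA0
  have hB : ∀ σ, zB Q k P L i j σ ≤ R * R ^ 2 :=
    fun σ => size (some j) (prP P) hp2 (zA Q k P L i) R hR0 hA0 hA σ
  have hC0 : ∀ σ, 0 ≤ zC Q k P L i j l σ := ymod_nonneg _ _ hp2 _ _ (uj_nonneg _ _ 0) hB0
  have hC : ∀ σ, zC Q k P L i j l σ ≤ R * R ^ 2 * R ^ 2 :=
    fun σ => size (some l) (prP P) hp2 (zB Q k P L i j) (R * R ^ 2) (by positivity) hB0 hB σ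
  have hR6 : R ^ 6 ≤ TT4 P ^ 6 := pow_le_pow_left₀ hR0 hRT 6
  rw [abs_of_nonneg (hA0 σ), abs_of_nonneg (hB0 σ), abs_of_nonneg (hC0 σ)]
  refine ⟨(hA σ).trans (le_trans ?_ hR6), (hB σ).trans (le_trans ?_ hR6),
    (hC σ).trans (le_trans ?_ hR6)⟩
  · calc R = R ^ 1 := (pow_one R).symm
      _ ≤ R ^ 6 := pow_le_pow_right₀ hR1 (by norm_num)
  · calc R * R ^ 2 = R ^ 3 := by ring
      _ ≤ R ^ 6 := pow_le_pow_right₀ hR1 (by norm_num)
  · calc R * R ^ 2 * R ^ 2 = R ^ 5 := by ring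
      _ ≤ R ^ 6 := pow_le_pow_right₀ hR1 (by norm_num)

theorem gB_nonneg (m : ℕ) {p : ℕ} (hp : 2 ≤ p) : 0 ≤ gB m p := by
  have := pm1 hp
  have h2 : (2 : ℝ) ≤ p := by exact_mod_cast hp
  have h3 : (0 : ℝ) < p := by linarith
  unfold gB
  positivity

theorem hB_nonneg (m : ℕ) {p : ℕ} (hp : 2 ≤ p) : 0 ≤ hB m p := by
  have := pm1 hp
  have h2 : (2 : ℝ) ≤ p := by exact_mod_cast hp
  have h3 : (0 : ℝ) < p := by linarith
  unfold hB
  positivity

/-- the four families of sums -/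
theorem sums (Q : SPar) (P : Finset ℕ) (hP : ∀ p ∈ P, 2 ≤ p) (L : ℝ) (hL : 0 < L) (D' : ℕ)
    (ε b : ℝ) (hI1 : 0 < Q.I1) (hε : 0 < ε) (hε1 : ε < 1 / 3) (hBD : 0 < BD D')
    (hb : b = BD D' * L) (hS : SumsN Q D' ε (k + 1) L P) :
    0 < b ∧ (CZ Q P L L) ^ 2 ≤ (b * (Q.I1 + ε)) ^ 2 / (b * (1 - ε)) ^ 2 ∧
    (∀ a ≤ 3, (SS P (hB a) Q.c L Q.gg) ^ 2 ≤ (b * (Q.I1 + ε)) ^ 2) ∧
    (∀ a ≤ 3, 0 ≤ SS P (gB a) 1 (L / 48) (fun t => (1 - t) ^ 2) ∧
      SS P (gB a) 1 (L / 48) (fun t => (1 - t) ^ 2) ≤ b / 48 * (1 / 3 + ε)) ∧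
    (∀ a ≤ 3, 0 ≤ SS P (gB a) 1 L (fun _ => 1) ∧
      SS P (gB a) 1 L (fun _ => 1) ≤ b * (1 + ε)) ∧
    (∀ a ≤ 3, 0 ≤ SS P (gB a) Q.c L (fun t => Q.gg t ^ 2) ∧
      SS P (gB a) Q.c L (fun t => Q.gg t ^ 2) ≤ b * (Q.I2 + ε)) := by
  have hP0 : ∀ p ∈ P, 0 < p := fun p hp => by have := hP p hp; omega
  have hb0 : 0 < b := by rw [hb]; positivity
  have hg : ∀ a, ∀ p ∈ P, 0 ≤ gB a p := fun a p hp => gB_nonneg a (hP p hp)
  have hh : ∀ a, ∀ p ∈ P, 0 ≤ hB a p := fun a p hp => hB_nonneg a (hP p hp)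
  have n0 : ∀ a, 0 ≤ SS P (hB a) Q.c L Q.gg := fun a =>
    SS_nonneg _ _ _ _ _ (hh a) hP0 hL fun t ht => (gg_pos Q ht).le
  refine ⟨hb0, ?_, ?_, ?_, ?_, ?_⟩
  · have h4 := hS.u4 0 (by norm_num)
    rw [hB_zero, ← hb] at h4
    have h5 := hS.l5
    rw [← hb] at h5
    have hn := n0 0
    rw [hB_zero] at hn
    have hZ : 0 < b * (1 - ε) := by
      have : 0 < 1 - ε := by linarith
      positivity
    rw [← div_pow]
    apply pow_le_pow_left₀ (CZ_nonneg Q P hP L L hL hL)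
    unfold CZ
    exact div_le_div₀ (hn.trans h4) h4 hZ h5
  · intro a ha
    have h4 := hS.u4 a ha
    rw [← hb] at h4
    exact pow_le_pow_left₀ (n0 a) h4 2
  · intro a ha
    have h := hS.u1 a ha
    refine ⟨SS_nonneg _ _ _ _ _ (hg a) hP0 (by positivity) fun t _ => sq_nonneg _, h.trans ?_⟩
    rw [hb]
    apply le_of_eq
    ring
  · intro a ha
    have h := hS.u3 a ha
    rw [← hb] at h
    exact ⟨SS_nonneg _ _ _ _ _ (hg a) hP0 hL fun t _ => zero_le_one, h⟩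
  · intro a ha
    have h := hS.u2 a ha
    rw [← hb] at h
    exact ⟨SS_nonneg _ _ _ _ _ (hg a) hP0 hL fun t _ => sq_nonneg _, h⟩

/-- the one-dimensional sums in the product for `zA` -/
theorem prodA (Q : SPar) (P : Finset ℕ) (hP : ∀ p ∈ P, 2 ≤ p) (L : ℝ) (i : Fin k) (m : ℕ) :
    ∏ l : Option (Fin k), ∑ a : Finset (IP P), (∏ t ∈ a, gB m (prP P t)) *
        GQ Q k L L i l (lg (prP P) a) ^ 2 =
      SS P (gB m) 1 (L / 48) (fun t => (1 - t) ^ 2) * (SS P (gB m) 1 L (fun _ => 1) *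
        SS P (gB m) Q.c L (fun t => Q.gg t ^ 2) ^ (k - 1)) := by
  rw [Fintype.prod_option, sumG_none Q P hP L L (gB m) i,
    ← Finset.mul_prod_erase univ _ (Finset.mem_univ i), sumG_j Q P hP L L (gB m) i]
  have e : ∀ x ∈ (univ : Finset (Fin k)).erase i,
      ∑ a : Finset (IP P), (∏ t ∈ a, gB m (prP P t)) * GQ Q k L L i (some x) (lg (prP P) a) ^ 2 =
        SS P (gB m) Q.c L (fun t => Q.gg t ^ 2) :=
    fun x hx => sumG_some Q P hP L L (gB m) i x (Finset.ne_of_mem_erase hx)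
  rw [Finset.prod_congr rfl e, Finset.prod_const, Finset.card_erase_of_mem (Finset.mem_univ i),
    Finset.card_univ, Fintype.card_fin]

theorem prodB (Q : SPar) (P : Finset ℕ) (hP : ∀ p ∈ P, 2 ≤ p) (L : ℝ) (i j : Fin k)
    (hij : i ≠ j) (m : ℕ) :
    ∏ l : Option (Fin k), ∑ a : Finset (IP P), (∏ t ∈ a, gB m (prP P t)) *
        cut (some j) (fun l a => GQ Q k L L i l (lg (prP P) a)) l a ^ 2 =
      SS P (gB m) 1 (L / 48) (fun t => (1 - t) ^ 2) * (SS P (gB m) 1 L (fun _ => 1) *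
        SS P (gB m) Q.c L (fun t => Q.gg t ^ 2) ^ (k - 2)) := by
  have ne : ∀ x : Option (Fin k), x ≠ some j → ∀ a : Finset (IP P),
      cut (some j) (fun l a => GQ Q k L L i l (lg (prP P) a)) x a =
        GQ Q k L L i x (lg (prP P) a) := by
    intro x hx a
    unfold cut
    rw [if_neg hx]
  have hij' : (some i : Option (Fin k)) ≠ some j := fun h => hij (Option.some_inj.1 h)
  rw [Fintype.prod_option, ← Finset.mul_prod_erase univ _ (Finset.mem_univ i)]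
  have hj : j ∈ (univ : Finset (Fin k)).erase i := by simp [hij.symm]
  rw [← Finset.mul_prod_erase _ _ hj, sum_cut, one_mul]
  have e0 : ∑ a : Finset (IP P), (∏ t ∈ a, gB m (prP P t)) *
      cut (some j) (fun l a => GQ Q k L L i l (lg (prP P) a)) none a ^ 2 =
      SS P (gB m) 1 (L / 48) (fun t => (1 - t) ^ 2) := by
    rw [← sumG_none Q P hP L L (gB m) i]
    exact Finset.sum_congr rfl fun a _ => by rw [ne none (by simp)]
  have e1 : ∑ a : Finset (IP P), (∏ t ∈ a, gB m (prP P t)) *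
      cut (some j) (fun l a => GQ Q k L L i l (lg (prP P) a)) (some i) a ^ 2 =
      SS P (gB m) 1 L (fun _ => 1) := by
    rw [← sumG_j Q P hP L L (gB m) i]
    exact Finset.sum_congr rfl fun a _ => by rw [ne (some i) hij']
  have e : ∀ x ∈ ((univ : Finset (Fin k)).erase i).erase j,
      ∑ a : Finset (IP P), (∏ t ∈ a, gB m (prP P t)) *
        cut (some j) (fun l a => GQ Q k L L i l (lg (prP P) a)) (some x) a ^ 2 =
        SS P (gB m) Q.c L (fun t => Q.gg t ^ 2) := by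
    intro x hx
    have hxj := Finset.ne_of_mem_erase hx
    have hxi := Finset.ne_of_mem_erase (Finset.mem_of_mem_erase hx)
    rw [← sumG_some Q P hP L L (gB m) i x hxi]
    exact Finset.sum_congr rfl fun a _ => by
      rw [ne (some x) (fun h => hxj (Option.some_inj.1 h))]
  rw [e0, e1, Finset.prod_congr rfl e, Finset.prod_const, Finset.card_erase_of_mem hj,
    Finset.card_erase_of_mem (Finset.mem_univ i), Finset.card_univ, Fintype.card_fin]
  rfl

theorem prodC (Q : SPar) (P : Finset ℕ) (hP : ∀ p ∈ P, 2 ≤ p) (L : ℝ) (i j l : Fin k)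
    (hij : i ≠ j) (hil : i ≠ l) (hjl : j ≠ l) (m : ℕ) :
    ∏ x : Option (Fin k), ∑ a : Finset (IP P), (∏ t ∈ a, gB m (prP P t)) *
        cut (some l) (cut (some j) (fun l a => GQ Q k L L i l (lg (prP P) a))) x a ^ 2 =
      SS P (gB m) 1 (L / 48) (fun t => (1 - t) ^ 2) * (SS P (gB m) 1 L (fun _ => 1) *
        SS P (gB m) Q.c L (fun t => Q.gg t ^ 2) ^ (k - 3)) := by
  have ne : ∀ x : Option (Fin k), x ≠ some j → x ≠ some l → ∀ a : Finset (IP P),
      cut (some l) (cut (some j) (fun l a => GQ Q k L L i l (lg (prP P) a))) x a =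
        GQ Q k L L i x (lg (prP P) a) := by
    intro x hx hx' a
    unfold cut
    rw [if_neg hx', if_neg hx]
  have hij' : (some i : Option (Fin k)) ≠ some j := fun h => hij (Option.some_inj.1 h)
  have hil' : (some i : Option (Fin k)) ≠ some l := fun h => hil (Option.some_inj.1 h)
  have hjl' : (some j : Option (Fin k)) ≠ some l := fun h => hjl (Option.some_inj.1 h)
  rw [Fintype.prod_option, ← Finset.mul_prod_erase univ _ (Finset.mem_univ i)]
  have hj : j ∈ (univ : Finset (Fin k)).erase i := by simp [hij.symm]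
  have hl : l ∈ ((univ : Finset (Fin k)).erase i).erase j := by simp [hil.symm, hjl.symm]
  rw [← Finset.mul_prod_erase _ _ hj, ← Finset.mul_prod_erase _ _ hl, sum_cut, one_mul]
  have ej : ∑ a : Finset (IP P), (∏ t ∈ a, gB m (prP P t)) *
      cut (some l) (cut (some j) (fun l a => GQ Q k L L i l (lg (prP P) a))) (some j) a ^ 2 =
      1 := by
    rw [← sum_cut P (some j) (fun l a => GQ Q k L L i l (lg (prP P) a)) (gB m)]
    refine Finset.sum_congr rfl fun a _ => ?_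
    congr 2
    conv_lhs => unfold cut
    rw [if_neg hjl']
    rfl
  have e0 : ∑ a : Finset (IP P), (∏ t ∈ a, gB m (prP P t)) *
      cut (some l) (cut (some j) (fun l a => GQ Q k L L i l (lg (prP P) a))) none a ^ 2 =
      SS P (gB m) 1 (L / 48) (fun t => (1 - t) ^ 2) := by
    rw [← sumG_none Q P hP L L (gB m) i]
    exact Finset.sum_congr rfl fun a _ => by rw [ne none (by simp) (by simp)]
  have e1 : ∑ a : Finset (IP P), (∏ t ∈ a, gB m (prP P t)) *
      cut (some l) (cut (some j) (fun l a => GQ Q k L L i l (lg (prP P) a))) (some i) a ^ 2 =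
      SS P (gB m) 1 L (fun _ => 1) := by
    rw [← sumG_j Q P hP L L (gB m) i]
    exact Finset.sum_congr rfl fun a _ => by rw [ne (some i) hij' hil']
  have e : ∀ x ∈ (((univ : Finset (Fin k)).erase i).erase j).erase l,
      ∑ a : Finset (IP P), (∏ t ∈ a, gB m (prP P t)) *
        cut (some l) (cut (some j) (fun l a => GQ Q k L L i l (lg (prP P) a))) (some x) a ^ 2 =
        SS P (gB m) Q.c L (fun t => Q.gg t ^ 2) := by
    intro x hx
    have hxl := Finset.ne_of_mem_erase hx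
    have hx2 := Finset.mem_of_mem_erase hx
    have hxj := Finset.ne_of_mem_erase hx2
    have hxi := Finset.ne_of_mem_erase (Finset.mem_of_mem_erase hx2)
    rw [← sumG_some Q P hP L L (gB m) i x hxi]
    exact Finset.sum_congr rfl fun a _ => by
      rw [ne (some x) (fun h => hxj (Option.some_inj.1 h)) (fun h => hxl (Option.some_inj.1 h))]
  rw [e0, e1, ej, one_mul, Finset.prod_congr rfl e, Finset.prod_const,
    Finset.card_erase_of_mem hl, Finset.card_erase_of_mem hj,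
    Finset.card_erase_of_mem (Finset.mem_univ i), Finset.card_univ, Fintype.card_fin]
  rfl

end spec

theorem s1g_inst (hS1G : Pool.Agent.W25.UN.S1Gen) (ι J : Type) [Fintype ι] [d1 : DecidableEq ι]
    [Fintype J] [d2 : DecidableEq J] (pr : ι → ℕ) (L : J → ℕ → ℕ) (hSD : SieveData ι J pr L 1)
    (c : (ι → Option J) → ℝ) : 0 ≤ Q1f pr c ∧
      Q1f pr c ≤ ∑ σ, c σ ^ 2 * mulc pr (fun p => (p : ℝ)) σ := by
  obtain rfl : d1 = (fun a b => Classical.propDecidable (a = b)) := Subsingleton.elim _ _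
  obtain rfl : d2 = (fun a b => Classical.propDecidable (a = b)) := Subsingleton.elim _ _
  have h := hS1G ι J pr L hSD c
  exact ⟨h.1, h.2.1⟩

theorem main (hS1G : Pool.Agent.W25.UN.S1Gen) : St_NWU := by
  intro k Q P L i j l hij hil hjl hL hPp
  have hP : ∀ p ∈ P, 2 ≤ p := fun p hp => (hPp p hp).two_le
  have hp2 : ∀ t : IP P, 2 ≤ prP P t := fun t => hP t.1 t.2
  have sA : ∀ σ, zA Q k P L i σ ≠ 0 → lgt (prP P) σ ≤ 3 * L := by
    intro σ h
    have := zP_supp Q P hP L L hL i σ h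
    linarith
  have sB : ∀ σ, zB Q k P L i j σ ≠ 0 →
      lgt (prP P) σ ≤ 3 * L ∧ ∀ t, σ t ≠ some (some j) := by
    intro σ h
    obtain ⟨h1, τ, h2, h3, -⟩ := supp (some j) (prP P) hp2 _ σ h
    exact ⟨h3.trans (sA τ h2), h1⟩
  have sC : ∀ σ, zC Q k P L i j l σ ≠ 0 → lgt (prP P) σ ≤ 3 * L ∧
      (∀ t, σ t ≠ some (some j)) ∧ ∀ t, σ t ≠ some (some l) := by
    intro σ h
    obtain ⟨h1, τ, h2, h3, h4⟩ := supp (some l) (prP P) hp2 _ σ h
    obtain ⟨h5, h6⟩ := sB τ h2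
    refine ⟨h3.trans h5, ?_, h1⟩
    have hjl' : (some j : Option (Fin k)) ≠ some l := fun h => hjl (Option.some_inj.1 h)
    have h7 := h4 (some j) hjl'
    rw [(fib_eq_empty τ (some j)).2 h6] at h7
    exact (fib_eq_empty σ (some j)).1 h7
  refine ⟨sA, sB, sC, fun σ => sizes Q P hP L hL i j l σ, ?_⟩
  intro D' ε b Lf hSD hε hε1 hI1 hI2 hBD hb hS
  obtain ⟨hb0, hCZ, hH, hU1, hU3, hU2⟩ := sums (k := k) Q P hP L hL D' ε b hI1 hε hε1 hBD hb hS
  have hQ : ∀ z : (IP P → Option (Option (Fin k))) → ℝ, 0 ≤ Q1f (prP P) (cw (prP P) z) ∧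
      Q1f (prP P) (cw (prP P) z) ≤
        ∑ σ, cw (prP P) z σ ^ 2 * mulc (prP P) (fun p => (p : ℝ)) σ := by
    intro z
    exact s1g_inst hS1G (IP P) (Option (Fin k)) (prP P) Lf hSD (cw (prP P) z)
  have nb1 : 0 ≤ b * (1 + ε) := by positivity
  have nb2 : 0 ≤ b / 48 * (1 / 3 + ε) := by positivity
  have nb3 : 0 ≤ b * (Q.I2 + ε) := by positivity
  have nq : 0 ≤ (b * (Q.I1 + ε)) ^ 2 / (b * (1 - ε)) ^ 2 := by positivity
  refine ⟨⟨(hQ _).1, ?_⟩, ⟨(hQ _).1, ?_⟩, ⟨(hQ _).1, ?_⟩⟩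
  · refine (hQ _).2.trans ((diag (prP P) hp2 _ _ _ _ (bnd_A Q P hP L hL i)).trans ?_)
    rw [prodA Q P hP L i 1]
    obtain ⟨a1, a2⟩ := hU1 1 (by norm_num)
    obtain ⟨a3, a4⟩ := hU3 1 (by norm_num)
    obtain ⟨a5, a6⟩ := hU2 1 (by norm_num)
    calc _ ≤ (b * (Q.I1 + ε)) ^ 2 / (b * (1 - ε)) ^ 2 * ((b / 48 * (1 / 3 + ε)) *
          ((b * (1 + ε)) * (b * (Q.I2 + ε)) ^ (k - 1))) := by gcongr
      _ = _ := by ring
  · refine (hQ _).2.trans ((diag (prP P) hp2 _ _ _ _ (bnd_B Q P hP L hL i j hij)).trans ?_)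
    rw [prodB Q P hP L i j hij 2]
    obtain ⟨a1, a2⟩ := hU1 2 (by norm_num)
    obtain ⟨a3, a4⟩ := hU3 2 (by norm_num)
    obtain ⟨a5, a6⟩ := hU2 2 (by norm_num)
    have c1 := hH 1 (by norm_num)
    rw [mul_pow]
    calc _ ≤ ((b * (Q.I1 + ε)) ^ 2 / (b * (1 - ε)) ^ 2 * (b * (Q.I1 + ε)) ^ 2) *
          ((b / 48 * (1 / 3 + ε)) * ((b * (1 + ε)) * (b * (Q.I2 + ε)) ^ (k - 2))) := by gcongr
      _ = _ := by ring
  · refine (hQ _).2.trans ((diag (prP P) hp2 _ _ _ _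
      (bnd_C Q P hP L hL i j l hij hil hjl)).trans ?_)
    rw [prodC Q P hP L i j l hij hil hjl 3]
    obtain ⟨a1, a2⟩ := hU1 3 (by norm_num)
    obtain ⟨a3, a4⟩ := hU3 3 (by norm_num)
    obtain ⟨a5, a6⟩ := hU2 3 (by norm_num)
    have c1 := hH 1 (by norm_num)
    have c2 := hH 2 (by norm_num)
    rw [mul_pow, mul_pow]
    calc _ ≤ ((b * (Q.I1 + ε)) ^ 2 / (b * (1 - ε)) ^ 2 * (b * (Q.I1 + ε)) ^ 2 *
          (b * (Q.I1 + ε)) ^ 2) *
          ((b / 48 * (1 / 3 + ε)) * ((b * (1 + ε)) * (b * (Q.I2 + ε)) ^ (k - 3))) := by gcongr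
      _ = _ := by ring

end Pool.Agent.W25.UB.NWUf
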