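import Mathlib
import Pool.Agent.W25.UB.AsmD
import Pool.Agent.W25.UN.Final
import Pool.Agent.W23.PL.Cou
import Pool.Agent.W24.DC.WU
import Pool.Agent.W324.DC.BCF
import Pool.Agent.W324.DC.BBF
import Pool.Agent.W324.DC.COF
import Pool.Agent.W462.PL.COSP
import Pool.Agent.H442R2.BX.Asm
import Pool.Agent.W308.PL.FLW
import Pool.Agent.W655.PL.VLB
import Pool.Agent.W935.UB.R2
import Pool.Agent.W918.UBexm
import Pool.Agent.W505.UBGAU
import Pool.Agent.W308.UB.B
import Pool.Agent.W505.UBFLC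
import Pool.Agent.W885.UBFT1
import Pool.Agent.W924.UB.FT2
import Pool.Agent.W494.UB.FT3
import Pool.Agent.W356.UBSel
import Pool.Agent.W287.UB.VG
import Pool.Agent.W290.UBSUM
import Pool.Agent.W469.UBNWE
import Pool.Agent.W25.UB.NWUf
import Pool.Agent.W940.UBNWL
import Pool.Agent.W89.UBMAS
import Pool.Agent.W382.UB.Rcb
import Pool.Agent.W240.UBVLN
import Pool.Agent.W22.UB.TWa
import Pool.Agent.W460.UB.TWb
import Pool.Agent.W376.UBU0
import Pool.Agent.W494.UB.L1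
import Pool.Agent.W140.UBU2
import Pool.Agent.W804.UBUD
import Pool.Agent.W565.UB.Dat
import Pool.Agent.W352.UBNum

/-! Project UB: the uniform coloured theorem with four classes, unconditionally. -/

set_option autoImplicit false

namespace Pool.Agent.W25.UB

open Pool.Agent.W25.UN
open Pool.Agent.H442R2

theorem hTTC : Pool.Agent.W23.PL.St_TTC :=
  Pool.Agent.W462.PL.TTC
    (Pool.Agent.W23.PL.COU BX.CO_thm (Pool.Agent.W324.DC.COF
      (Pool.Agent.W324.DC.BBF (Pool.Agent.W324.DC.BCF Pool.Agent.W24.DC.WU BX.PW)) BX.SV_thm))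
    BX.RC BX.GS

theorem hODU : OneDimU := Pool.Agent.W612.UNOneDimU.main Pool.Agent.H399R2.oneDim

theorem hSUM : St_SUM := Pool.Agent.W290.UBSUM.main hODU

theorem hNWU : St_NWU := Pool.Agent.W25.UB.NWUf.main Pool.Agent.W21.UN.main

theorem hEXM : St_EXM := Pool.Agent.W918.UBexm.main

theorem hFT3 : St_FT3 :=
  Pool.Agent.W494.UB.FT3.main hEXM (Pool.Agent.W885.UBFT1.main hEXM) Pool.Agent.W924.UB.FT2.main

theorem hMAS : St_MAS :=
  Pool.Agent.W89.UBMAS.main hEXM Pool.Agent.W505.UBGAU.main hFT3 Pool.Agent.W293.UN.Cc.main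

theorem hVLN : St_VLN := Pool.Agent.W240.UBVLN.main Pool.Agent.W655.PL.VLB

theorem hDAT : St_DAT :=
  Pool.Agent.W565.UB.Dat.main (Pool.Agent.W308.UB.main hEXM)
    (Pool.Agent.W505.UBFLC.main Pool.Agent.W308.PL.FLW Pool.Agent.W655.PL.VLB)
    Pool.Agent.W356.UBSel.main Pool.Agent.W287.UB.main hSUM hMAS
    (Pool.Agent.W382.UBrcb.main BX.RC BX.GS) hVLN (Pool.Agent.W940.UBNWL.main Pool.Agent.W21.UN.main)
    Pool.Agent.W293.UN.Cc.main Pool.Agent.W398.UNFO.sd

theorem hTWa : St_TWa :=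
  Pool.Agent.W22.UB.main (Pool.Agent.W991.UN.main hFLA Pool.Agent.W21.UN.main)
    Pool.Agent.W776.UNTents.main Pool.Agent.W398.UNFO.rc Pool.Agent.W398.UNFO.sd
    Pool.Agent.W293.UN.Cc.main Pool.Agent.W493.UN.S1P.main Pool.Agent.W493.UN.WD.main
    W310.UN.VL.main Pool.Agent.W21.UN.main hSUM

theorem hTWb : St_TWb :=
  Pool.Agent.W460.UBT.main (Pool.Agent.W334.UNPS2.main hFLA Pool.Agent.W924.UNS2G.main)
    Pool.Agent.W776.UNTents.main Pool.Agent.W398.UNFO.rc Pool.Agent.W398.UNFO.sd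
    Pool.Agent.W143.UN.WE.main (Pool.Agent.W410.UNEQ.main Pool.Agent.W776.UNTents.main)
    hSUM Pool.Agent.W293.UN.Cc.main Pool.Agent.W714.UN.Pt.main
    (Pool.Agent.W293.UN.Pn.main Pool.Agent.H732R2.pntLog)
    (Pool.Agent.W493.UN.ER.main Pool.Agent.H410R2.bvap) Pool.Agent.W493.UN.QL.main
    Pool.Agent.W493.UN.WD.main W310.UN.VL.main Pool.Agent.H361R2.tailBound

/-- the uniform coloured theorem with four classes -/
theorem thmV : ThmV :=
  thmV_of (Pool.Agent.W935.UB.R2.main hTTC) hDAT Pool.Agent.W352.UBNum.main hTWa hTWb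
    (Pool.Agent.W376.UBU0.main hNWU) (Pool.Agent.W494.UB.L1.main hNWU Pool.Agent.W469.UBNWE.main)
    (Pool.Agent.W140.UBU2.main hNWU Pool.Agent.W469.UBNWE.main)
    (Pool.Agent.W804.UBUD.main hNWU Pool.Agent.W469.UBNWE.main) Pool.Agent.W469.UBNWE.main
    Pool.Agent.W714.UN.Pt.main hVLN

end Pool.Agent.W25.UB
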