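import Mathlib
import Pool.Agent.W25.UB.Final
import Pool.Agent.W25.UB.AsmDT
import Pool.Agent.W856.UBNumT

/-! Project UB: the uniform coloured theorem with any number of classes, unconditionally. -/

set_option autoImplicit false

namespace Pool.Agent.W25.UB

open Pool.Agent.W25.UN
open Pool.Agent.H442R2

/-- the uniform coloured theorem with any number of classes -/
theorem thmVG : ThmVG :=
  thmVG_of (Pool.Agent.W935.UB.R2.main hTTC) hDAT Pool.Agent.W856.UBNumT.main hTWa hTWb
    (Pool.Agent.W376.UBU0.main hNWU) (Pool.Agent.W494.UB.L1.main hNWU Pool.Agent.W469.UBNWE.main)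
    (Pool.Agent.W140.UBU2.main hNWU Pool.Agent.W469.UBNWE.main)
    (Pool.Agent.W804.UBUD.main hNWU Pool.Agent.W469.UBNWE.main) Pool.Agent.W469.UBNWE.main
    Pool.Agent.W714.UN.Pt.main hVLN

end Pool.Agent.W25.UB
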