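import Mathlib
import Pool.Agent.W25.UB.Stm4

/-! Project UB (helper25): the dichotomy with a power saving (statements). -/

set_option autoImplicit false

namespace Pool.Agent.W25.UB

open Finset Filter Topology

/-- (KST) Kővári–Sós–Turán for difference graphs -/
def St_KST : Prop := ∀ K : ℕ, 1 ≤ K → ∃ C₁ : ℝ, 0 < C₁ ∧ ∀ (L : ℕ) (u : ℤ) (X : Finset ℤ), 1 ≤ L →
  (∀ x ∈ X, u < x ∧ x ≤ u + L) → C₁ * (L : ℝ) ^ (1 - 1 / (K : ℝ)) < X.card →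
  ∃ S₁ S₂ : Finset ℤ, S₁.card = K ∧ S₂.card = K ∧ (∀ s ∈ S₁, 0 ≤ s ∧ s < L) ∧
    (∀ s ∈ S₂, u ≤ s ∧ s ≤ u + 2 * L) ∧ ∀ s ∈ S₁, ∀ s' ∈ S₂, s' - s ∈ X

open Classical in
/-- (C2p) the dichotomy at the scale `N`, power saving: for every large `N` either some `2 N + c`
with `|c| ≤ C` is a sum of two primes in at least `N ^ (1 - η)` ways, or for all but
`C₁ L ^ (1 - 1 / K)` of the `k` in the window `(u, u + L]` the number `2 k` is a difference of two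
primes up to about `3 N` in at least `N ^ (1 - η)` ways -/
def St_C2p : Prop := ∃ (K : ℕ) (C₁ : ℝ), 1 ≤ K ∧ 0 < C₁ ∧ ∀ (L u : ℕ), 1 ≤ L → ∃ C : ℕ,
  ∀ η : ℝ, 0 < η → ∀ᶠ N : ℕ in atTop,
    (∃ c : ℤ, |c| ≤ C ∧ (N : ℝ) ^ (1 - η) ≤ (((Icc 1 (3 * N)).filter (fun p : ℕ =>
      p.Prime ∧ ∃ q : ℕ, q.Prime ∧ (p : ℤ) + q = 2 * N + c)).card : ℝ)) ∨
    (((Ioc u (u + L)).filter (fun k : ℕ => ¬ ((N : ℝ) ^ (1 - η) ≤
      (((Icc 1 (3 * N)).filter (fun p : ℕ => p.Prime ∧ (p + 2 * k).Prime)).card : ℝ)))).card : ℝ) ≤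
      C₁ * (L : ℝ) ^ (1 - 1 / (K : ℝ))

end Pool.Agent.W25.UB
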