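import Mathlib
import Pool.Agent.W25.UB.Stm6

/-! Project UB: the dichotomy, final form, from `St_C2p`. -/

set_option autoImplicit false

namespace Pool.Agent.W25.UB

open Finset Filter Topology

theorem ncard_G (N : ℕ) (c : ℤ) :
    {p : ℕ | p ≤ 3 * N ∧ p.Prime ∧ ∃ q : ℕ, q.Prime ∧ (p : ℤ) + q = 2 * N + c}.Finite :=
  (Set.finite_Iic (3 * N)).subset fun _ hp => hp.1

theorem ncard_P (x k : ℕ) : {p : ℕ | p ≤ x ∧ p.Prime ∧ (p + 2 * k).Prime}.Finite :=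
  (Set.finite_Iic x).subset fun _ hp => hp.1

/-- the scale version with `ncard` -/
theorem dich_scale (h : St_C2p) : ∃ δ C₁ : ℝ, 0 < δ ∧ 0 < C₁ ∧
    ∀ L u : ℕ, 1 ≤ L → ∃ C : ℕ, ∀ η : ℝ, 0 < η → ∀ᶠ N : ℕ in atTop,
      (∃ c : ℤ, |c| ≤ C ∧ (N : ℝ) ^ (1 - η) ≤ ({p : ℕ | p ≤ 3 * N ∧ p.Prime ∧
        ∃ q : ℕ, q.Prime ∧ (p : ℤ) + q = 2 * N + c}.ncard : ℝ)) ∨
      ({k : ℕ | u < k ∧ k ≤ u + L ∧ ({p : ℕ | p ≤ 3 * N ∧ p.Prime ∧ (p + 2 * k).Prime}.ncard : ℝ) <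
        (N : ℝ) ^ (1 - η)}.ncard : ℝ) ≤ C₁ * (L : ℝ) ^ (1 - δ) := by
  classical
  obtain ⟨K, C₁, hK, hC₁, h⟩ := h
  refine ⟨1 / (K : ℝ), C₁, by positivity, hC₁, fun L u hL => ?_⟩
  obtain ⟨C, hC⟩ := h L u hL
  refine ⟨C, fun η hη => ?_⟩
  filter_upwards [hC η hη] with N hN
  rcases hN with ⟨c, hc, hN⟩ | hN
  · left
    refine ⟨c, hc, hN.trans ?_⟩
    rw [← Set.ncard_coe_finset, Nat.cast_le]
    refine Set.ncard_le_ncard ?_ (ncard_G N c)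
    intro p hp
    rw [Finset.coe_filter, Set.mem_ofPred_eq, Finset.mem_Icc] at hp
    exact ⟨hp.1.2, hp.2⟩
  · right
    refine le_trans ?_ hN
    rw [← Set.ncard_coe_finset, Nat.cast_le]
    refine Set.ncard_le_ncard ?_ (Finset.finite_toSet _)
    rintro k ⟨h1, h2, h3⟩
    rw [Finset.coe_filter, Set.mem_ofPred_eq, Finset.mem_Ioc]
    refine ⟨⟨h1, h2⟩, ?_⟩
    rw [not_le]
    refine lt_of_le_of_lt ?_ h3
    rw [← Set.ncard_coe_finset, Nat.cast_le]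
    refine Set.ncard_le_ncard ?_ (ncard_P (3 * N) k)
    intro p hp
    rw [Finset.coe_filter, Set.mem_ofPred_eq, Finset.mem_Icc] at hp
    exact ⟨hp.1.2, hp.2⟩

/-- from the scales to the dichotomy -/
theorem dich_global (δ C₁ : ℝ)
    (h : ∀ L u : ℕ, 1 ≤ L → ∃ C : ℕ, ∀ η : ℝ, 0 < η → ∀ᶠ N : ℕ in atTop,
      (∃ c : ℤ, |c| ≤ C ∧ (N : ℝ) ^ (1 - η) ≤ ({p : ℕ | p ≤ 3 * N ∧ p.Prime ∧
        ∃ q : ℕ, q.Prime ∧ (p : ℤ) + q = 2 * N + c}.ncard : ℝ)) ∨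
      ({k : ℕ | u < k ∧ k ≤ u + L ∧ ({p : ℕ | p ≤ 3 * N ∧ p.Prime ∧ (p + 2 * k).Prime}.ncard : ℝ) <
        (N : ℝ) ^ (1 - η)}.ncard : ℝ) ≤ C₁ * (L : ℝ) ^ (1 - δ)) :
    (∃ C : ℕ, ∀ η : ℝ, 0 < η → ∀ᶠ N : ℕ in atTop, ∃ c : ℤ, |c| ≤ C ∧
      (N : ℝ) ^ (1 - η) ≤ ({p : ℕ | p ≤ 3 * N ∧ p.Prime ∧
        ∃ q : ℕ, q.Prime ∧ (p : ℤ) + q = 2 * N + c}.ncard : ℝ)) ∨
    ∀ L u : ℕ, 1 ≤ L → ({k : ℕ | u < k ∧ k ≤ u + L ∧ ¬ ∀ η : ℝ, 0 < η → ∃ᶠ x : ℕ in atTop,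
      (x : ℝ) ^ (1 - η) ≤ ({p : ℕ | p ≤ x ∧ p.Prime ∧ (p + 2 * k).Prime}.ncard : ℝ)}.ncard : ℝ) ≤
        C₁ * (L : ℝ) ^ (1 - δ) := by
  classical
  by_cases hG : ∃ C : ℕ, ∀ η : ℝ, 0 < η → ∀ᶠ N : ℕ in atTop, ∃ c : ℤ, |c| ≤ C ∧
      (N : ℝ) ^ (1 - η) ≤ ({p : ℕ | p ≤ 3 * N ∧ p.Prime ∧
        ∃ q : ℕ, q.Prime ∧ (p : ℤ) + q = 2 * N + c}.ncard : ℝ)
  · exact Or.inl hG
  right
  intro L u hL
  obtain ⟨C, hC⟩ := h L u hL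
  have hG' : ∃ η : ℝ, 0 < η ∧ ∃ᶠ N : ℕ in atTop, ¬ ∃ c : ℤ, |c| ≤ C ∧
      (N : ℝ) ^ (1 - η) ≤ ({p : ℕ | p ≤ 3 * N ∧ p.Prime ∧
        ∃ q : ℕ, q.Prime ∧ (p : ℤ) + q = 2 * N + c}.ncard : ℝ) := by
    by_contra hcon
    apply hG
    refine ⟨C, fun η hη => ?_⟩
    by_contra h1
    exact hcon ⟨η, hη, not_eventually.1 h1⟩
  obtain ⟨η₀, hη₀, hfreq⟩ := hG'
  set X : Set ℕ := {k : ℕ | u < k ∧ k ≤ u + L ∧ ¬ ∀ η : ℝ, 0 < η → ∃ᶠ x : ℕ in atTop,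
      (x : ℝ) ^ (1 - η) ≤ ({p : ℕ | p ≤ x ∧ p.Prime ∧ (p + 2 * k).Prime}.ncard : ℝ)} with hX
  have hXfin : X.Finite := (Set.finite_Ioc u (u + L)).subset fun k hk => ⟨hk.1, hk.2.1⟩
  have hk : ∀ k : ℕ, ∃ η : ℝ, 0 < η ∧ (k ∈ X → ∀ᶠ x : ℕ in atTop,
      ({p : ℕ | p ≤ x ∧ p.Prime ∧ (p + 2 * k).Prime}.ncard : ℝ) < (x : ℝ) ^ (1 - η)) := by
    intro k
    by_cases hkX : k ∈ X
    · obtain ⟨-, -, h3⟩ := hkX
      push Not at h3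
      obtain ⟨η, hη, h4⟩ := h3
      exact ⟨η, hη, fun _ => h4⟩
    · exact ⟨1, one_pos, fun h' => absurd h' hkX⟩
  choose ηk hηk hηk' using hk
  -- a common exponent
  obtain ⟨η₁, hη₁, hη₁'⟩ : ∃ η₁ : ℝ, 0 < η₁ ∧ ∀ k ∈ Finset.Ioc u (u + L), η₁ ≤ ηk k := by
    by_cases hne : (Finset.Ioc u (u + L)).Nonempty
    · refine ⟨(Finset.Ioc u (u + L)).inf' hne ηk, ?_, fun k hk => Finset.inf'_le _ hk⟩
      rw [Finset.lt_inf'_iff]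
      exact fun k _ => hηk k
    · exact ⟨1, one_pos, fun k hk => absurd ⟨k, hk⟩ hne⟩
  set η : ℝ := min η₀ (η₁ / 2) with hη
  have hηp : 0 < η := lt_min hη₀ (by positivity)
  have hη0 : η ≤ η₀ := min_le_left _ _
  have hη1 : η ≤ η₁ / 2 := min_le_right _ _
  -- eventually the `k` of `X` are bad at the scale `N`
  have hev : ∀ᶠ N : ℕ in atTop, ∀ k ∈ Finset.Ioc u (u + L), k ∈ X →
      ({p : ℕ | p ≤ 3 * N ∧ p.Prime ∧ (p + 2 * k).Prime}.ncard : ℝ) < (N : ℝ) ^ (1 - η) := by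
    rw [Filter.eventually_all_finset]
    intro k hk
    by_cases hkX : k ∈ X
    · have h3 := hηk' k hkX
      have h4 : Tendsto (fun N : ℕ => 3 * N) atTop atTop :=
        tendsto_id.const_mul_atTop' (by norm_num)
      have h5 := h4.eventually h3
      have h6 : ∀ᶠ N : ℕ in atTop, (3 : ℝ) ≤ (N : ℝ) ^ (η₁ / 2) :=
        ((tendsto_rpow_atTop (by positivity : 0 < η₁ / 2)).comp
          tendsto_natCast_atTop_atTop).eventually_ge_atTop 3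
      filter_upwards [h5, h6, eventually_ge_atTop 1] with N h7 h8 h9 _
      refine h7.trans_le ?_
      have hN : (1 : ℝ) ≤ N := by exact_mod_cast h9
      have hN0 : (0 : ℝ) < N := by linarith
      push_cast
      have h10 : (3 * (N : ℝ)) ^ (1 - ηk k) ≤ (3 * (N : ℝ)) ^ (1 - η₁) :=
        Real.rpow_le_rpow_of_exponent_le (by linarith) (by linarith [hη₁' k hk])
      refine h10.trans ?_
      rw [Real.mul_rpow (by norm_num) hN0.le]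
      have h11 : (3 : ℝ) ^ (1 - η₁) ≤ 3 := by
        calc (3 : ℝ) ^ (1 - η₁) ≤ (3 : ℝ) ^ (1 : ℝ) :=
              Real.rpow_le_rpow_of_exponent_le (by norm_num) (by linarith)
          _ = 3 := Real.rpow_one 3
      calc (3 : ℝ) ^ (1 - η₁) * (N : ℝ) ^ (1 - η₁) ≤ (N : ℝ) ^ (η₁ / 2) * (N : ℝ) ^ (1 - η₁) :=
            mul_le_mul_of_nonneg_right (h11.trans h8) (by positivity)
        _ = (N : ℝ) ^ (η₁ / 2 + (1 - η₁)) := by rw [← Real.rpow_add hN0]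
        _ ≤ (N : ℝ) ^ (1 - η) := Real.rpow_le_rpow_of_exponent_le hN (by linarith)
    · exact Eventually.of_forall fun N h' => absurd h' hkX
  obtain ⟨N, hN1, hN2, hN3, hN4⟩ := (hfreq.and_eventually ((hC η hηp).and
    (hev.and (eventually_ge_atTop 1)))).exists
  have hNR : (1 : ℝ) ≤ N := by exact_mod_cast hN4
  rcases hN2 with ⟨c, hc, hN2⟩ | hN2
  · exfalso
    apply hN1
    refine ⟨c, hc, le_trans ?_ hN2⟩
    exact Real.rpow_le_rpow_of_exponent_le hNR (by linarith)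
  · refine le_trans ?_ hN2
    rw [Nat.cast_le]
    refine Set.ncard_le_ncard ?_ ((Set.finite_Ioc u (u + L)).subset fun k hk => ⟨hk.1, hk.2.1⟩)
    intro k hk
    exact ⟨hk.1, hk.2.1, hN3 k (Finset.mem_Ioc.2 ⟨hk.1, hk.2.1⟩) hk⟩

end Pool.Agent.W25.UB
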