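import Mathlib
import Pool.Agent.W25.UB.FinalT
import Pool.Agent.W473.UBCB

/-! Project UB: any number of classes, all other shifts being blocked, unconditionally. -/

set_option autoImplicit false

namespace Pool.Agent.W25.UB

/-- more than a quarter of the classes contain primes, all other shifts being blocked -/
theorem hCB : St_CB := Pool.Agent.W473.UBCB.main thmVG

end Pool.Agent.W25.UB
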